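import Pool.Agent.H145Z.FP.A

set_option autoImplicit false

open Finset

noncomputable section

namespace Pool.Agent.H145Z.PF

open Pool.Agent.H145Z.FP (m n nu mR_pos two_le_mR sum_le_one_exc one_le_wt)

abbrev V := ℕ → ℝ
abbrev Fn := V →ₗ[ℝ] ℝ
abbrev En := V →ₗ[ℝ] V

/-- restriction to a set of coordinates -/
def rs (p : ℕ → Prop) [DecidablePred p] : En where
  toFun x := fun a => if p a then x a else 0
  map_add' x y := by funext a; simp only [Pi.add_apply]; split_ifs <;> simp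
  map_smul' c x := by
    funext a; simp only [Pi.smul_apply, RingHom.id_apply]; split_ifs <;> simp

lemma rs_apply (p : ℕ → Prop) [DecidablePred p] (x : V) (a : ℕ) :
    rs p x a = if p a then x a else 0 := rfl

/-- restriction to an interval -/
def pr (α β : ℕ) : En := rs fun a => α ≤ a ∧ a < β

/-- restriction to a tail -/
def tl (N : ℕ) : En := rs fun a => N ≤ a

lemma pr_apply (α β : ℕ) (x : V) (a : ℕ) : pr α β x a = if α ≤ a ∧ a < β then x a else 0 := rfl

lemma tl_apply (N : ℕ) (x : V) (a : ℕ) : tl N x a = if N ≤ a then x a else 0 := rfl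

/-- the backward shifts of the four-fold tree -/
def Tr (i : Fin 4) : En := LinearMap.funLeft ℝ ℝ fun t => 4 * t + i + 1

/-- the forward shifts of the four-fold tree -/
def Sr (i : Fin 4) : En where
  toFun x := fun a => if 0 < a ∧ (a - 1) % 4 = i then x ((a - 1) / 4) else 0
  map_add' x y := by funext a; simp only [Pi.add_apply]; split_ifs <;> simp
  map_smul' c x := by
    funext a; simp only [Pi.smul_apply, RingHom.id_apply]; split_ifs <;> simp

lemma Tr_apply (i : Fin 4) (x : V) (t : ℕ) : Tr i x t = x (4 * t + i + 1) := rfl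

lemma Sr_apply (i : Fin 4) (x : V) (a : ℕ) :
    Sr i x a = if 0 < a ∧ (a - 1) % 4 = i then x ((a - 1) / 4) else 0 := rfl

lemma Tr_Sr (i k : Fin 4) (x : V) : Tr i (Sr k x) = if i = k then x else 0 := by
  funext t
  have hi := i.isLt
  have hk := k.isLt
  rw [Tr_apply, Sr_apply]
  by_cases h : i = k
  · subst h
    have h1 : (4 * t + i + 1 - 1) / 4 = t := by omega
    rw [if_pos (by omega), if_pos rfl, h1]
  · have h1 : (i : ℕ) ≠ k := fun h2 => h (Fin.ext h2)
    rw [if_neg (by omega), if_neg h]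
    rfl

def Sw : List (Fin 4) → En
  | [] => LinearMap.id
  | i :: a => Sr i ∘ₗ Sw a

def Tw : List (Fin 4) → En
  | [] => LinearMap.id
  | i :: b => Tw b ∘ₗ Tr i

@[simp] lemma Sw_nil (x : V) : Sw [] x = x := rfl
@[simp] lemma Tw_nil (x : V) : Tw [] x = x := rfl
@[simp] lemma Sw_cons (i : Fin 4) (a : List (Fin 4)) (x : V) : Sw (i :: a) x = Sr i (Sw a x) := rfl
@[simp] lemma Tw_cons (i : Fin 4) (b : List (Fin 4)) (x : V) : Tw (i :: b) x = Tw b (Tr i x) := rfl

lemma Sw_snoc (a : List (Fin 4)) (i : Fin 4) (x : V) : Sw (a ++ [i]) x = Sw a (Sr i x) := by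
  induction a with
  | nil => rfl
  | cons k a ih => simp [ih]

lemma pr_Tr (α β : ℕ) (i : Fin 4) (x : V) :
    pr α β (Tr i x) = Tr i (pr (4 * α + 1) (4 * β + 1) x) := by
  funext t
  have hi := i.isLt
  simp only [pr_apply, Tr_apply]
  exact if_congr (by omega) rfl rfl

lemma pr_Sr (α β : ℕ) (i : Fin 4) (x : V) :
    pr α β (Sr i x) = Sr i (pr ((α + 2 - i) / 4) ((β + 2 - i) / 4) x) := by
  funext a
  have hi := i.isLt
  simp only [pr_apply, Sr_apply]
  split_ifs <;> first | rfl | omega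

lemma pr_pr (α β α' β' : ℕ) (x : V) : pr α β (pr α' β' x) = pr (max α α') (min β β') x := by
  funext a
  simp only [pr_apply]
  split_ifs <;> first | rfl | omega

lemma pr_tl (α β N : ℕ) (x : V) : pr α β (tl N x) = pr (max α N) β x := by
  funext a
  simp only [pr_apply, tl_apply]
  split_ifs <;> first | rfl | omega

lemma pr_zero (x : V) : pr 0 0 x = 0 := by
  funext a
  simp [pr_apply]

/-- evaluation of a rational finitely supported functional -/
def ev : (ℕ →₀ ℚ) →ₗ[ℚ] Fn := Finsupp.linearCombination ℚ fun a => (LinearMap.proj a : Fn)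

def enc : ℕ × (ℕ →₀ ℚ) → ℕ := (exists_injective_nat (ℕ × (ℕ →₀ ℚ))).choose

lemma enc_inj : Function.Injective enc := (exists_injective_nat (ℕ × (ℕ →₀ ℚ))).choose_spec

def hist (g : ℕ → ℕ →₀ ℚ) : ℕ → ℕ
  | 0 => 0
  | r + 1 => enc (hist g r, g r) + 1

lemma hist_inj (g g' : ℕ → ℕ →₀ ℚ) :
    ∀ r s, hist g r = hist g' s → r = s ∧ ∀ q < r, g q = g' q := by
  intro r
  induction r with
  | zero =>
    intro s hs
    cases s with
    | zero => simp
    | succ s => simp only [hist] at hs; omega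
  | succ r ih =>
    intro s hs
    cases s with
    | zero => simp only [hist] at hs; omega
    | succ s =>
      simp only [hist] at hs
      have h2 := enc_inj (Nat.succ.inj hs)
      simp only [Prod.mk.injEq] at h2
      obtain ⟨h3, h4⟩ := ih s h2.1
      subst h3
      refine ⟨rfl, fun q hq => ?_⟩
      rcases Nat.lt_succ_iff_lt_or_eq.1 hq with h5 | h5
      · exact h4 q h5
      · subst h5; exact h2.2

/-- the coding of the weights along a special sequence -/
def code (h : ℕ) (g : ℕ → ℕ →₀ ℚ) (u : ℕ → ℕ) (r : ℕ) : ℕ :=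
  2 * (n h + Nat.pair (u r) (hist g r))

lemma le_code (h : ℕ) (g : ℕ → ℕ →₀ ℚ) (u : ℕ → ℕ) (r : ℕ) : n h ≤ code h g u r := by
  simp only [code]; omega

lemma code_inj {h : ℕ} {g g' : ℕ → ℕ →₀ ℚ} {u u' : ℕ → ℕ} {r s : ℕ}
    (H : code h g u r = code h g' u' s) : r = s ∧ ∀ q < r, g q = g' q := by
  simp only [code] at H
  have h1 : Nat.pair (u r) (hist g r) = Nat.pair (u' s) (hist g' s) := by omega
  exact hist_inj g g' r s (Nat.pair_eq_pair.1 h1).2

/-- the children of a special node -/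
def Sp (j : ℕ) (R : Finset ℕ) (w : ℕ → ℕ) (ψ : ℕ → Fn) : Prop :=
  ∃ (g : ℕ → ℕ →₀ ℚ) (u : ℕ → ℕ) (a b : List (Fin 4)) (α β : ℕ) (ε : ℝ), |ε| ≤ 1 ∧
    ∀ r ∈ R, w r = code j g u r + 1 ∧ ∀ x, ψ r x = ε * ev (g r) (Sw a (Tw b (pr α β x)))

/-- the weighted norming functionals -/
inductive W : ℕ → Fn → Prop
  | leaf (a : ℕ) (c : ℚ) (hc : |c| ≤ 1) : W 0 (c • (LinearMap.proj a : Fn))
  | node (j : ℕ) (R : Finset ℕ) (α β w : ℕ → ℕ) (φ : ℕ → Fn)
      (hR : R.card ≤ n j)
      (hA : ∀ r ∈ R, ∀ s ∈ R, r < s → β r ≤ α s)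
      (hφ : ∀ r, r ∈ R → W (w r) (φ r))
      (hsp : j % 2 = 1 → Sp j R w fun r => φ r ∘ₗ pr (α r) (β r)) :
      W (j + 1) ((m j : ℝ)⁻¹ • ∑ r ∈ R, φ r ∘ₗ pr (α r) (β r))

def K (φ : Fn) : Prop := ∃ w, W w φ

lemma W.K {w : ℕ} {φ : Fn} (h : W w φ) : K φ := ⟨w, h⟩

lemma node_apply (j : ℕ) (R : Finset ℕ) (α β : ℕ → ℕ) (φ : ℕ → Fn) (x : V) :
    ((m j : ℝ)⁻¹ • ∑ r ∈ R, φ r ∘ₗ pr (α r) (β r)) x =
      (∑ r ∈ R, φ r (pr (α r) (β r) x)) / m j := by
  simp [LinearMap.sum_apply, div_eq_inv_mul]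

lemma leaf_apply (a : ℕ) (c : ℚ) (x : V) : (c • (LinearMap.proj a : Fn)) x = c * x a := by
  simp [Rat.smul_def]

lemma W.comp {Θ : En} (κ : ℕ → ℕ) (hκ : Monotone κ)
    (h1 : ∀ (a : ℕ) (c : ℚ), |c| ≤ 1 → ∃ (a' : ℕ) (c' : ℚ), |c'| ≤ 1 ∧
      ∀ x, (c : ℝ) * Θ x a = c' * x a')
    (h2 : ∀ α β x, pr α β (Θ x) = Θ (pr (κ α) (κ β) x))
    (h3 : ∀ (a b : List (Fin 4)) (α β : ℕ) (ε : ℝ), |ε| ≤ 1 →
      ∃ (a' b' : List (Fin 4)) (α' β' : ℕ) (ε' : ℝ), |ε'| ≤ 1 ∧
        ∀ x, ε • Sw a (Tw b (pr α β (Θ x))) = ε' • Sw a' (Tw b' (pr α' β' x)))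
    {w : ℕ} {φ : Fn} (h : W w φ) : W w (φ ∘ₗ Θ) := by
  induction h with
  | leaf a c hc =>
    obtain ⟨a', c', h4, h5⟩ := h1 a c hc
    convert W.leaf a' c' h4 using 1
    ext1 x
    rw [LinearMap.comp_apply, leaf_apply, leaf_apply, h5]
  | node j R α β w φ hR hA hφ hsp ih =>
    convert W.node j R (fun r => κ (α r)) (fun r => κ (β r)) w (fun r => φ r ∘ₗ Θ) hR
      (fun r hr s hs hrs => hκ (hA r hr s hs hrs)) ih (fun hj => ?_) using 1
    · ext1 x
      rw [LinearMap.comp_apply, node_apply, node_apply]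
      simp only [h2, LinearMap.comp_apply]
    · obtain ⟨g, u, a, b, α₀, β₀, ε, hε, H⟩ := hsp hj
      obtain ⟨a', b', α', β', ε', hε', H'⟩ := h3 a b α₀ β₀ ε hε
      refine ⟨g, u, a', b', α', β', ε', hε', fun r hr => ⟨(H r hr).1, fun x => ?_⟩⟩
      have h4 := (H r hr).2 (Θ x)
      simp only [LinearMap.comp_apply] at h4 ⊢
      rw [← h2, h4, ← smul_eq_mul, ← map_smul, H', map_smul, smul_eq_mul]

lemma W.comp_pr {w : ℕ} {φ : Fn} (h : W w φ) (α β : ℕ) : W w (φ ∘ₗ pr α β) := by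
  refine W.comp id monotone_id (fun a c hc => ?_) (fun α' β' x => ?_)
    (fun a b α' β' ε hε => ⟨a, b, _, _, ε, hε, fun x => by rw [pr_pr]⟩) h
  · by_cases ha : α ≤ a ∧ a < β
    · exact ⟨a, c, hc, fun x => by rw [pr_apply, if_pos ha]⟩
    · exact ⟨a, 0, by simp, fun x => by rw [pr_apply, if_neg ha]; simp⟩
  · simp only [id, pr_pr, max_comm α, min_comm β]

lemma W.comp_tl {w : ℕ} {φ : Fn} (h : W w φ) (N : ℕ) : W w (φ ∘ₗ tl N) := by
  refine W.comp id monotone_id (fun a c hc => ?_) (fun α' β' x => ?_)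
    (fun a b α' β' ε hε => ⟨a, b, _, _, ε, hε, fun x => by rw [pr_tl]⟩) h
  · by_cases ha : N ≤ a
    · exact ⟨a, c, hc, fun x => by rw [tl_apply, if_pos ha]⟩
    · exact ⟨a, 0, by simp, fun x => by rw [tl_apply, if_neg ha]; simp⟩
  · funext a
    simp only [id, pr_apply, tl_apply]
    split_ifs <;> rfl

lemma W.neg {w : ℕ} {φ : Fn} (h : W w φ) : W w (-φ) := by
  have := W.comp (Θ := -LinearMap.id) id monotone_id
    (fun a c hc => ⟨a, -c, by simpa using hc, fun x => by simp⟩) (fun α' β' x => by simp)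
    (fun a b α' β' ε hε => ⟨a, b, α', β', -ε, by simpa using hε, fun x => by simp⟩) h
  simpa using this

lemma W.comp_Tr {w : ℕ} {φ : Fn} (h : W w φ) (i : Fin 4) : W w (φ ∘ₗ Tr i) :=
  W.comp (fun t => 4 * t + 1) (fun _ _ h => by simp only; omega)
    (fun a c hc => ⟨4 * a + i + 1, c, hc, fun _ => rfl⟩) (fun α β x => pr_Tr α β i x)
    (fun a b α β ε hε => ⟨a, i :: b, _, _, ε, hε, fun x => by rw [pr_Tr, Tw_cons]⟩) h

lemma W.comp_Sr {w : ℕ} {φ : Fn} (h : W w φ) (i : Fin 4) : W w (φ ∘ₗ Sr i) := by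
  refine W.comp (fun t => (t + 2 - i) / 4) (fun _ _ h => by simp only; omega)
    (fun a c hc => ?_) (fun α β x => pr_Sr α β i x) (fun a b α β ε hε => ?_) h
  · by_cases ha : 0 < a ∧ (a - 1) % 4 = i
    · exact ⟨(a - 1) / 4, c, hc, fun x => by rw [Sr_apply, if_pos ha]⟩
    · exact ⟨a, 0, by simp, fun x => by rw [Sr_apply, if_neg ha]; simp⟩
  · cases b with
    | nil => exact ⟨a ++ [i], [], _, _, ε, hε, fun x => by rw [pr_Sr, Sw_snoc]; rfl⟩
    | cons k b =>
      by_cases hk : k = i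
      · exact ⟨a, b, _, _, ε, hε, fun x => by rw [pr_Sr, Tw_cons, Tr_Sr, if_pos hk]⟩
      · exact ⟨a, b, 0, 0, ε, hε, fun x => by
          rw [pr_Sr, Tw_cons, Tr_Sr, if_neg hk, pr_zero]⟩

lemma W.comp_Sw {w : ℕ} (a : List (Fin 4)) : ∀ {φ : Fn}, W w φ → W w (φ ∘ₗ Sw a) := by
  induction a with
  | nil => intro φ h; exact h
  | cons i a ih => intro φ h; exact ih (h.comp_Sr i)

lemma W.comp_Tw {w : ℕ} (b : List (Fin 4)) : ∀ {φ : Fn}, W w φ → W w (φ ∘ₗ Tw b) := by
  induction b with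
  | nil => intro φ h; exact h
  | cons i b ih => intro φ h; exact (ih h).comp_Tr i

lemma span_comp_pr {φ : Fn}
    (h : φ ∈ Submodule.span ℚ (Set.range fun a => (LinearMap.proj a : Fn))) (α β : ℕ) :
    φ ∘ₗ pr α β ∈ Submodule.span ℚ (Set.range fun a => (LinearMap.proj a : Fn)) := by
  induction h using Submodule.span_induction with
  | mem φ hφ =>
    obtain ⟨a, rfl⟩ := hφ
    by_cases ha : α ≤ a ∧ a < β
    · refine Submodule.subset_span ⟨a, ?_⟩
      ext1 x
      simp [pr_apply, ha]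
    · convert Submodule.zero_mem _
      ext1 x
      simp [pr_apply, ha]
  | zero => simp
  | add φ ψ _ _ h1 h2 => rw [LinearMap.add_comp]; exact Submodule.add_mem _ h1 h2
  | smul c φ _ h1 => rw [LinearMap.smul_comp]; exact Submodule.smul_mem _ c h1

lemma W.span {w : ℕ} {φ : Fn} (h : W w φ) :
    φ ∈ Submodule.span ℚ (Set.range fun a => (LinearMap.proj a : Fn)) := by
  induction h with
  | leaf a c hc => exact Submodule.smul_mem _ c (Submodule.subset_span ⟨a, rfl⟩)
  | node j R α β w φ hR hA hφ hsp ih =>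
    have h1 := Submodule.smul_mem _ ((m j : ℚ)⁻¹)
      (Submodule.sum_mem _ fun r (hr : r ∈ R) => span_comp_pr (ih r hr) (α r) (β r))
    convert h1 using 1
    ext1 x
    simp [Rat.smul_def]

lemma W.rat {w : ℕ} {φ : Fn} (h : W w φ) : ∃ g, ev g = φ := by
  have := h.span
  rwa [← Finsupp.range_linearCombination] at this

lemma W.cont {w : ℕ} {φ : Fn} (h : W w φ) : Continuous φ := by
  have := h.span
  clear h
  induction this using Submodule.span_induction with
  | mem φ hφ => obtain ⟨a, rfl⟩ := hφ; exact continuous_apply a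
  | zero => exact continuous_const
  | add φ ψ _ _ h1 h2 => exact h1.add h2
  | smul c φ _ h1 => exact h1.const_smul c

lemma W.single_le {w : ℕ} {φ : Fn} (h : W w φ) :
    ∀ (a : ℕ) (x : V), (∀ b, b ≠ a → x b = 0) →
      |φ x| ≤ |x a| / (if w = 0 then (1 : ℝ) else (m (w - 1) : ℝ)) := by
  induction h with
  | leaf b c hc =>
    intro a x hx
    rw [leaf_apply]
    by_cases hba : b = a
    · subst hba
      have : |(c : ℝ)| ≤ 1 := by exact_mod_cast hc
      simp only [if_true, div_one, abs_mul]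
      exact mul_le_of_le_one_left (abs_nonneg _) this
    · simp [hx b hba]
  | node j R α β w φ hR hA hφ hsp ih =>
    intro a x hx
    simp only [Nat.add_eq_zero_iff, one_ne_zero, and_false, if_false, Nat.add_sub_cancel]
    rw [node_apply, abs_div, abs_of_pos (mR_pos j)]
    refine div_le_div_of_nonneg_right ((abs_sum_le_sum_abs _ _).trans ?_) (mR_pos j).le
    have hle : ∀ r ∈ R, |φ r (pr (α r) (β r) x)| ≤ |x a| := by
      intro r hr
      refine le_trans (ih r hr a _ fun b hb => by simp [pr_apply, hx b hb]) ?_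
      refine le_trans (div_le_self (abs_nonneg _) (one_le_wt _)) ?_
      rw [pr_apply]; split_ifs <;> simp
    have hz : ∀ r, ¬ (α r ≤ a ∧ a < β r) → |φ r (pr (α r) (β r) x)| ≤ 0 := by
      intro r hr
      have : pr (α r) (β r) x = 0 := by
        funext b
        by_cases hb : b = a
        · subst hb; rw [pr_apply, if_neg hr]; rfl
        · simp [pr_apply, hx b hb]
      simp [this]
    by_cases hex : ∃ r ∈ R, α r ≤ a ∧ a < β r
    · obtain ⟨r₀, hr₀, ha⟩ := hex
      have := sum_le_one_exc R (fun r => |φ r (pr (α r) (β r) x)|) r₀ (abs_nonneg (x a)) le_rfl hle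
        (fun r hr hne => hz r fun hmem => by
          rcases lt_or_gt_of_ne hne with h | h
          · have := hA r hr r₀ hr₀ h; omega
          · have := hA r₀ hr₀ r hr h; omega)
      simpa using this
    · push Not at hex
      exact le_trans (sum_nonpos fun r hr => hz r fun h => absurd (hex r hr h.1) (not_le.2 h.2))
        (abs_nonneg _)

lemma K.single_le {φ : Fn} (h : K φ) (a : ℕ) (x : V) (hx : ∀ b, b ≠ a → x b = 0) :
    |φ x| ≤ |x a| := by
  obtain ⟨w, h⟩ := h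
  exact le_trans (h.single_le a x hx) (div_le_self (abs_nonneg _) (one_le_wt _))

lemma K.le_l1 {φ : Fn} (h : K φ) (x : V) (F : Finset ℕ) (hx : ∀ a, a ∉ F → x a = 0) :
    |φ x| ≤ ∑ a ∈ F, |x a| := by
  conv_lhs => rw [FP.eq_sum_single x F hx, map_sum]
  refine (abs_sum_le_sum_abs _ _).trans (sum_le_sum fun a _ => ?_)
  simpa using h.single_le a (Pi.single a (x a)) fun b hb => by simp [hb]

lemma W.le_l1 {i : ℕ} {φ : Fn} (h : W (i + 1) φ) (x : V) (F : Finset ℕ)
    (hx : ∀ a, a ∉ F → x a = 0) : |φ x| ≤ (∑ a ∈ F, |x a|) / m i := by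
  conv_lhs => rw [FP.eq_sum_single x F hx, map_sum]
  rw [sum_div]
  refine (abs_sum_le_sum_abs _ _).trans (sum_le_sum fun a _ => ?_)
  simpa using h.single_le a (Pi.single a (x a)) fun b hb => by simp [hb]

lemma K_proj (a : ℕ) : K (LinearMap.proj a) := by
  have := (W.leaf a 1 (by simp)).K
  rwa [one_smul] at this

/-- support bounds -/
def Lo (c : ℕ) (x : V) : Prop := ∀ a, x a ≠ 0 → c ≤ a

def Hi (d : ℕ) (x : V) : Prop := ∀ a, x a ≠ 0 → a < d

lemma Lo.mono {c c' : ℕ} {x : V} (h : Lo c x) (h' : c' ≤ c) : Lo c' x :=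
  fun a ha => h'.trans (h a ha)

lemma Hi.mono {d d' : ℕ} {x : V} (h : Hi d x) (h' : d ≤ d') : Hi d' x :=
  fun a ha => (h a ha).trans_le h'

lemma Lo.Sr {c : ℕ} {x : V} (h : Lo c x) (i : Fin 4) : Lo (c + 1) (Sr i x) := by
  intro a ha
  rw [Sr_apply] at ha
  split_ifs at ha with h1
  · have := h _ ha; omega
  · exact absurd rfl ha

lemma Hi.Sr {d : ℕ} {x : V} (h : Hi d x) (i : Fin 4) : Hi (4 * d + 1) (Sr i x) := by
  intro a ha
  rw [Sr_apply] at ha
  split_ifs at ha with h1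
  · have := h _ ha; omega
  · exact absurd rfl ha

lemma Lo.Tr {c : ℕ} {x : V} (h : Lo (4 * c + 4) x) (i : Fin 4) : Lo c (Tr i x) := by
  intro a ha
  rw [Tr_apply] at ha
  have := h _ ha
  have := i.isLt
  omega

lemma Hi.Tr {d : ℕ} {x : V} (h : Hi (d + 1) x) (i : Fin 4) : Hi d (Tr i x) := by
  intro a ha
  rw [Tr_apply] at ha
  have := h _ ha
  omega

lemma Lo.Sw {c : ℕ} {x : V} (h : Lo c x) (a : List (Fin 4)) : Lo (c + a.length) (Sw a x) := by
  induction a with
  | nil => exact h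
  | cons i a ih => exact ih.Sr i

lemma Hi.Tw {d : ℕ} (b : List (Fin 4)) : ∀ {x : V}, Hi (d + b.length) x → Hi d (Tw b x) := by
  induction b with
  | nil => intro x h; exact h
  | cons i b ih => intro x h; exact ih (Hi.Tr h i)

lemma exists_Lo (M c : ℕ) : ∃ c', c ≤ c' ∧ ∀ b : List (Fin 4), b.length ≤ M → ∀ x, Lo c' x →
    Lo c (Tw b x) := by
  induction M with
  | zero =>
    refine ⟨c, le_rfl, fun b hb x hx => ?_⟩
    rw [List.length_eq_zero_iff.1 (Nat.le_zero.1 hb)]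
    exact hx
  | succ M ih =>
    obtain ⟨c', h1, h2⟩ := ih
    refine ⟨4 * c' + 4, by omega, fun b hb x hx => ?_⟩
    cases b with
    | nil => exact hx.mono (by omega)
    | cons i b => exact h2 b (by simpa using hb) _ (hx.Tr i)

lemma exists_Hi (M d : ℕ) : ∃ d', d ≤ d' ∧ ∀ a : List (Fin 4), a.length ≤ M → ∀ x, Hi d x →
    Hi d' (Sw a x) := by
  induction M with
  | zero =>
    refine ⟨d, le_rfl, fun b hb x hx => ?_⟩
    rw [List.length_eq_zero_iff.1 (Nat.le_zero.1 hb)]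
    exact hx
  | succ M ih =>
    obtain ⟨d', h1, h2⟩ := ih
    refine ⟨4 * d' + 1, by omega, fun a ha x hx => ?_⟩
    cases a with
    | nil => exact hx.mono (by omega)
    | cons i a => exact (h2 a (by simpa using ha) x hx).Sr i

lemma pr_eq_self {α β : ℕ} {x : V} (h1 : Lo α x) (h2 : Hi β x) : pr α β x = x := by
  funext a
  rw [pr_apply]
  split_ifs with h
  · rfl
  · by_contra hne
    exact h ⟨h1 a (Ne.symm hne), h2 a (Ne.symm hne)⟩

lemma pr_eq_zero {α β : ℕ} {x : V} (h : ∀ a, x a ≠ 0 → a < α ∨ β ≤ a) : pr α β x = 0 := by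
  funext a
  rw [pr_apply]
  split_ifs with h1
  · by_contra hne
    have := h a hne
    omega
  · rfl

lemma Lo_pr (α β : ℕ) (x : V) : Lo α (pr α β x) := fun a ha => by
  rw [pr_apply] at ha
  split_ifs at ha with h
  · exact h.1
  · exact absurd rfl ha

lemma Hi_pr (α β : ℕ) (x : V) : Hi β (pr α β x) := fun a ha => by
  rw [pr_apply] at ha
  split_ifs at ha with h
  · exact h.2
  · exact absurd rfl ha

lemma of_pr_ne {α β : ℕ} {x : V} {a : ℕ} (h : pr α β x a ≠ 0) : x a ≠ 0 := by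
  rw [pr_apply] at h
  split_ifs at h
  · exact h
  · exact absurd rfl h

end Pool.Agent.H145Z.PF
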