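import Pool.Agent.H145Z.PF.A

set_option autoImplicit false

open Finset

noncomputable section

namespace Pool.Agent.H145Z.PF

open Pool.Agent.H145Z.FP (m n nu mR_pos two_le_mR sum_le_one_exc one_le_wt nR_pos mR_mono mR_succ
  one_le_nu n_le_nu pow_le_n m_le_n lt_n sq_le_m m_mono two_le_m n_eq lt_m)

/-- successive supports -/
def Succ (B : Finset ℕ) (x : ℕ → V) : Prop :=
  ∀ k ∈ B, ∀ l ∈ B, k < l → ∀ a b, x k a ≠ 0 → x l b ≠ 0 → a < b

lemma Succ.subset {B B' : Finset ℕ} {x : ℕ → V} (h : Succ B x) (hB : B' ⊆ B) : Succ B' x :=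
  fun k hk l hl => h k (hB hk) l (hB hl)

open Classical in
lemma count_le {B : Finset ℕ} {x : ℕ → V} (hB : Succ B x) (A : ℕ → Finset ℕ) (R : Finset ℕ)
    (hA : ∀ r ∈ R, ∀ s ∈ R, r < s → ∀ a ∈ A r, ∀ b ∈ A s, a < b) :
    ∑ r ∈ R, (B.filter fun k => ∃ a, x k a ≠ 0 ∧ a ∈ A r).card ≤ B.card + R.card := by
  have key : ∑ r ∈ R, (B.filter fun k => ∃ a, x k a ≠ 0 ∧ a ∈ A r).card ≤
      (R.biUnion fun r => B.filter fun k => ∃ a, x k a ≠ 0 ∧ a ∈ A r).card + R.card := by
    induction R using Finset.induction_on_max with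
    | empty => simp
    | insert t R ht ih =>
      have htR : t ∉ R := fun h => lt_irrefl _ (ht t h)
      have ih' := ih fun r hr s hs => hA r (mem_insert_of_mem hr) s (mem_insert_of_mem hs)
      rw [sum_insert htR, biUnion_insert, card_insert_of_notMem htR]
      have h1 := card_union_add_card_inter (B.filter fun k => ∃ a, x k a ≠ 0 ∧ a ∈ A t)
        (R.biUnion fun r => B.filter fun k => ∃ a, x k a ≠ 0 ∧ a ∈ A r)
      have h2 : ((B.filter fun k => ∃ a, x k a ≠ 0 ∧ a ∈ A t) ∩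
          (R.biUnion fun r => B.filter fun k => ∃ a, x k a ≠ 0 ∧ a ∈ A r)).card ≤ 1 := by
        rw [card_le_one]
        have aux : ∀ k ∈ ((B.filter fun k => ∃ a, x k a ≠ 0 ∧ a ∈ A t) ∩
            (R.biUnion fun r => B.filter fun k => ∃ a, x k a ≠ 0 ∧ a ∈ A r)),
            ∀ l ∈ ((B.filter fun k => ∃ a, x k a ≠ 0 ∧ a ∈ A t) ∩
            (R.biUnion fun r => B.filter fun k => ∃ a, x k a ≠ 0 ∧ a ∈ A r)), ¬ k < l := by
          intro k hk l hl hkl
          simp only [mem_inter, mem_filter, mem_biUnion] at hk hl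
          obtain ⟨⟨hkB, a, ha, hat⟩, -⟩ := hk
          obtain ⟨-, r, hr, hlB, b, hb, hbr⟩ := hl
          have h3 := hB k hkB l hlB hkl a b ha hb
          have h4 := hA r (mem_insert_of_mem hr) t (mem_insert_self _ _) (ht r hr) _ hbr _ hat
          omega
        intro k hk l hl
        have := aux k hk l hl
        have := aux l hl k hk
        omega
      omega
  refine key.trans (Nat.add_le_add_right (card_le_card ?_) _)
  intro k hk
  simp only [mem_biUnion, mem_filter] at hk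
  obtain ⟨r, -, hk, -⟩ := hk
  exact hk

lemma step {B : Finset ℕ} {x : ℕ → V} (hB : Succ B x) {α β : ℝ} (hα : 0 ≤ α) (hβ : 0 ≤ β)
    (Hb : ∀ φ, K φ → ∀ B' ⊆ B, ∑ k ∈ B', |φ (x k)| ≤ α + β * B'.card)
    {i : ℕ} {ψ : Fn} (hψ : W (i + 1) ψ) :
    ∀ B' ⊆ B, ∑ k ∈ B', |ψ (x k)| ≤ (n i * (α + β) + β * B'.card) / m i := by
  classical
  intro B' hB'
  cases hψ with
  | node j R s t w φ hR hA hφ hsp =>
    have h0 : ∀ k ∈ B', |((m i : ℝ)⁻¹ • ∑ r ∈ R, φ r ∘ₗ pr (s r) (t r)) (x k)| ≤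
        (∑ r ∈ R, |φ r (pr (s r) (t r) (x k))|) / m i := fun k _ => by
      rw [node_apply, abs_div, abs_of_pos (mR_pos i)]
      exact div_le_div_of_nonneg_right (abs_sum_le_sum_abs _ _) (mR_pos _).le
    refine (sum_le_sum h0).trans ?_
    rw [← sum_div]
    refine div_le_div_of_nonneg_right ?_ (mR_pos _).le
    rw [sum_comm]
    have h1 : ∀ r ∈ R, ∑ k ∈ B', |φ r (pr (s r) (t r) (x k))| ≤
        α + β * ((B'.filter fun k => ∃ a, x k a ≠ 0 ∧ a ∈ Ico (s r) (t r)).card : ℝ) := by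
      intro r hr
      refine le_trans ?_ (Hb _ ((hφ r hr).comp_pr (s r) (t r)).K _ ((filter_subset _ _).trans hB'))
      rw [sum_filter]
      refine sum_le_sum fun k _ => ?_
      split_ifs with hk
      · exact le_rfl
      · rw [pr_eq_zero fun a ha => ?_]
        · simp
        · by_contra hcon
          exact hk ⟨a, ha, mem_Ico.2 (by omega)⟩
    refine (sum_le_sum h1).trans ?_
    rw [sum_add_distrib, ← mul_sum, sum_const, nsmul_eq_mul]
    have h2 : (∑ r ∈ R, ((B'.filter fun k => ∃ a, x k a ≠ 0 ∧ a ∈ Ico (s r) (t r)).card : ℝ)) ≤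
        B'.card + R.card := by
      exact_mod_cast count_le (hB.subset hB') (fun r => Ico (s r) (t r)) R
        fun r hr r' hr' hrr a ha b hb => by
          have := hA r hr r' hr' hrr
          have := (mem_Ico.1 ha).2
          have := (mem_Ico.1 hb).1
          omega
    have h3 : (R.card : ℝ) ≤ n i := by exact_mod_cast hR
    nlinarith [mul_le_mul_of_nonneg_left h2 hβ, mul_le_mul_of_nonneg_right h3 hα,
      mul_le_mul_of_nonneg_right h3 hβ]

lemma leaf_sum {B : Finset ℕ} {x : ℕ → V} (hB : Succ B x) {C : ℝ} (hC0 : 0 ≤ C)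
    (hC : ∀ k ∈ B, ∀ φ, K φ → |φ (x k)| ≤ C) {φ : Fn} (hφ : W 0 φ) : ∑ k ∈ B, |φ (x k)| ≤ C := by
  have hK := hφ.K
  cases hφ with
  | leaf a c hc =>
    by_cases hex : ∃ k ∈ B, x k a ≠ 0
    · obtain ⟨k₀, hk₀, ha⟩ := hex
      have := sum_le_one_exc B (fun k => |(c • (LinearMap.proj a : Fn)) (x k)|) k₀ hC0 le_rfl
        (fun k hk => hC k hk _ hK) (fun k hk hne => by
          by_contra hcon
          have h1 : x k a ≠ 0 := fun h => hcon (by simp [h])
          rcases lt_or_gt_of_ne hne with h | h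
          · exact lt_irrefl _ (hB k hk k₀ hk₀ h a a h1 ha)
          · exact lt_irrefl _ (hB k₀ hk₀ k hk h a a ha h1))
      simpa using this
    · push Not at hex
      rw [sum_eq_zero fun k hk => by simp [hex k hk]]
      exact hC0

lemma basic {B : Finset ℕ} {x : ℕ → V} (hB : Succ B x) {C : ℝ} (hC0 : 0 ≤ C)
    (hC : ∀ k ∈ B, ∀ φ, K φ → |φ (x k)| ≤ C) (h : ℕ) {θ : ℝ} (hθ0 : 0 ≤ θ) (hθ1 : θ ≤ 1)
    (H : ∀ i, h ≤ i → ∀ ψ, W (i + 1) ψ → ∀ B' ⊆ B, ∑ k ∈ B', |ψ (x k)| ≤ C + C * θ * B'.card) :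
    ∀ p : ℕ, ∀ φ, K φ → ∀ B' ⊆ B,
      ∑ k ∈ B', |φ (x k)| ≤ C * (2 * nu h) ^ p + C * max ((1 / 2) ^ p) θ * B'.card := by
  have hν : (1 : ℝ) ≤ nu h := by exact_mod_cast one_le_nu h
  intro p
  induction p with
  | zero =>
    intro φ hφ B' hB'
    have h1 : ∑ k ∈ B', |φ (x k)| ≤ C * B'.card := by
      have := sum_le_sum fun k (hk : k ∈ B') => hC k (hB' hk) φ hφ
      rwa [sum_const, nsmul_eq_mul, mul_comm] at this
    have h2 : max ((1 / 2 : ℝ) ^ 0) θ = 1 := by simp [hθ1]
    rw [h2]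
    simp only [pow_zero, mul_one]
    linarith
  | succ p ih =>
    intro φ hφ B' hB'
    have hp1 : (1 : ℝ) ≤ (2 * nu h) ^ p := one_le_pow₀ (by linarith)
    have hp2 : (1 : ℝ) ≤ (2 * nu h) ^ (p + 1) := one_le_pow₀ (by linarith)
    have hm0 : 0 ≤ max ((1 / 2 : ℝ) ^ (p + 1)) θ := le_max_of_le_right hθ0
    have hcard : (0 : ℝ) ≤ B'.card := Nat.cast_nonneg _
    obtain ⟨w, hw⟩ := hφ
    cases w with
    | zero =>
      have := leaf_sum (hB.subset hB') hC0 (fun k hk => hC k (hB' hk)) hw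
      nlinarith [mul_nonneg (mul_nonneg hC0 hm0) hcard]
    | succ i =>
      by_cases hi : h ≤ i
      · refine (H i hi φ hw B' hB').trans ?_
        have : C * θ * B'.card ≤ C * max ((1 / 2) ^ (p + 1)) θ * B'.card :=
          mul_le_mul_of_nonneg_right (mul_le_mul_of_nonneg_left (le_max_right _ _) hC0) hcard
        nlinarith
      · have hm1 : 0 ≤ max ((1 / 2 : ℝ) ^ p) θ := le_max_of_le_right hθ0
        have hm2 : max ((1 / 2 : ℝ) ^ p) θ ≤ 1 :=
          max_le (pow_le_one₀ (by norm_num) (by norm_num)) hθ1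
        have h1 := step hB (α := C * (2 * nu h) ^ p) (β := C * max ((1 / 2) ^ p) θ)
          (by positivity) (by positivity) ih hw B' hB'
        refine h1.trans ?_
        rw [div_le_iff₀ (mR_pos i)]
        have hn : (n i : ℝ) ≤ nu h := by exact_mod_cast n_le_nu (by omega)
        have hm := two_le_mR i
        have h2 : max ((1 / 2 : ℝ) ^ p) θ ≤ 2 * max ((1 / 2) ^ (p + 1)) θ := by
          refine max_le ?_ ?_
          · have := le_max_left ((1 / 2 : ℝ) ^ (p + 1)) θ
            rw [pow_succ] at this ⊢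
            linarith
          · have := le_max_right ((1 / 2 : ℝ) ^ (p + 1)) θ
            linarith
        have h3 : (n i : ℝ) * (C * (2 * nu h) ^ p + C * max ((1 / 2) ^ p) θ) ≤
            C * (2 * nu h) ^ (p + 1) := by
          have h4 : C * max ((1 / 2 : ℝ) ^ p) θ ≤ C * (2 * nu h) ^ p :=
            mul_le_mul_of_nonneg_left (hm2.trans hp1) hC0
          calc (n i : ℝ) * (C * (2 * nu h) ^ p + C * max ((1 / 2) ^ p) θ)
              ≤ nu h * (C * (2 * nu h) ^ p + C * (2 * nu h) ^ p) :=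
                mul_le_mul hn (by linarith) (by positivity) (by positivity)
            _ = C * (2 * nu h) ^ (p + 1) := by ring
        have h5 : C * max ((1 / 2 : ℝ) ^ p) θ * B'.card ≤
            C * (2 * max ((1 / 2) ^ (p + 1)) θ) * B'.card :=
          mul_le_mul_of_nonneg_right (mul_le_mul_of_nonneg_left h2 hC0) hcard
        have h6 : 0 ≤ C * (2 * (nu h : ℝ)) ^ (p + 1) := by positivity
        have h7 : 0 ≤ C * max ((1 / 2 : ℝ) ^ (p + 1)) θ * B'.card := by positivity
        nlinarith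

lemma basic' {B : Finset ℕ} {x : ℕ → V} (hB : Succ B x) {C : ℝ} (hC0 : 0 ≤ C)
    (hC : ∀ k ∈ B, ∀ φ, K φ → |φ (x k)| ≤ C) (h g : ℕ)
    (H : ∀ i, h ≤ i → ∀ ψ, W (i + 1) ψ → ∀ B' ⊆ B, ∑ k ∈ B', |ψ (x k)| ≤ C + C / m g * B'.card) :
    ∀ φ, K φ → ∀ B' ⊆ B,
      ∑ k ∈ B', |φ (x k)| ≤ C * (2 * nu h) ^ (2 ^ g) + C / m g * B'.card := by
  intro φ hφ B' hB'
  have hm := two_le_mR g
  have := basic hB hC0 hC h (θ := 1 / m g) (by positivity)
    (by rw [div_le_one (by linarith)]; linarith)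
    (fun i hi ψ hψ B' hB' => by simpa [div_eq_mul_inv] using H i hi ψ hψ B' hB') (2 ^ g) φ hφ B' hB'
  have h2 : (1 / 2 : ℝ) ^ (2 ^ g) = 1 / m g := by simp [m]
  rw [h2, max_self] at this
  simpa [div_eq_mul_inv] using this

lemma pow_le_nR (j p : ℕ) (hp : p ≤ 2 ^ (j + 1) + 1) :
    (2 * (nu j : ℝ)) ^ p ≤ n j / m (j + 1) := by
  rw [le_div_iff₀ (mR_pos _), mul_comm]
  exact_mod_cast pow_le_n j p hp

/-- the selection property of a finite rapidly increasing family -/
def Sel (B : Finset ℕ) (x : ℕ → V) (j : ℕ) (C : ℝ) : Prop :=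
  ∀ i, j ≤ i → ∃ k₀, ∀ k ∈ B, k ≠ k₀ → ∀ φ, W (i + 1) φ → |φ (x k)| ≤ C / m (min i (j + 1))

lemma Sel.H {B : Finset ℕ} {x : ℕ → V} {j : ℕ} {C : ℝ} (hS : Sel B x j C) (hC0 : 0 ≤ C)
    (hC : ∀ k ∈ B, ∀ φ, K φ → |φ (x k)| ≤ C) (g i : ℕ) (hi : j ≤ i) (hg : g ≤ min i (j + 1))
    (ψ : Fn) (hψ : W (i + 1) ψ) (B' : Finset ℕ) (hB' : B' ⊆ B) :
    ∑ k ∈ B', |ψ (x k)| ≤ C + C / m g * B'.card := by
  obtain ⟨k₀, hk₀⟩ := hS i hi
  refine sum_le_one_exc B' _ k₀ hC0 (div_nonneg hC0 (mR_pos _).le)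
    (fun k hk => hC k (hB' hk) _ hψ.K) fun k hk hne => (hk₀ k (hB' hk) hne ψ hψ).trans ?_
  exact div_le_div_of_nonneg_left hC0 (mR_pos _) (mR_mono hg)

/-- a shorter admissible length of averages -/
def Nn (j : ℕ) : ℕ := m (j + 1) * (2 * nu j) ^ (2 ^ j + 1)

lemma Nn_mul_le (j κ : ℕ) (h : κ ≤ j + 1) : κ * Nn j ≤ n j := by
  have h1 : n j = (2 * nu j) ^ (2 ^ j) * Nn j := by
    rw [n_eq, Nn, pow_succ 2 j]
    ring
  have h2 : m j ≤ (2 * nu j) ^ (2 ^ j) := Nat.pow_le_pow_left (by have := one_le_nu j; omega) _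
  rw [h1]
  exact Nat.mul_le_mul_right _ (h.trans ((lt_m j).trans_le h2))

lemma Nn_le (j : ℕ) : Nn j ≤ n j := by simpa using Nn_mul_le j 1 (by omega)

lemma Nn_pos (j : ℕ) : 0 < Nn j := by
  have := one_le_nu j
  have := two_le_m (j + 1)
  unfold Nn
  positivity

lemma pow_le_NR {j N : ℕ} (hN : Nn j ≤ N) (p : ℕ) (hp : p ≤ 2 ^ j + 1) :
    (2 * (nu j : ℝ)) ^ p ≤ N / m (j + 1) := by
  rw [le_div_iff₀ (mR_pos _), mul_comm]
  have := one_le_nu j
  exact_mod_cast (Nat.mul_le_mul_left _ (Nat.pow_le_pow_right (by omega) hp)).trans hN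

lemma E1 {B : Finset ℕ} {x : ℕ → V} (hB : Succ B x) {C : ℝ} (hC0 : 0 ≤ C)
    (hC : ∀ k ∈ B, ∀ φ, K φ → |φ (x k)| ≤ C) {j : ℕ} (hS : Sel B x j C) {N : ℕ} (hc : B.card ≤ N)
    (hN : Nn j ≤ N) :
    (∀ φ, K φ → ∑ k ∈ B, |φ (x k)| ≤ 2 * C * (N / m j)) ∧
    (∀ i φ, W (i + 1) φ → i ≠ j → ∑ k ∈ B, |φ (x k)| ≤ 2 * C / m (min i j) * (N / m j)) := by
  have hb := basic' hB hC0 hC j j fun i hi ψ hψ B' hB' =>
    hS.H hC0 hC j i hi (by omega) ψ hψ B' hB'
  have hcR : (B.card : ℝ) ≤ N := by exact_mod_cast hc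
  have hmj := mR_pos j
  have hν : (1 : ℝ) ≤ nu j := by exact_mod_cast one_le_nu j
  have hdiv : (N : ℝ) / m (j + 1) ≤ N / m j :=
    div_le_div_of_nonneg_left (Nat.cast_nonneg _) hmj (mR_mono (by omega))
  have hp : 2 ^ j ≤ 2 ^ (j + 1) := Nat.pow_le_pow_right (by norm_num) (by omega)
  have hcd : C / m j * B.card ≤ C * (N / m j) := by
    rw [mul_div_assoc', div_mul_eq_mul_div]
    exact div_le_div_of_nonneg_right (mul_le_mul_of_nonneg_left hcR hC0) hmj.le
  refine ⟨fun φ hφ => ?_, fun i φ hφ hij => ?_⟩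
  · refine (hb φ hφ B subset_rfl).trans ?_
    have h1 := (pow_le_NR hN (2 ^ j) (by omega)).trans hdiv
    nlinarith [mul_le_mul_of_nonneg_left h1 hC0]
  · rcases lt_or_gt_of_ne hij with hlt | hgt
    · rw [min_eq_left hlt.le]
      have h1 := step hB (α := C * (2 * nu j) ^ (2 ^ j)) (β := C / m j) (by positivity)
        (by positivity) hb hφ B subset_rfl
      refine h1.trans ?_
      rw [div_mul_eq_mul_div (2 * C)]
      refine div_le_div_of_nonneg_right ?_ (mR_pos i).le
      have hn : (n i : ℝ) ≤ nu j := by exact_mod_cast n_le_nu hlt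
      have h2 := (pow_le_NR hN (2 ^ j + 1) le_rfl).trans hdiv
      have h3 : (1 : ℝ) ≤ (2 * nu j) ^ (2 ^ j) := one_le_pow₀ (by linarith)
      have h4 : C / m j ≤ C * (2 * nu j) ^ (2 ^ j) := by
        refine (div_le_self hC0 (by linarith [two_le_mR j])).trans ?_
        nlinarith
      have h5 : (n i : ℝ) * (C * (2 * nu j) ^ (2 ^ j) + C / m j) ≤
          C * (2 * nu j) ^ (2 ^ j + 1) := by
        calc (n i : ℝ) * (C * (2 * nu j) ^ (2 ^ j) + C / m j)
            ≤ nu j * (C * (2 * nu j) ^ (2 ^ j) + C * (2 * nu j) ^ (2 ^ j)) :=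
              mul_le_mul hn (by linarith) (by positivity) (by positivity)
          _ = C * (2 * nu j) ^ (2 ^ j + 1) := by ring
      nlinarith [mul_le_mul_of_nonneg_left h2 hC0]
    · rw [min_eq_right hgt.le]
      refine (hS.H hC0 hC (j + 1) i hgt.le (by omega) φ hφ B subset_rfl).trans ?_
      have h1 : (m (j + 1) : ℝ) ≤ N := by
        have := pow_le_NR hN 0 (by omega)
        rwa [pow_zero, one_le_div (mR_pos _)] at this
      have h2 : 2 * C / m j * (N / m j) = 2 * (C * (N / m (j + 1))) := by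
        rw [mR_succ]; field_simp
      have h3 : C / m (j + 1) * B.card ≤ C * (N / m (j + 1)) := by
        rw [mul_div_assoc', div_mul_eq_mul_div]
        exact div_le_div_of_nonneg_right (mul_le_mul_of_nonneg_left hcR hC0) (mR_pos _).le
      have h4 : (1 : ℝ) ≤ N / m (j + 1) := by rwa [one_le_div (mR_pos _)]
      rw [h2]
      nlinarith

lemma sum_le_exc {ι : Type*} (s E : Finset ι) (f : ι → ℝ) {C β : ℝ} (hC : 0 ≤ C)
    (hβ : 0 ≤ β) (h1 : ∀ k ∈ s, f k ≤ C) (h2 : ∀ k ∈ s, k ∉ E → f k ≤ β) :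
    ∑ k ∈ s, f k ≤ C * E.card + β * s.card := by
  classical
  have : ∀ k ∈ s, f k ≤ (if k ∈ E then C else 0) + β := by
    intro k hk
    split_ifs with h
    · linarith [h1 k hk]
    · linarith [h2 k hk h]
  refine (sum_le_sum this).trans ?_
  rw [sum_add_distrib, sum_const, nsmul_eq_mul, ← sum_filter, sum_const, nsmul_eq_mul]
  have h3 : ((s.filter fun k => k ∈ E).card : ℝ) ≤ E.card := by
    exact_mod_cast card_le_card fun k hk => (mem_filter.1 hk).2
  nlinarith

lemma exists_blk {c : ℕ → ℕ} (hc : StrictMono c) (t : ℕ) :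
    ∃ q₀, ∀ q, q ≠ q₀ → t < c q ∨ c (q + 1) ≤ t := by
  by_cases h : ∃ q, c q ≤ t ∧ t < c (q + 1)
  · obtain ⟨q₀, h1, h2⟩ := h
    refine ⟨q₀, fun q hq => ?_⟩
    rcases lt_or_gt_of_ne hq with h3 | h3
    · exact Or.inr ((hc.monotone h3).trans h1)
    · exact Or.inl (h2.trans_le (hc.monotone h3))
  · push Not at h
    exact ⟨0, fun q _ => (lt_or_ge t (c q)).imp id (h q)⟩

lemma low {j : ℕ} (hj : j % 2 = 0) {B : Finset ℕ} (hB : B.card ≤ n j) (α β : ℕ → ℕ)
    (hA : ∀ r ∈ B, ∀ s ∈ B, r < s → β r ≤ α s) (φ : ℕ → Fn) (hφ : ∀ k ∈ B, K (φ k)) :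
    W (j + 1) ((m j : ℝ)⁻¹ • ∑ r ∈ B, φ r ∘ₗ pr (α r) (β r)) := by
  choose! w hw using hφ
  exact W.node j B α β w φ hB hA hw fun h => by omega

lemma pr_sum_eq (B : Finset ℕ) (v : ℕ → V) (α β : ℕ → ℕ)
    (hA : ∀ r ∈ B, ∀ s ∈ B, r < s → β r ≤ α s)
    (hv : ∀ k ∈ B, Lo (α k) (v k) ∧ Hi (β k) (v k))
    (k : ℕ) (hk : k ∈ B) : pr (α k) (β k) (∑ l ∈ B, v l) = v k := by
  rw [map_sum, sum_eq_single k (fun l hl hne => pr_eq_zero fun a ha => ?_) fun h => absurd hk h]
  · exact pr_eq_self (hv k hk).1 (hv k hk).2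
  · have h1 := (hv l hl).1 a ha
    have h2 := (hv l hl).2 a ha
    rcases lt_or_gt_of_ne hne with h | h
    · have := hA l hl k hk h; omega
    · have := hA k hk l hl h; omega

lemma special {h : ℕ} (hh : h % 2 = 1) (z : ℕ → V) (g : ℕ → ℕ →₀ ℚ) (u : ℕ → ℕ) {c : ℕ → ℕ}
    (hc : StrictMono c) {B : Finset ℕ} (hcard : B.card ≤ n h)
    (hz : ∀ r, Lo (c r) (z r) ∧ Hi (c (r + 1)) (z r))
    (hg : ∀ r x, Lo (c (r + 1)) x → ev (g r) x = 0) {C : ℝ} (hC0 : 0 ≤ C)
    (h1 : ∀ r, ∀ φ, K φ → |φ (z r)| ≤ C)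
    (h2 : ∀ r, ∀ i φ, W (i + 1) φ → i ≠ code h g u r → |φ (z r)| ≤ C / m (min i (code h g u r)))
    (h3 : ∀ r (a b : List (Fin 4)), a.length ≤ c r → b.length ≤ c r →
      |ev (g r) (Sw a (Tw b (z r)))| ≤ C / (n h * n h)) :
    ∀ φ, K φ → ∑ r ∈ B, |φ (z r)| ≤ 6 * C * (n h / m (h + 1)) := by
  classical
  have hB : Succ B z := fun k _ l _ hkl a b ha hb =>
    ((hz k).2 a ha).trans_le ((hc.monotone hkl).trans ((hz l).1 b hb))
  have hb := basic' hB (C := 3 * C) (by linarith)
    (fun r _ φ hφ => (h1 r φ hφ).trans (by linarith)) h (h + 1) fun i hi ψ hψ B' hB' => by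
    have hnn : 0 ≤ 3 * C / m (h + 1) * B'.card := by
      have := mR_pos (h + 1)
      positivity
    rcases eq_or_lt_of_le hi with rfl | hlt
    · cases hψ with
      | node j' R s t w φ hR hA hφ hsp =>
        obtain ⟨g', u', a, b, α, β, ε, hε, H⟩ := hsp hh
        have h0 : ∀ k ∈ B', |((m h : ℝ)⁻¹ • ∑ r ∈ R, φ r ∘ₗ pr (s r) (t r)) (z k)| ≤
            (∑ r ∈ R, |φ r (pr (s r) (t r) (z k))|) / m h := fun k _ => by
          rw [node_apply, abs_div, abs_of_pos (mR_pos h)]
          exact div_le_div_of_nonneg_right (abs_sum_le_sum_abs _ _) (mR_pos _).le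
        refine (sum_le_sum h0).trans ?_
        rw [← sum_div, ← sum_product']
        set r₀ : ℕ := if hex : ∃ r, g' r ≠ g r then Nat.find hex else 0 with hr₀
        obtain ⟨q₁, hq₁⟩ := exists_blk hc α
        obtain ⟨q₂, hq₂⟩ := exists_blk hc β
        obtain ⟨q₃, hq₃⟩ := exists_blk hc (max a.length b.length)
        have hn := nR_pos h
        have hs := sum_le_exc (B' ×ˢ R) {(r₀, r₀), (q₁, q₁), (q₂, q₂), (q₃, q₃)}
          (fun p : ℕ × ℕ => |φ p.2 (pr (s p.2) (t p.2) (z p.1))|)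
          hC0 (β := C / (n h * n h)) (by positivity)
          (fun p hp => h1 _ _ ((hφ _ (mem_product.1 hp).2).comp_pr _ _).K)
          (fun p hp hne => by
            obtain ⟨r, q⟩ := p
            rw [mem_product] at hp
            obtain ⟨hr, hq⟩ := hp
            have hw : W (code h g' u' q + 1) (φ q ∘ₗ pr (s q) (t q)) := by
              rw [← (H q hq).1]; exact (hφ q hq).comp_pr _ _
            by_cases hcode : code h g' u' q = code h g u r
            · obtain ⟨rfl, hag⟩ := code_inj hcode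
              simp only [mem_insert, mem_singleton, Prod.mk.injEq, and_self, not_or] at hne
              obtain ⟨e0, e1, e2, e3⟩ := hne
              have hgg : g' q = g q := by
                by_contra hgg
                apply e0
                have hex : ∃ r, g' r ≠ g r := ⟨q, hgg⟩
                rw [hr₀, dif_pos hex, eq_comm, Nat.find_eq_iff]
                exact ⟨hgg, fun s hs => not_not.2 (hag s hs)⟩
              have h4 := (H q hq).2 (z q)
              rw [LinearMap.comp_apply, hgg] at h4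
              have h5 : pr α β (z q) = z q ∨ pr α β (z q) = 0 := by
                rcases hq₁ q e1 with h6 | h6
                · rcases hq₂ q e2 with h7 | h7
                  · exact Or.inr (pr_eq_zero fun a' ha' => Or.inr (h7.le.trans ((hz q).1 a' ha')))
                  · exact Or.inl (pr_eq_self ((hz q).1.mono h6.le) ((hz q).2.mono h7))
                · exact Or.inr (pr_eq_zero fun a' ha' => Or.inl (((hz q).2 a' ha').trans_le h6))
              show |φ q (pr (s q) (t q) (z q))| ≤ _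
              rw [h4, abs_mul]
              refine (mul_le_of_le_one_left (abs_nonneg _) hε).trans ?_
              rcases h5 with h5 | h5
              · rw [h5]
                rcases hq₃ q e3 with h6 | h6
                · exact h3 q a b (by omega) (by omega)
                · rw [hg q]
                  · simp only [abs_zero]; positivity
                  · rcases le_max_iff.1 h6 with h7 | h7
                    · exact (Lo.Sw (c := 0) (fun _ _ => Nat.zero_le _) a).mono (by omega)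
                    · have h8 : Tw b (z q) = 0 := by
                        funext a'
                        by_contra hne
                        exact absurd (Hi.Tw (d := 0) b ((hz q).2.mono (by omega)) a' hne)
                          (Nat.not_lt_zero _)
                      rw [h8, map_zero]
                      exact fun _ h => absurd rfl h
              · rw [h5]
                simp only [map_zero, abs_zero]
                positivity
            · refine (h2 r _ _ hw hcode).trans ?_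
              refine div_le_div_of_nonneg_left hC0 (by positivity) ?_
              have h5 : n h * n h ≤ m (min (code h g' u' q) (code h g u r)) :=
                (sq_le_m _).trans (m_mono (le_min (le_code _ _ _ _) (le_code _ _ _ _)))
              exact_mod_cast h5)
        have hcard' : ((B' ×ˢ R).card : ℝ) ≤ n h * n h := by
          rw [card_product]
          exact_mod_cast Nat.mul_le_mul ((card_le_card hB').trans hcard) hR
        have h6 : C / (n h * n h) * ((B' ×ˢ R).card : ℝ) ≤ C := by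
          rw [div_mul_eq_mul_div, div_le_iff₀ (by positivity)]
          exact mul_le_mul_of_nonneg_left hcard' hC0
        have h7 : (({(r₀, r₀), (q₁, q₁), (q₂, q₂), (q₃, q₃)} : Finset (ℕ × ℕ)).card : ℝ) ≤ 4 := by
          exact_mod_cast card_le_four
        have h8 := mul_le_mul_of_nonneg_left h7 hC0
        rw [div_le_iff₀ (mR_pos h)]
        nlinarith [two_le_mR h]
    · set r₁ : ℕ := if hex : ∃ r, code h g u r = i then hex.choose else 0 with hr₁
      have hs := sum_le_one_exc B' (fun r => |ψ (z r)|) r₁ hC0 (β := C / m (h + 1))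
        (div_nonneg hC0 (mR_pos _).le) (fun r _ => h1 r _ hψ.K)
        (fun r _ hne => by
          have hcode : i ≠ code h g u r := by
            intro hcon
            apply hne
            have hex : ∃ r, code h g u r = i := ⟨r, hcon.symm⟩
            rw [hr₁, dif_pos hex]
            exact (code_inj (hcon.symm.trans hex.choose_spec.symm)).1
          refine (h2 r _ _ hψ hcode).trans ?_
          refine div_le_div_of_nonneg_left hC0 (mR_pos _) (mR_mono (le_min hlt ?_))
          exact (lt_n h).le.trans (le_code _ _ _ _))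
      have : C / m (h + 1) * B'.card * 3 = 3 * C / m (h + 1) * B'.card := by ring
      linarith
  intro φ hφ
  have hcR : (B.card : ℝ) ≤ n h := by exact_mod_cast hcard
  refine (hb φ hφ B subset_rfl).trans ?_
  have h4 := pow_le_nR h (2 ^ (h + 1)) (by omega)
  have h5 : 3 * C / m (h + 1) * B.card ≤ 3 * C * (n h / m (h + 1)) := by
    rw [mul_div_assoc', div_mul_eq_mul_div]
    exact div_le_div_of_nonneg_right (mul_le_mul_of_nonneg_left hcR (by linarith)) (mR_pos _).le
  nlinarith [mul_le_mul_of_nonneg_left h4 hC0]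

end Pool.Agent.H145Z.PF
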