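import Pool.Agent.H145Z.PF.B

set_option autoImplicit false

open Finset Filter Topology

noncomputable section

namespace Pool.Agent.H145Z.PF

lemma K.comp_tl {φ : Fn} (h : K φ) (N : ℕ) : K (φ ∘ₗ tl N) := h.choose_spec.comp_tl N |>.K

lemma K.comp_pr {φ : Fn} (h : K φ) (α β : ℕ) : K (φ ∘ₗ pr α β) := h.choose_spec.comp_pr α β |>.K

lemma K.neg {φ : Fn} (h : K φ) : K (-φ) := h.choose_spec.neg.K

lemma tl_tl {N N' : ℕ} (h : N ≤ N') (x : V) : tl N' (tl N x) = tl N' x := by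
  funext a
  simp only [tl_apply]
  split_ifs <;> first | rfl | omega

lemma tail_mono {x : V} {N N' : ℕ} {ε : ℝ} (h : ∀ φ, K φ → |φ (tl N x)| ≤ ε) (hN : N ≤ N') :
    ∀ φ, K φ → |φ (tl N' x)| ≤ ε := fun φ hφ => by
  rw [← tl_tl hN]
  exact h _ (hφ.comp_tl N')

def sub : Submodule ℝ V where
  carrier := {x | ∀ ε > 0, ∃ N, ∀ φ, K φ → |φ (tl N x)| ≤ ε}
  add_mem' := by
    intro x y hx hy ε hε
    obtain ⟨N₁, h₁⟩ := hx (ε / 2) (by linarith)
    obtain ⟨N₂, h₂⟩ := hy (ε / 2) (by linarith)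
    refine ⟨max N₁ N₂, fun φ hφ => ?_⟩
    rw [map_add, map_add]
    linarith [abs_add_le (φ (tl (max N₁ N₂) x)) (φ (tl (max N₁ N₂) y)),
      tail_mono h₁ (le_max_left N₁ N₂) φ hφ, tail_mono h₂ (le_max_right N₁ N₂) φ hφ]
  zero_mem' := fun ε hε => ⟨0, fun φ _ => by simpa using hε.le⟩
  smul_mem' := by
    intro c x hx ε hε
    obtain ⟨N, h⟩ := hx (ε / (|c| + 1)) (by positivity)
    refine ⟨N, fun φ hφ => ?_⟩
    rw [map_smul, map_smul, smul_eq_mul, abs_mul]
    have h1 := h φ hφ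
    rw [le_div_iff₀ (by positivity)] at h1
    nlinarith [abs_nonneg (φ (tl N x)), abs_nonneg c]

/-- the Banach space -/
def X : Type := sub

instance : AddCommGroup X := inferInstanceAs (AddCommGroup sub)
instance : Module ℝ X := inferInstanceAs (Module ℝ sub)

def val : X →ₗ[ℝ] V := sub.subtype

def mk (x : V) (hx : x ∈ sub) : X := (⟨x, hx⟩ : sub)

@[simp] lemma val_mk (x : V) (hx : x ∈ sub) : val (mk x hx) = x := rfl

lemma val_mem (x : X) : val x ∈ sub := Subtype.property (p := fun y => y ∈ sub) x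

lemma X.ext' {x y : X} (h : val x = val y) : x = y := Subtype.ext (p := fun y => y ∈ sub) h

lemma X.ext {x y : X} (h : ∀ a, val x a = val y a) : x = y := X.ext' (funext h)

lemma pr_add_tl (N : ℕ) (x : V) : pr 0 N x + tl N x = x := by
  funext a
  simp only [Pi.add_apply, pr_apply, tl_apply]
  split_ifs <;> first | omega | simp

lemma bdd (x : X) : ∃ M, ∀ φ, K φ → |φ (val x)| ≤ M := by
  obtain ⟨N, hN⟩ := val_mem x 1 one_pos
  refine ⟨(∑ a ∈ range N, |pr 0 N (val x) a|) + 1, fun φ hφ => ?_⟩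
  have h2 := hφ.le_l1 (pr 0 N (val x)) (range N) fun a ha => by
    by_contra h
    exact ha (mem_range.2 (Hi_pr _ _ _ a h))
  rw [← pr_add_tl N (val x), map_add φ]
  rw [pr_add_tl]
  linarith [hN φ hφ, abs_add_le (φ (pr 0 N (val x))) (φ (tl N (val x)))]

instance : Norm X := ⟨fun x => sSup {t | ∃ φ, K φ ∧ t = |φ (val x)|}⟩

lemma le_norm {φ : Fn} (hφ : K φ) (x : X) : |φ (val x)| ≤ ‖x‖ := by
  obtain ⟨M, hM⟩ := bdd x
  exact le_csSup ⟨M, by rintro t ⟨ψ, hψ, rfl⟩; exact hM ψ hψ⟩ ⟨φ, hφ, rfl⟩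

lemma norm_le {x : X} {M : ℝ} (h : ∀ φ, K φ → |φ (val x)| ≤ M) : ‖x‖ ≤ M :=
  csSup_le ⟨_, _, K_proj 0, rfl⟩ (by rintro t ⟨ψ, hψ, rfl⟩; exact h ψ hψ)

lemma abs_le_norm (x : X) (a : ℕ) : |val x a| ≤ ‖x‖ := le_norm (K_proj a) x

lemma core : NormedSpace.Core ℝ X where
  norm_nonneg x := (abs_nonneg _).trans (abs_le_norm x 0)
  norm_smul c x := by
    have h0 : ∀ (c : ℝ) (x : X), ‖c • x‖ ≤ |c| * ‖x‖ := fun c x => norm_le fun φ hφ => by
      rw [map_smul, map_smul, smul_eq_mul, abs_mul]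
      exact mul_le_mul_of_nonneg_left (le_norm hφ x) (abs_nonneg c)
    refine le_antisymm (h0 c x) ?_
    by_cases hc : c = 0
    · subst hc
      simpa using (abs_nonneg _).trans (abs_le_norm ((0 : ℝ) • x) 0)
    · have h1 := h0 c⁻¹ (c • x)
      rw [smul_smul, inv_mul_cancel₀ hc, one_smul, abs_inv] at h1
      have h2 : 0 < |c| := abs_pos.2 hc
      rw [Real.norm_eq_abs]
      calc |c| * ‖x‖ ≤ |c| * (|c|⁻¹ * ‖c • x‖) := mul_le_mul_of_nonneg_left h1 h2.le
        _ = ‖c • x‖ := by field_simp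
  norm_triangle x y := norm_le fun φ hφ => by
    rw [map_add, map_add]
    linarith [abs_add_le (φ (val x)) (φ (val y)), le_norm hφ x, le_norm hφ y]
  norm_eq_zero_iff x := by
    constructor
    · intro h
      refine X.ext fun a => ?_
      have := abs_le_norm x a
      rw [h] at this
      simpa using this
    · rintro rfl
      refine le_antisymm (norm_le fun φ hφ => by simp) ?_
      exact (abs_nonneg _).trans (abs_le_norm 0 0)

instance : NormedAddCommGroup X := NormedAddCommGroup.ofCore core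
instance : NormedSpace ℝ X := NormedSpace.ofCore core

lemma exists_lt {x : X} {t : ℝ} (h : t < ‖x‖) : ∃ φ, K φ ∧ t < φ (val x) := by
  by_contra hcon
  push Not at hcon
  refine absurd (norm_le fun φ hφ => abs_le.2 ⟨?_, hcon φ hφ⟩) (not_le.2 h)
  have := hcon _ hφ.neg
  simp only [LinearMap.neg_apply] at this
  linarith

instance : CompleteSpace X := by
  refine Metric.complete_of_cauchySeq_tendsto fun u hu => ?_
  have hc : ∀ a, CauchySeq fun k => val (u k) a := by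
    intro a
    rw [Metric.cauchySeq_iff] at hu ⊢
    intro ε hε
    obtain ⟨N, hN⟩ := hu ε hε
    refine ⟨N, fun k hk l hl => lt_of_le_of_lt ?_ (hN k hk l hl)⟩
    rw [dist_eq_norm, dist_eq_norm]
    simpa using abs_le_norm (u k - u l) a
  choose x hx using fun a => cauchySeq_tendsto_of_complete (hc a)
  have hx' : Tendsto (fun k => val (u k)) atTop (𝓝 x) := tendsto_pi_nhds.2 hx
  have key : ∀ ε > 0, ∃ N, ∀ k ≥ N, ∀ φ, K φ → |φ (val (u k) - x)| ≤ ε := by
    intro ε hε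
    obtain ⟨N, hN⟩ := Metric.cauchySeq_iff.1 hu ε hε
    refine ⟨N, fun k hk φ hφ => ?_⟩
    have h1 : Tendsto (fun l => |φ (val (u k) - val (u l))|) atTop (𝓝 |φ (val (u k) - x)|) :=
      ((hφ.choose_spec.cont.tendsto _).comp (tendsto_const_nhds.sub hx')).abs
    refine le_of_tendsto h1 (eventually_atTop.2 ⟨N, fun l hl => ?_⟩)
    have h2 := hN k hk l hl
    rw [dist_eq_norm] at h2
    have h3 := le_norm hφ (u k - u l)
    rw [map_sub] at h3
    linarith
  have hmem : x ∈ sub := by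
    intro ε hε
    obtain ⟨N, hN⟩ := key (ε / 2) (by linarith)
    obtain ⟨N', hN'⟩ := val_mem (u N) (ε / 2) (by linarith)
    refine ⟨N', fun φ hφ => ?_⟩
    have h1 := hN N le_rfl _ (hφ.comp_tl N')
    have h2 := hN' φ hφ
    rw [LinearMap.comp_apply, map_sub, map_sub] at h1
    rw [abs_le] at h1 h2 ⊢
    constructor <;> linarith [h1.1, h1.2, h2.1, h2.2]
  refine ⟨mk x hmem, Metric.tendsto_atTop.2 fun ε hε => ?_⟩
  obtain ⟨N, hN⟩ := key (ε / 2) (by linarith)
  refine ⟨N, fun k hk => ?_⟩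
  rw [dist_eq_norm]
  refine lt_of_le_of_lt (norm_le fun φ hφ => ?_) (half_lt_self hε)
  rw [map_sub, val_mk]
  exact hN k hk φ hφ

/-- coordinate functionals -/
def coord (a : ℕ) : X →L[ℝ] ℝ :=
  LinearMap.mkContinuous ((LinearMap.proj a).comp val) 1 fun x => by
    simpa using abs_le_norm x a

@[simp] lemma coord_apply (a : ℕ) (x : X) : coord a x = val x a := rfl

lemma mem_of_Hi {x : V} {d : ℕ} (h : Hi d x) : x ∈ sub := by
  intro ε hε
  refine ⟨d, fun φ _ => ?_⟩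
  have : tl d x = 0 := by
    funext b
    rw [tl_apply]
    split_ifs with hb
    · by_contra hne
      exact absurd (h b hne) (not_lt.2 hb)
    · rfl
  simpa [this] using hε.le

/-- basis vectors -/
def e (a : ℕ) : X := mk (fun b => if b = a then (1 : ℝ) else 0) (mem_of_Hi (d := a + 1)
  fun b hb => by by_contra h; exact hb (if_neg (by omega)))

lemma val_e (a b : ℕ) : val (e a) b = if b = a then 1 else 0 := rfl

lemma norm_e (a : ℕ) : ‖e a‖ = 1 := by
  refine le_antisymm (norm_le fun φ hφ => ?_) ?_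
  · simpa [val_e] using hφ.single_le a (val (e a)) fun b hb => by simp [val_e, hb]
  · simpa [val_e] using abs_le_norm (e a) a

/-- maps of sequences which act on the space -/
structure Good (Θ : En) : Prop where
  cl : ∀ w φ, W w φ → W w (φ ∘ₗ Θ)
  tail : ∀ N, ∃ N', ∀ x, tl N' (Θ x) = tl N' (Θ (tl N x))

lemma Good.mem {Θ : En} (h : Good Θ) (x : X) : Θ (val x) ∈ sub := by
  intro ε hε
  obtain ⟨N, hN⟩ := val_mem x ε hε
  obtain ⟨N', hN'⟩ := h.tail N
  refine ⟨N', fun φ hφ => ?_⟩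
  rw [hN']
  exact hN _ (h.cl _ _ (hφ.choose_spec.comp_tl N')).K

def lift (Θ : En) (h : Good Θ) : X →L[ℝ] X :=
  LinearMap.mkContinuous
    { toFun := fun x => mk (Θ (val x)) (h.mem x)
      map_add' := fun x y => X.ext' (by simp)
      map_smul' := fun c x => X.ext' (by simp) } 1
    fun x => norm_le fun φ hφ => by
      simpa using le_norm (h.cl _ _ hφ.choose_spec).K x

lemma val_lift (Θ : En) (h : Good Θ) (x : X) : val (lift Θ h x) = Θ (val x) := rfl

lemma norm_lift (Θ : En) (h : Good Θ) : ‖lift Θ h‖ ≤ 1 :=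
  LinearMap.mkContinuous_norm_le _ zero_le_one _

lemma lift_le (Θ : En) (h : Good Θ) (x : X) : ‖lift Θ h x‖ ≤ ‖x‖ := by
  simpa using (lift Θ h).le_of_opNorm_le (norm_lift Θ h) x

lemma good_pr (α β : ℕ) : Good (pr α β) :=
  ⟨fun _ _ h => h.comp_pr α β, fun N => ⟨N, fun x => by
    funext a; simp only [pr_apply, tl_apply]; split_ifs <;> rfl⟩⟩

lemma good_tl (M : ℕ) : Good (tl M) :=
  ⟨fun _ _ h => h.comp_tl M, fun N => ⟨N, fun x => by
    funext a; simp only [tl_apply]; split_ifs <;> rfl⟩⟩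

lemma good_Sr (i : Fin 4) : Good (Sr i) :=
  ⟨fun _ _ h => h.comp_Sr i, fun N => ⟨4 * N + 1, fun x => by
    funext a; simp only [Sr_apply, tl_apply]; split_ifs <;> first | rfl | omega⟩⟩

lemma good_Tr (i : Fin 4) : Good (Tr i) :=
  ⟨fun _ _ h => h.comp_Tr i, fun N => ⟨N, fun x => by
    funext a; simp only [Tr_apply, tl_apply]; split_ifs <;> first | rfl | omega⟩⟩

def P (α β : ℕ) : X →L[ℝ] X := lift _ (good_pr α β)
def Q (N : ℕ) : X →L[ℝ] X := lift _ (good_tl N)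
def S (i : Fin 4) : X →L[ℝ] X := lift _ (good_Sr i)
def T (i : Fin 4) : X →L[ℝ] X := lift _ (good_Tr i)

lemma val_P (α β : ℕ) (x : X) : val (P α β x) = pr α β (val x) := rfl
lemma val_Q (N : ℕ) (x : X) : val (Q N x) = tl N (val x) := rfl
lemma val_S (i : Fin 4) (x : X) : val (S i x) = Sr i (val x) := rfl
lemma val_T (i : Fin 4) (x : X) : val (T i x) = Tr i (val x) := rfl

lemma norm_P_le (α β : ℕ) (x : X) : ‖P α β x‖ ≤ ‖x‖ := lift_le _ _ x
lemma norm_Q_le (N : ℕ) (x : X) : ‖Q N x‖ ≤ ‖x‖ := lift_le _ _ x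
lemma opNorm_S (i : Fin 4) : ‖S i‖ ≤ 1 := norm_lift _ _
lemma opNorm_T (i : Fin 4) : ‖T i‖ ≤ 1 := norm_lift _ _

lemma T_mul_S (i k : Fin 4) : T i * S k = if i = k then 1 else 0 := by
  ext1 x
  refine X.ext' ?_
  rw [mul_apply_eq_comp, val_T, val_S, Tr_Sr]
  split_ifs <;> simp

def SW : List (Fin 4) → X →L[ℝ] X
  | [] => 1
  | i :: a => S i * SW a

def TW : List (Fin 4) → X →L[ℝ] X
  | [] => 1
  | i :: b => TW b * T i

lemma val_SW (a : List (Fin 4)) (x : X) : val (SW a x) = Sw a (val x) := by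
  induction a with
  | nil => rfl
  | cons i a ih => rw [SW, mul_apply_eq_comp, val_S, ih, Sw_cons]

lemma val_TW (b : List (Fin 4)) : ∀ x : X, val (TW b x) = Tw b (val x) := by
  induction b with
  | nil => intro x; rfl
  | cons i b ih => intro x; rw [TW, mul_apply_eq_comp, ih, val_T, Tw_cons]

lemma P_add_Q (N : ℕ) (x : X) : P 0 N x + Q N x = x := X.ext' (by
  rw [map_add, val_P, val_Q, pr_add_tl])

lemma P_eq_self {α β : ℕ} {x : X} (h1 : Lo α (val x)) (h2 : Hi β (val x)) : P α β x = x :=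
  X.ext' (pr_eq_self h1 h2)

lemma tail_le (x : X) {ε : ℝ} (hε : 0 < ε) : ∀ᶠ N in atTop, ‖Q N x‖ ≤ ε := by
  obtain ⟨N, hN⟩ := val_mem x ε hε
  exact eventually_atTop.2 ⟨N, fun N' h => norm_le (tail_mono hN h)⟩

lemma sub_P_eq {α β : ℕ} (h : α ≤ β) (x : X) : x - P α β x = P 0 α x + Q β x := X.ext fun a => by
  simp only [map_sub, map_add, Pi.sub_apply, Pi.add_apply, val_P, val_Q, pr_apply, tl_apply]
  split_ifs <;> first | omega | simp

lemma sub_P_le {α β : ℕ} (h : α ≤ β) (x : X) : ‖x - P α β x‖ ≤ ‖P 0 α x‖ + ‖Q β x‖ := by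
  rw [sub_P_eq h]; exact norm_add_le _ _

lemma tendsto_P (x : X) : Tendsto (fun N => P 0 N x) atTop (𝓝 x) := by
  refine Metric.tendsto_nhds.2 fun ε hε => ?_
  filter_upwards [tail_le x (half_pos hε)] with N hN
  rw [dist_comm, dist_eq_norm, sub_eq_of_eq_add' (P_add_Q N x).symm]
  linarith

lemma val_sum_e (F : Finset ℕ) (c : ℕ → ℝ) (b : ℕ) :
    val (∑ a ∈ F, c a • e a) b = if b ∈ F then c b else 0 := by
  simp only [map_sum, map_smul, Finset.sum_apply, Pi.smul_apply, val_e, smul_eq_mul, mul_ite,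
    mul_one, mul_zero]
  rw [sum_ite_eq]

lemma eq_sum_e {x : X} (F : Finset ℕ) (h : ∀ a, val x a ≠ 0 → a ∈ F) :
    x = ∑ a ∈ F, val x a • e a := by
  refine X.ext fun b => ?_
  rw [val_sum_e]
  split_ifs with hb
  · rfl
  · by_contra hcon
    exact hb (h b hcon)

lemma norm_le_l1 {x : X} (F : Finset ℕ) (h : ∀ a, val x a ≠ 0 → a ∈ F) :
    ‖x‖ ≤ ∑ a ∈ F, |val x a| :=
  norm_le fun _ hφ => hφ.le_l1 _ F fun a ha => by
    by_contra hcon
    exact ha (h a hcon)

lemma head_tendsto {x : ℕ → X} (hx : ∀ a, Tendsto (fun k => val (x k) a) atTop (𝓝 0)) (N : ℕ) :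
    Tendsto (fun k => ‖P 0 N (x k)‖) atTop (𝓝 0) := by
  have h1 : Tendsto (fun k => ∑ a ∈ range N, |val (x k) a|) atTop (𝓝 0) := by
    simpa using tendsto_finsetSum (range N) fun a _ => (hx a).abs
  refine squeeze_zero (fun _ => norm_nonneg _) (fun k => ?_) h1
  refine (norm_le_l1 (range N) fun a ha => mem_range.2 (Hi_pr _ _ _ a ha)).trans ?_
  refine sum_le_sum fun a _ => ?_
  rw [val_P, pr_apply]
  split_ifs <;> simp

end Pool.Agent.H145Z.PF
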