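import Pool.Agent.H145Z.PF.C

set_option autoImplicit false

open Finset Filter Topology

noncomputable section

namespace Pool.Agent.H145Z.PF

open Pool.Agent.H145Z.FP (m n nu mR_pos two_le_mR nR_pos mR_mono mR_succ
  one_le_nu n_le_nu pow_le_n m_le_n lt_n m_mono two_le_m lt_m n_mono)

/-- rapidly increasing sequences, asymptotic form -/
structure Ris (x : ℕ → X) (C : ℝ) : Prop where
  pos : 0 < C
  bdd : ∀ k, ‖x k‖ ≤ C
  null : ∀ a, Tendsto (fun k => val (x k) a) atTop (𝓝 0)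
  wt : ∀ i, ∀ᶠ k in atTop, ∀ φ, W (i + 1) φ → |φ (val (x k))| ≤ C / m i

def Blk (c : ℕ → ℕ) (y : ℕ → X) : Prop := ∀ k, Lo (c k) (val (y k)) ∧ Hi (c (k + 1)) (val (y k))

lemma Blk.succ {c : ℕ → ℕ} (hc : StrictMono c) {y : ℕ → X} (hy : Blk c y) (B : Finset ℕ) :
    Succ B fun k => val (y k) :=
  fun k _ l _ hkl a b ha hb => ((hy k).2 a ha).trans_le ((hc.monotone hkl).trans ((hy l).1 b hb))

lemma Ris.comp {x : ℕ → X} {C : ℝ} (h : Ris x C) {s : ℕ → ℕ} (hs : Tendsto s atTop atTop) :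
    Ris (fun k => x (s k)) C :=
  ⟨h.pos, fun _ => h.bdd _, fun a => (h.null a).comp hs, fun i => hs.eventually (h.wt i)⟩

lemma Ris.lift {x : ℕ → X} {C : ℝ} (h : Ris x C) (Θ : ℕ → En) (hΘ : ∀ k, Good (Θ k))
    (h0 : ∀ a, Tendsto (fun k => Θ k (val (x k)) a) atTop (𝓝 0)) :
    Ris (fun k => lift (Θ k) (hΘ k) (x k)) C := by
  refine ⟨h.pos, fun k => (lift_le _ _ _).trans (h.bdd k), h0, fun i => ?_⟩
  filter_upwards [h.wt i] with k hk φ hφ
  exact hk _ ((hΘ k).cl _ _ hφ)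

lemma Ris.P {x : ℕ → X} {C : ℝ} (h : Ris x C) (α β : ℕ → ℕ) :
    Ris (fun k => P (α k) (β k) (x k)) C :=
  h.lift (fun k => pr (α k) (β k)) (fun _ => good_pr _ _) fun a =>
    squeeze_zero_norm (a := fun k => |val (x k) a|) (fun k => by rw [pr_apply]; split_ifs <;> simp)
      (by simpa using (h.null a).abs)

lemma Ris.S {x : ℕ → X} {C : ℝ} (h : Ris x C) (i : Fin 4) : Ris (fun k => S i (x k)) C :=
  h.lift (fun _ => Sr i) (fun _ => good_Sr _) fun a => by
    simp only [Sr_apply]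
    split_ifs
    · exact h.null _
    · exact tendsto_const_nhds

lemma Ris.T {x : ℕ → X} {C : ℝ} (h : Ris x C) (i : Fin 4) : Ris (fun k => T i (x k)) C :=
  h.lift (fun _ => Tr i) (fun _ => good_Tr _) fun _ => h.null _

lemma Ris.normalize {x : ℕ → X} {C : ℝ} (h : Ris x C) : Ris (fun k => C⁻¹ • x k) 1 := by
  have hC := h.pos
  refine ⟨one_pos, fun k => ?_, fun a => ?_, fun i => ?_⟩
  · rw [norm_smul, Real.norm_of_nonneg (by positivity), ← div_eq_inv_mul, div_le_one hC]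
    exact h.bdd k
  · simpa using (h.null a).const_mul C⁻¹
  · filter_upwards [h.wt i] with k hk φ hφ
    rw [map_smul, map_smul, smul_eq_mul, abs_mul, abs_of_pos (inv_pos.2 hC)]
    refine (mul_le_mul_of_nonneg_left (hk φ hφ) (by positivity)).trans (le_of_eq ?_)
    field_simp

lemma m_tendsto : Tendsto (fun j => (m j : ℝ)) atTop atTop :=
  tendsto_natCast_atTop_atTop.comp (tendsto_atTop_mono (fun j => (lt_m j).le) tendsto_id)

lemma exists_m_gt (t : ℝ) (r : ℕ) (hr : r < 2) : ∃ j, j % 2 = r ∧ t < m j := by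
  obtain ⟨j, hj⟩ := (m_tendsto.eventually_gt_atTop t).exists
  exact ⟨2 * j + r, by omega, hj.trans_le (mR_mono (by omega))⟩

lemma ev_small {y : X} {d : ℕ} (hy : Hi d (val y)) {ε : ℝ} (hε : 0 < ε) :
    ∀ᶠ i in atTop, ∀ φ, W (i + 1) φ → |φ (val y)| ≤ ε := by
  have h2 : Tendsto (fun i => (∑ a ∈ range d, |val y a|) / (m i : ℝ)) atTop (𝓝 0) :=
    tendsto_const_nhds.div_atTop m_tendsto
  filter_upwards [h2.eventually (eventually_le_nhds hε)] with i hi φ hφ
  refine (hφ.le_l1 _ _ fun a ha => ?_).trans hi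
  by_contra hcon
  exact ha (mem_range.2 (hy a hcon))

lemma exists_sel {c : ℕ → ℕ} {y : ℕ → X} (hy : Blk c y) {C : ℝ} (hR : Ris y C) (j k₀ N : ℕ) :
    ∃ B : Finset ℕ, B.card = N ∧ (∀ k ∈ B, k₀ ≤ k) ∧ Sel B (fun k => val (y k)) j C := by
  induction N with
  | zero => exact ⟨∅, rfl, by simp, fun i _ => ⟨0, by simp⟩⟩
  | succ N ih =>
    obtain ⟨B, hcard, hk₀, hS⟩ := ih
    obtain ⟨t, ht⟩ := eventually_atTop.1 ((eventually_all_finset B).2 fun k _ =>
      ev_small (hy k).2 (div_pos hR.pos (mR_pos (j + 1))))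
    obtain ⟨k', hk'1, hk'2, hk'3⟩ := (((eventually_all_finset (range t)).2 fun i _ => hR.wt i).and
      ((eventually_ge_atTop k₀).and (eventually_gt_atTop (B.sup id)))).exists
    have hk'B : k' ∉ B := fun h => absurd (le_sup (f := id) h) (not_le.2 hk'3)
    refine ⟨insert k' B, by rw [card_insert_of_notMem hk'B, hcard], ?_, fun i hi => ?_⟩
    · intro k hk
      rcases mem_insert.1 hk with rfl | hk
      · exact hk'2
      · exact hk₀ k hk
    · by_cases hit : i < t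
      · obtain ⟨k₁, hk₁⟩ := hS i hi
        refine ⟨k₁, fun k hk hne φ hφ => ?_⟩
        rcases mem_insert.1 hk with rfl | hk
        · exact (hk'1 i (mem_range.2 hit) φ hφ).trans
            (div_le_div_of_nonneg_left hR.pos.le (mR_pos _) (mR_mono (min_le_left _ _)))
        · exact hk₁ k hk hne φ hφ
      · refine ⟨k', fun k hk hne φ hφ => ?_⟩
        rcases mem_insert.1 hk with rfl | hk
        · exact absurd rfl hne
        · exact (ht i (not_lt.1 hit) k hk φ hφ).trans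
            (div_le_div_of_nonneg_left hR.pos.le (mR_pos _) (mR_mono (min_le_right _ _)))

lemma smul_sum_le (φ : Fn) {t : ℝ} (ht : 0 ≤ t) (B : Finset ℕ)
    (y : ℕ → X) : |φ (val (t • ∑ k ∈ B, y k))| ≤ t * ∑ k ∈ B, |φ (val (y k))| := by
  rw [map_smul, map_smul, map_sum, map_sum, smul_eq_mul, abs_mul, abs_of_nonneg ht]
  exact mul_le_mul_of_nonneg_left (abs_sum_le_sum_abs _ _) ht

lemma exact_est {y : ℕ → X} {B : Finset ℕ} (hy : Succ B fun k => val (y k)) {C : ℝ} (hC : 0 ≤ C)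
    (hb : ∀ k ∈ B, ‖y k‖ ≤ C) {j N : ℕ} (hB : B.card ≤ N) (hN : Nn j ≤ N)
    (hS : Sel B (fun k => val (y k)) j C) :
    ‖((m j : ℝ) / N) • ∑ k ∈ B, y k‖ ≤ 2 * C ∧
    ∀ i φ, W (i + 1) φ → i ≠ j →
      |φ (val (((m j : ℝ) / N) • ∑ k ∈ B, y k))| ≤ 2 * C / m (min i j) := by
  obtain ⟨h1, h2⟩ := E1 hy hC (fun k hk φ hφ => (le_norm hφ _).trans (hb k hk)) hS hB hN
  have hm := mR_pos j
  have hN0 : (0 : ℝ) < N := by exact_mod_cast (Nn_pos j).trans_le hN
  have h3 : ∀ t : ℝ, (m j : ℝ) / N * (t * (N / m j)) = t := fun t => by field_simp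
  refine ⟨norm_le fun φ hφ => ?_, fun i φ hφ hij => ?_⟩
  · refine (smul_sum_le φ (by positivity) B y).trans ?_
    rw [← h3 (2 * C)]
    exact mul_le_mul_of_nonneg_left (h1 φ hφ) (by positivity)
  · refine (smul_sum_le φ (by positivity) B y).trans ?_
    rw [← h3 (2 * C / m (min i j))]
    exact mul_le_mul_of_nonneg_left (h2 i φ hφ hij) (by positivity)

lemma exists_chain {α : Type*} (Rel : α → α → Prop) (h : ∀ p, ∃ q, Rel p q) (p₀ : α) :
    ∃ f : ℕ → α, f 0 = p₀ ∧ ∀ k, Rel (f k) (f (k + 1)) := by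
  choose g hg using h
  exact ⟨fun k => g^[k] p₀, rfl, fun k => by
    simp only [Function.iterate_succ_apply']; exact hg _⟩

lemma blocking {x : ℕ → X} (hx : ∀ a, Tendsto (fun k => val (x k) a) atTop (𝓝 0))
    {ε : ℝ} (hε : 0 < ε) : ∃ s c : ℕ → ℕ, StrictMono s ∧ StrictMono c ∧ ∀ k,
      ‖x (s k) - P (c k) (c (k + 1)) (x (s k))‖ ≤ ε := by
  obtain ⟨f, -, hf⟩ := exists_chain (fun p q : ℕ × ℕ => p.1 < q.1 ∧ p.2 < q.2 ∧
      ‖P 0 p.2 (x q.1)‖ ≤ ε / 2 ∧ ‖Q q.2 (x q.1)‖ ≤ ε / 2) (fun p => by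
    obtain ⟨k, hk1, hk2⟩ := ((eventually_gt_atTop p.1).and
      ((head_tendsto hx p.2).eventually (eventually_le_nhds (half_pos hε)))).exists
    obtain ⟨N, hN1, hN2⟩ := ((eventually_gt_atTop p.2).and (tail_le (x k) (half_pos hε))).exists
    exact ⟨(k, N), hk1, hN1, hk2, hN2⟩) (0, 0)
  refine ⟨fun k => (f (k + 1)).1, fun k => (f k).2,
    strictMono_nat_of_lt_succ fun k => (hf (k + 1)).1,
    strictMono_nat_of_lt_succ fun k => (hf k).2.1, fun k => ?_⟩
  obtain ⟨-, h0, h1, h2⟩ := hf k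
  exact (sub_P_le h0.le _).trans (by linarith)

lemma blk_P (c : ℕ → ℕ) (x : ℕ → X) : Blk c fun k => P (c k) (c (k + 1)) (x k) :=
  fun _ => ⟨Lo_pr _ _ _, Hi_pr _ _ _⟩

lemma Ris.weak {x : ℕ → X} {C : ℝ} (hR : Ris x C) (g : X →L[ℝ] ℝ) :
    Tendsto (fun k => g (x k)) atTop (𝓝 0) := by
  have key : ∀ g : X →L[ℝ] ℝ, ∀ δ > 0, ∀ᶠ k in atTop, g (x k) < δ := by
    intro g δ hδ
    by_contra hcon
    rw [not_eventually] at hcon
    obtain ⟨s₀, hs₀, hg⟩ := extraction_of_frequently_atTop hcon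
    have hR₀ := hR.comp hs₀.tendsto_atTop
    have hε : 0 < δ / (2 * (‖g‖ + 1)) := by positivity
    obtain ⟨s, c, hs, hc, hb⟩ := blocking hR₀.null hε
    set y : ℕ → X := fun k => PF.P (c k) (c (k + 1)) (x (s₀ (s k))) with hy
    have hRy : Ris y C := (hR₀.comp hs.tendsto_atTop).P _ _
    have hgy : ∀ k, δ / 2 ≤ g (y k) := by
      intro k
      have h2 := (le_abs_self _).trans (g.le_of_opNorm_le_of_le le_rfl (hb k))
      have h3 := not_lt.1 (hg (s k))
      have h4 : ‖g‖ * (δ / (2 * (‖g‖ + 1))) ≤ δ / 2 := by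
        rw [← mul_div_assoc, div_le_div_iff₀ (by positivity) (by positivity)]
        nlinarith [norm_nonneg g]
      rw [map_sub] at h2
      simp only [hy]
      linarith
    obtain ⟨j, -, hj⟩ := exists_m_gt (‖g‖ * (2 * C) / (δ / 2)) 0 (by norm_num)
    obtain ⟨B, hB, -, hS⟩ := exists_sel (blk_P c _) hRy j 0 (n j)
    have h1 := (exact_est ((blk_P c _).succ hc B) hR.pos.le (fun k _ => hRy.bdd k) hB.le
      (Nn_le j) hS).1
    have h2 := (le_abs_self _).trans (g.le_of_opNorm_le_of_le le_rfl h1)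
    rw [map_smul, map_sum, smul_eq_mul] at h2
    have h3 : (n j : ℝ) * (δ / 2) ≤ ∑ k ∈ B, g (y k) := by
      rw [← hB, ← nsmul_eq_mul, ← sum_const]
      exact sum_le_sum fun k _ => hgy k
    have h4 := (mul_le_mul_of_nonneg_left h3 (div_pos (mR_pos j) (nR_pos j)).le).trans h2
    have h5 : (m j : ℝ) / n j * (n j * (δ / 2)) = m j * (δ / 2) := by
      have := nR_pos j
      field_simp
    rw [div_lt_iff₀ (by positivity)] at hj
    linarith
  refine tendsto_order.2 ⟨fun δ hδ => ?_, fun δ hδ => key g δ hδ⟩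
  filter_upwards [key (-g) (-δ) (by linarith)] with k hk
  simpa using hk

lemma Ris.head {x : ℕ → X} {C : ℝ} (hR : Ris x C) (A : X →L[ℝ] X) (N : ℕ) :
    Tendsto (fun k => ‖PF.P 0 N (A (x k))‖) atTop (𝓝 0) :=
  head_tendsto (fun a => hR.weak ((coord a).comp A)) N

/-- operators which are small on rapidly increasing sequences -/
def Sm (A : X →L[ℝ] X) (δ : ℝ) : Prop := ∀ x, Ris x 1 → ∀ᶠ k in atTop, ‖A (x k)‖ ≤ δ

lemma Sm.gen {A : X →L[ℝ] X} {δ : ℝ} (h : Sm A δ) {x : ℕ → X} {C : ℝ} (hx : Ris x C) :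
    ∀ᶠ k in atTop, ‖A (x k)‖ ≤ δ * C := by
  filter_upwards [h _ hx.normalize] with k hk
  have hC := hx.pos
  rwa [map_smul, norm_smul, Real.norm_of_nonneg (by positivity), ← div_eq_inv_mul,
    div_le_iff₀ hC] at hk

lemma Sm.mono {A : X →L[ℝ] X} {δ δ' : ℝ} (h : Sm A δ) (h' : δ ≤ δ') : Sm A δ' :=
  fun x hx => (h x hx).mono fun _ hk => hk.trans h'

lemma Sm.add {A B : X →L[ℝ] X} {δ δ' : ℝ} (h : Sm A δ) (h' : Sm B δ') : Sm (A + B) (δ + δ') :=
  fun x hx => by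
    filter_upwards [h x hx, h' x hx] with k h1 h2
    exact (norm_add_le _ _).trans (add_le_add h1 h2)

lemma Sm.left {A : X →L[ℝ] X} {δ : ℝ} (h : Sm A δ) (U : X →L[ℝ] X) {M : ℝ} (hU : ‖U‖ ≤ M) :
    Sm (U * A) (M * δ) := fun x hx => by
  filter_upwards [h x hx] with k hk
  exact U.le_of_opNorm_le_of_le hU hk

lemma Sm.smul {A : X →L[ℝ] X} {δ : ℝ} (h : Sm A δ) (c : ℝ) : Sm (c • A) (|c| * δ) :=
  fun x hx => by
    filter_upwards [h x hx] with k hk
    rw [_root_.smul_apply, norm_smul, Real.norm_eq_abs]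
    exact mul_le_mul_of_nonneg_left hk (abs_nonneg c)

lemma Sm.neg {A : X →L[ℝ] X} {δ : ℝ} (h : Sm A δ) : Sm (-A) δ := by
  simpa using h.smul (-1)

lemma Sm.S {A : X →L[ℝ] X} {δ : ℝ} (h : Sm A δ) (i : Fin 4) : Sm (A * S i) δ :=
  fun _ hx => h _ (hx.S i)

lemma Sm.T {A : X →L[ℝ] X} {δ : ℝ} (h : Sm A δ) (i : Fin 4) : Sm (A * T i) δ :=
  fun _ hx => h _ (hx.T i)

lemma Sm.SW {δ : ℝ} (a : List (Fin 4)) : ∀ {A : X →L[ℝ] X}, Sm A δ → Sm (A * SW a) δ := by
  induction a with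
  | nil => intro A h; simpa [PF.SW] using h
  | cons i a ih => intro A h; rw [PF.SW, ← mul_assoc]; exact ih (h.S i)

lemma Sm.TW {δ : ℝ} (b : List (Fin 4)) : ∀ {A : X →L[ℝ] X}, Sm A δ → Sm (A * TW b) δ := by
  induction b with
  | nil => intro A h; simpa [PF.TW] using h
  | cons i b ih => intro A h; rw [PF.TW, ← mul_assoc]; exact (ih h).T i

lemma sm_norm (A : X →L[ℝ] X) : Sm A ‖A‖ := fun x hx => Eventually.of_forall fun k => by
  simpa using A.le_of_opNorm_le_of_le le_rfl (hx.bdd k)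

lemma sm_head (A : X →L[ℝ] X) (N : ℕ) {δ : ℝ} (hδ : 0 < δ) : Sm (P 0 N * A) δ :=
  fun _ hx => (hx.head A N).eventually (eventually_le_nhds hδ)

lemma exists_of_val_sum {u : ℕ → X} {B : Finset ℕ} {a : ℕ} (ha : val (∑ k ∈ B, u k) a ≠ 0) :
    ∃ k ∈ B, val (u k) a ≠ 0 := by
  simp only [map_sum, Finset.sum_apply] at ha
  exact exists_ne_zero_of_sum_ne_zero ha

lemma exists_of_val_smul_sum {u : ℕ → X} {t : ℝ} {B : Finset ℕ} {a : ℕ}
    (ha : val (t • ∑ k ∈ B, u k) a ≠ 0) : ∃ k ∈ B, val (u k) a ≠ 0 := by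
  rw [map_smul, Pi.smul_apply, smul_eq_mul] at ha
  exact exists_of_val_sum (right_ne_zero_of_mul ha)

lemma sum_Ico_blocks (y : ℕ → X) (a M L : ℕ) :
    ∑ l ∈ range L, ∑ k ∈ Ico (a + l * M) (a + (l + 1) * M), y k = ∑ k ∈ Ico a (a + L * M), y k := by
  induction L with
  | zero => simp
  | succ L ih =>
    rw [sum_range_succ, ih, sum_Ico_consecutive]
    · omega
    · nlinarith [Nat.zero_le M]

lemma split_avg {B : Finset ℕ} {u : ℕ → X} (hB : Succ B fun k => val (u k)) {β : ℝ} (hβ : 0 ≤ β)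
    (hu : ∀ k ∈ B, ‖u k‖ ≤ β) {i : ℕ} (hi : n i ≤ B.card) {φ : Fn} (hφ : W (i + 1) φ) :
    ∑ k ∈ B, |φ (val (u k))| ≤ 2 * β * B.card / m i := by
  have h1 := step hB (α := 0) le_rfl hβ (fun ψ hψ B' hB' => by
    have := sum_le_sum fun k (hk : k ∈ B') => (le_norm hψ (u k)).trans (hu k (hB' hk))
    rw [sum_const, nsmul_eq_mul] at this
    linarith) hφ B subset_rfl
  refine h1.trans (div_le_div_of_nonneg_right ?_ (mR_pos i).le)
  have h2 : (n i : ℝ) ≤ B.card := by exact_mod_cast hi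
  nlinarith

lemma low_blk {c : ℕ → ℕ} (hc : StrictMono c) {y : ℕ → X} (hy : Blk c y) {j : ℕ} (hj : j % 2 = 0)
    {B : Finset ℕ} (hB : B.card ≤ n j) {δ : ℝ} (hδ : ∀ k, δ < ‖y k‖) :
    B.card * δ / m j ≤ ‖∑ k ∈ B, y k‖ := by
  choose φ hφ hlt using fun k => exists_lt (hδ k)
  have hA : ∀ r ∈ B, ∀ s ∈ B, r < s → c (r + 1) ≤ c s := fun r _ s _ h => hc.monotone h
  refine le_trans ?_ ((le_abs_self _).trans
    (le_norm (low hj hB c (fun k => c (k + 1)) hA φ fun k _ => hφ k).K _))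
  rw [node_apply]
  refine div_le_div_of_nonneg_right ?_ (mR_pos j).le
  rw [← nsmul_eq_mul, ← sum_const]
  refine sum_le_sum fun k hk => ?_
  rw [map_sum, pr_sum_eq B (fun k => val (y k)) c (fun k => c (k + 1)) hA (fun k _ => hy k) k hk]
  exact (hlt k).le

lemma av {c : ℕ → ℕ} (hc : StrictMono c) {y : ℕ → X} (hy : Blk c y) (h1 : ∀ k, ‖y k‖ = 1)
    (N : ℕ) (hN : 2 ≤ N) (a₀ : ℕ) :
    ∃ (a b : ℕ) (t : ℝ), a₀ ≤ a ∧ 0 ≤ t ∧ t ≤ 1 ∧ 1 ≤ ‖t • ∑ k ∈ Ico a b, y k‖ ∧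
      ‖t • ∑ k ∈ Ico a b, y k‖ ≤ 2 ∧ ∀ i, n i ≤ N → ∀ φ, W (i + 1) φ →
        |φ (val (t • ∑ k ∈ Ico a b, y k))| ≤ 4 / m i := by
  have hNR : (2 : ℝ) ≤ N := by exact_mod_cast hN
  by_cases H : ∀ s a, a₀ ≤ a →
      (∀ l < N, ‖∑ k ∈ Ico (a + l * N ^ s) (a + (l + 1) * N ^ s), y k‖ ≤ (N / 2) ^ s) →
      ‖∑ k ∈ Ico a (a + N * N ^ s), y k‖ ≤ (N / 2) ^ (s + 1)
  · exfalso
    have h2 : ∀ s a, a₀ ≤ a → ‖∑ k ∈ Ico a (a + N ^ s), y k‖ ≤ (N / 2) ^ s := by
      intro s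
      induction s with
      | zero => intro a _; simp [h1]
      | succ s ih =>
        intro a ha
        rw [pow_succ']
        refine H s a ha fun l _ => ?_
        have := ih (a + l * N ^ s) (by omega)
        rwa [add_assoc, ← add_one_mul] at this
    set j := 2 * N with hj
    have hNj : N ≤ 2 * nu j := by
      have h3 := n_le_nu (show N < j by omega)
      have h4 := lt_n N
      omega
    have hcard : (Ico a₀ (a₀ + N ^ (2 ^ j + 1))).card ≤ n j := by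
      rw [Nat.card_Ico, Nat.add_sub_cancel_left]
      have h3 := pow_le_n j (2 ^ j + 1)
        (Nat.add_le_add_right (Nat.pow_le_pow_right (by norm_num) (by omega)) 1)
      have h4 := Nat.pow_le_pow_left hNj (2 ^ j + 1)
      have h5 := two_le_m (j + 1)
      nlinarith
    have h4 := (low_blk hc hy (j := j) (by omega) hcard (δ := 3 / 4)
      fun k => by rw [h1]; norm_num).trans (h2 _ a₀ le_rfl)
    rw [Nat.card_Ico, Nat.add_sub_cancel_left, div_pow, div_le_div_iff₀ (mR_pos j) (by positivity)]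
      at h4
    have h5 : (2 : ℝ) ^ (2 ^ j + 1) = 2 * m j := by simp [m, pow_succ]; ring
    rw [h5] at h4
    push_cast at h4
    have h6 : (0 : ℝ) < (N : ℝ) ^ (2 ^ j + 1) * m j := mul_pos (by positivity) (mR_pos j)
    nlinarith
  · push Not at H
    obtain ⟨s, a, ha, h2, h3⟩ := H
    have hβ : (1 : ℝ) ≤ (N / 2) ^ s := one_le_pow₀ (by linarith)
    have hβ' : (1 : ℝ) ≤ (N / 2) ^ (s + 1) := one_le_pow₀ (by linarith)
    have ht : (0 : ℝ) ≤ 1 / (N / 2) ^ (s + 1) := by positivity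
    have hmul : 1 / ((N : ℝ) / 2) ^ (s + 1) * ((N / 2) ^ s * N) = 2 := by
      rw [pow_succ]; field_simp
    refine ⟨a, a + N * N ^ s, 1 / (N / 2) ^ (s + 1), ha, ht, ?_, ?_, ?_, ?_⟩
    · rw [div_le_one (by positivity)]; exact hβ'
    · rw [norm_smul, Real.norm_of_nonneg ht, one_div, ← div_eq_inv_mul,
        one_le_div (by positivity)]
      exact h3.le
    · rw [norm_smul, Real.norm_of_nonneg ht, ← sum_Ico_blocks]
      have h4 := (norm_sum_le _ _).trans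
        (sum_le_sum fun l (hl : l ∈ range N) => h2 l (mem_range.1 hl))
      rw [sum_const, card_range, nsmul_eq_mul, mul_comm] at h4
      exact (mul_le_mul_of_nonneg_left h4 ht).trans hmul.le
    · intro i hi φ hφ
      rw [← sum_Ico_blocks]
      refine (smul_sum_le φ ht _ _).trans ?_
      have h4 := split_avg (B := range N)
        (u := fun l => ∑ k ∈ Ico (a + l * N ^ s) (a + (l + 1) * N ^ s), y k)
        (fun l _ l' _ hll a' b' ha' hb' => by
          obtain ⟨k, hk, hka⟩ := exists_of_val_sum ha'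
          obtain ⟨k', hk', hkb⟩ := exists_of_val_sum hb'
          refine hy.succ hc {k, k'} k (by simp) k' (by simp) ?_ a' b' hka hkb
          have h5 := (mem_Ico.1 hk).2
          have h6 := (mem_Ico.1 hk').1
          have h7 : (l + 1) * N ^ s ≤ l' * N ^ s := Nat.mul_le_mul_right _ hll
          omega) (by linarith) (fun l hl => h2 l (mem_range.1 hl)) (by simpa using hi) hφ
      refine (mul_le_mul_of_nonneg_left h4 ht).trans (le_of_eq ?_)
      rw [card_range, ← mul_div_assoc]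
      congr 1
      linarith

lemma AV {c : ℕ → ℕ} (hc : StrictMono c) {y : ℕ → X} (hy : Blk c y) (h1 : ∀ k, ‖y k‖ = 1)
    (U : X →L[ℝ] X) (hU : ∀ k, ‖U (y k)‖ ≤ (1 / 2) ^ k) :
    ∃ x : ℕ → X, Ris x 4 ∧ (∀ l, 1 ≤ ‖x l‖) ∧ Tendsto (fun l => U (x l)) atTop (𝓝 0) := by
  choose a b t ha ht0 ht1 h2 h3 h4 using fun l => av hc hy h1 (n l) (by have := lt_n l; omega) l
  refine ⟨fun l => t l • ∑ k ∈ Ico (a l) (b l), y k, ⟨by norm_num, fun l => by linarith [h3 l],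
    fun a' => ?_, fun i => ?_⟩, h2, ?_⟩
  · refine tendsto_const_nhds.congr' ?_
    filter_upwards [eventually_gt_atTop a'] with l hl
    by_contra hne
    obtain ⟨k, hk, hka⟩ := exists_of_val_smul_sum (Ne.symm hne)
    have h5 := (hy k).1 a' hka
    have h6 := hc.id_le k
    have h7 := (mem_Ico.1 hk).1
    have h8 := ha l
    simp only [id] at h6
    omega
  · filter_upwards [eventually_ge_atTop i] with l hl
    exact h4 l i (n_mono hl)
  · have h5 : Tendsto (fun l : ℕ => (1 / 2 : ℝ) ^ l / (1 - 1 / 2)) atTop (𝓝 0) := by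
      simpa using (tendsto_pow_atTop_nhds_zero_of_lt_one (r := (1 / 2 : ℝ)) (by norm_num)
        (by norm_num)).div_const (1 - 1 / 2)
    refine squeeze_zero_norm (fun l => ?_) h5
    rw [map_smul, map_sum, norm_smul, Real.norm_of_nonneg (ht0 l)]
    refine (mul_le_of_le_one_left (norm_nonneg _) (ht1 l)).trans ((norm_sum_le _ _).trans ?_)
    refine (sum_le_sum fun k _ => hU k).trans
      ((geom_sum_Ico_le_of_lt_one (by norm_num) (by norm_num)).trans ?_)
    exact div_le_div_of_nonneg_right (pow_le_pow_of_le_one (by norm_num) (by norm_num) (ha l))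
      (by norm_num)

theorem LB {R : X →L[ℝ] X} (hR : Sm R (1 / 8)) :
    ∃ N, ∃ γ : ℝ, 0 < γ ∧ ∀ x, Lo N (val x) → γ * ‖x‖ ≤ ‖x + R x‖ := by
  by_contra hcon
  push Not at hcon
  obtain ⟨f, -, hf⟩ := exists_chain (fun p q : ℕ × X => p.1 < q.1 ∧ ‖q.2‖ = 1 ∧
      Lo p.1 (val q.2) ∧ Hi q.1 (val q.2) ∧ ‖q.2 + R q.2‖ ≤ (1 / 2) ^ p.1) (fun p => by
    obtain ⟨x, hx, hlt⟩ := hcon p.1 ((1 / 2) ^ p.1) (by positivity)
    have h1 := ((tendsto_P x).add ((R.continuous.tendsto x).comp (tendsto_P x))).norm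
    obtain ⟨N, hN1, hN2⟩ := ((eventually_gt_atTop p.1).and
      (h1.eventually_lt ((tendsto_P x).norm.const_mul _) hlt)).exists
    simp only [Function.comp] at hN2
    have hn : 0 < ‖P 0 N x‖ := by
      refine lt_of_le_of_ne (norm_nonneg _) fun h => ?_
      rw [← h, mul_zero] at hN2
      exact absurd hN2 (not_lt.2 (norm_nonneg _))
    refine ⟨(N, ‖P 0 N x‖⁻¹ • P 0 N x), hN1, ?_, fun b hb => ?_, fun b hb => ?_, ?_⟩
    · simp only [norm_smul, norm_inv, norm_norm]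
      exact inv_mul_cancel₀ hn.ne'
    · simp only [map_smul, Pi.smul_apply, smul_eq_mul] at hb
      exact hx b (of_pr_ne (right_ne_zero_of_mul hb))
    · simp only [map_smul, Pi.smul_apply, smul_eq_mul] at hb
      exact Hi_pr _ _ _ b (right_ne_zero_of_mul hb)
    · simp only
      rw [map_smul, ← smul_add, norm_smul, norm_inv, norm_norm, ← div_eq_inv_mul, div_le_iff₀ hn]
      exact hN2.le) (0, 0)
  have hc : StrictMono fun k => (f k).1 := strictMono_nat_of_lt_succ fun k => (hf k).1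
  obtain ⟨x, h1, h2, h3⟩ := AV hc (y := fun k => (f (k + 1)).2)
    (fun k => ⟨(hf k).2.2.1, (hf k).2.2.2.1⟩) (fun k => (hf k).2.1) (1 + R) fun k =>
      (hf k).2.2.2.2.trans (pow_le_pow_of_le_one (by norm_num) (by norm_num) (hc.id_le k))
  obtain ⟨k, h4, h5⟩ := ((hR.gen h1).and (h3.norm.eventually
    (eventually_lt_nhds (show ‖(0 : X)‖ < 1 / 2 by simp)))).exists
  have h6 := norm_sub_le ((1 + R) (x k)) (R (x k))
  simp only [add_apply, one_apply_eq_self, add_sub_cancel_right] at h5 h6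
  linarith [h2 k]

end Pool.Agent.H145Z.PF
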