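import Pool.Agent.H145Z.PF.D

set_option autoImplicit false

open Finset Filter Topology

noncomputable section

namespace Pool.Agent.H145Z.PF

open Pool.Agent.H145Z.FP (m n nu mR_pos two_le_mR nR_pos mR_mono mR_succ lt_n)

abbrev Wd := List (Fin 4)

/-- the span of the spreads -/
def Alg : Submodule ℝ (X →L[ℝ] X) :=
  Submodule.span ℝ (Set.range fun p : Wd × Wd => SW p.1 * TW p.2)

lemma norm_P_sub (A : X →L[ℝ] X) (c : ℕ) (x y : X) {η : ℝ} (h : ‖x - y‖ ≤ η) :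
    ‖P 0 c (A y)‖ ≤ ‖P 0 c (A x)‖ + ‖A‖ * η := by
  have h1 := (norm_P_le 0 c _).trans (A.le_of_opNorm_le_of_le le_rfl h)
  have h2 := norm_sub_le (P 0 c (A x)) (P 0 c (A (x - y)))
  simp only [map_sub, sub_sub_cancel] at h1 h2
  linarith

lemma stepA (T₀ : X →L[ℝ] X) {δ : ℝ} (hδ : 0 < δ) {A : X →L[ℝ] X} (h : ¬ Sm A δ) (M c : ℕ)
    {ε : ℝ} (hε : 0 < ε) : ∃ (c' : ℕ) (y : X) (φ : Fn), (c < c' ∧ Lo c (val y) ∧ Hi c' (val y) ∧
      ‖y‖ ≤ 1 ∧ (∀ i < c, ∀ ψ, W (i + 1) ψ → |ψ (val y)| ≤ 1 / m i) ∧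
      (∀ i, c' ≤ i → ∀ ψ, W (i + 1) ψ → |ψ (val y)| ≤ ε) ∧
      (∀ a b : Wd, a.length ≤ M → b.length ≤ M →
        Lo c (Sw a (Tw b (val y))) ∧ Hi c' (Sw a (Tw b (val y)))) ∧
      ‖P 0 c (T₀ y)‖ + ‖Q c' (T₀ y)‖ ≤ ε) ∧ K φ ∧ δ / 2 ≤ φ (pr c c' (val (A y))) := by
  simp only [Sm, not_forall, not_eventually, not_le] at h
  obtain ⟨x, hx, hfr⟩ := h
  have hA := norm_nonneg A
  have hT := norm_nonneg T₀
  obtain ⟨η, hη, hη1, hη2⟩ : ∃ η : ℝ, 0 < η ∧ η * (4 * ‖A‖ + 2) ≤ δ / 2 ∧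
      η * (2 + 2 * ‖T₀‖) ≤ ε := by
    refine ⟨min (δ / 2 / (4 * ‖A‖ + 2)) (ε / (2 + 2 * ‖T₀‖)), by positivity, ?_, ?_⟩
    · rw [← le_div_iff₀ (by positivity)]; exact min_le_left _ _
    · rw [← le_div_iff₀ (by positivity)]; exact min_le_right _ _
  obtain ⟨c₁, hc₁, hLo⟩ := exists_Lo M c
  have e1 := (head_tendsto hx.null c₁).eventually (eventually_le_nhds hη)
  have e2 := (hx.head T₀ c).eventually (eventually_le_nhds hη)
  have e3 := (hx.head A c).eventually (eventually_le_nhds hη)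
  have e4 := (eventually_all_finset (range c)).2 fun i _ => hx.wt i
  obtain ⟨k, hk0, hk1, hk2, hk3, hk4⟩ := (hfr.and_eventually (e1.and (e2.and (e3.and e4)))).exists
  obtain ⟨d, hd1, hd2⟩ := ((eventually_ge_atTop c₁).and (tail_le (x k) hη)).exists
  set y := P c₁ d (x k) with hy
  have hxy : ‖x k - y‖ ≤ 2 * η := (sub_P_le hd1 _).trans (by linarith)
  have hyL : Lo c₁ (val y) := Lo_pr _ _ _
  have hyH : Hi d (val y) := Hi_pr _ _ _
  obtain ⟨d₁, hd₁, hHi⟩ := exists_Hi M d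
  obtain ⟨t, ht⟩ := eventually_atTop.1 (ev_small hyH hε)
  obtain ⟨c', g1, g2, g3, g4, g5⟩ := ((eventually_gt_atTop c).and ((eventually_ge_atTop d₁).and
    ((eventually_ge_atTop t).and ((tail_le (T₀ y) hη).and (tail_le (A y) hη))))).exists
  have h1 := norm_P_sub T₀ c _ _ hxy
  have h2 := norm_P_sub A c _ _ hxy
  have h3 := A.le_of_opNorm_le_of_le le_rfl hxy
  have h4 := norm_sub_norm_le (A (x k)) (A y)
  rw [← map_sub] at h4
  have h5 := sub_P_le g1.le (A y)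
  have h6 := norm_sub_norm_le (A y) (P c c' (A y))
  obtain ⟨φ, hφ, hlt⟩ := exists_lt (x := P c c' (A y)) (t := δ / 2) (by nlinarith)
  refine ⟨c', y, φ, ⟨g1, hyL.mono hc₁, hyH.mono (hd₁.trans g2),
    (norm_P_le _ _ _).trans (hx.bdd k), fun i hi ψ hψ => ?_, fun i hi => ht i (g3.trans hi),
    fun a b ha hb => ⟨?_, ?_⟩, by nlinarith⟩, hφ, hlt.le⟩
  · exact hk4 i (mem_range.2 hi) _ (hψ.comp_pr c₁ d)
  · exact ((hLo b hb _ hyL).Sw a).mono (by omega)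
  · exact (hHi a ha _ (Hi.Tw b (hyH.mono (by omega)))).mono g2

lemma blackwell {ι : Type*} (F : Finset ι) (A δ τ t : ℝ) (S s : ι → ℝ) (hδ : 0 ≤ δ) (ht : |t| ≤ τ)
    (hs : ∀ σ ∈ F, |s σ| ≤ 1) (h : (0 < A ∧ δ ≤ t - ∑ σ ∈ F, S σ / A * s σ) ∨
      (A ≤ 0 ∧ ∑ σ ∈ F, S σ * s σ ≤ 0)) :
    (max 0 (A + δ - t)) ^ 2 + ∑ σ ∈ F, (S σ + s σ) ^ 2 ≤
      (max 0 A) ^ 2 + ∑ σ ∈ F, S σ ^ 2 + ((δ + τ) ^ 2 + F.card) := by
  have h1 : ∑ σ ∈ F, (S σ + s σ) ^ 2 ≤ ∑ σ ∈ F, S σ ^ 2 + 2 * ∑ σ ∈ F, S σ * s σ + F.card := by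
    rw [mul_sum, ← sum_add_distrib, card_eq_sum_ones, Nat.cast_sum, ← sum_add_distrib]
    refine sum_le_sum fun σ hσ => ?_
    have := sq_le_one_iff_abs_le_one (s σ) |>.2 (hs σ hσ)
    push_cast
    nlinarith
  obtain ⟨ht1, ht2⟩ := abs_le.1 ht
  have h2 : (δ - t) ^ 2 ≤ (δ + τ) ^ 2 := sq_le_sq' (by linarith) (by linarith)
  rcases h with ⟨hA, h⟩ | ⟨hA, h⟩
  · have h3 : ∑ σ ∈ F, S σ / A * s σ = (∑ σ ∈ F, S σ * s σ) / A := by
      rw [sum_div]; exact sum_congr rfl fun σ _ => by ring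
    have h4 : ∑ σ ∈ F, S σ * s σ ≤ (t - δ) * A := by
      rw [← div_le_iff₀ hA]; linarith
    have h5 : (max 0 (A + δ - t)) ^ 2 ≤ (A + δ - t) ^ 2 := by
      rcases le_total 0 (A + δ - t) with h6 | h6
      · rw [max_eq_right h6]
      · rw [max_eq_left h6]; simpa using sq_nonneg _
    rw [max_eq_right hA.le]
    nlinarith
  · have h5 : (max 0 (A + δ - t)) ^ 2 ≤ (δ + τ) ^ 2 :=
      pow_le_pow_left₀ (le_max_left _ _) (max_le (by linarith) (by linarith)) 2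
    rw [max_eq_left hA]
    nlinarith

lemma node_pr (j : ℕ) {B : Finset ℕ} {c : ℕ → ℕ} (hc : StrictMono c) (φ : ℕ → Fn) {l : ℕ}
    (hl : l ∈ B) (x : V) :
    ((m j : ℝ)⁻¹ • ∑ r ∈ B, φ r ∘ₗ pr (c r) (c (r + 1))) (pr (c l) (c (l + 1)) x) =
      φ l (pr (c l) (c (l + 1)) x) / m j := by
  rw [node_apply, sum_eq_single l (fun r _ hne => ?_) fun h => absurd hl h]
  · rw [pr_pr, max_self, min_self]
  · rw [pr_eq_zero fun a ha => ?_, map_zero]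
    have h1 := Lo_pr _ _ _ a ha
    have h2 := Hi_pr _ _ _ a ha
    rcases lt_or_gt_of_ne hne with h | h
    · exact Or.inr ((hc.monotone h).trans h1)
    · exact Or.inl (h2.trans_le (hc.monotone h))

lemma node_low {j : ℕ} {B : Finset ℕ} {c : ℕ → ℕ} (hc : StrictMono c) {φ : ℕ → Fn} {l : ℕ}
    (hl : l ∈ B) (hK : K ((m j : ℝ)⁻¹ • ∑ r ∈ B, φ r ∘ₗ pr (c r) (c (r + 1)))) {u : X} {ε : ℝ}
    (hu : ‖P 0 (c l) u‖ + ‖Q (c (l + 1)) u‖ ≤ ε) :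
    φ l (pr (c l) (c (l + 1)) (val u)) / m j - ε ≤
      ((m j : ℝ)⁻¹ • ∑ r ∈ B, φ r ∘ₗ pr (c r) (c (r + 1))) (val u) := by
  have h1 := (le_norm hK _).trans ((sub_P_le (hc.monotone (Nat.le_succ l)) u).trans hu)
  rw [map_sub, map_sub, val_P, node_pr j hc φ hl] at h1
  linarith [(abs_le.1 h1).1]

lemma head_mono {c c' : ℕ} (h : c ≤ c') (u : X) : ‖P 0 c u‖ ≤ ‖P 0 c' u‖ := by
  have : P 0 c u = P 0 c (P 0 c' u) := X.ext' (by
    rw [val_P, val_P, val_P, pr_pr, max_self, min_eq_left h])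
  rw [this]
  exact norm_P_le _ _ _

lemma Q_mono {c c' : ℕ} (h : c ≤ c') (u : X) : ‖Q c' u‖ ≤ ‖Q c u‖ := by
  have : Q c' u = Q c' (Q c u) := X.ext' (by rw [val_Q, val_Q, val_Q, tl_tl h])
  rw [this]
  exact norm_Q_le _ _

lemma inner {T₀ : X →L[ℝ] X} {δ : ℝ} (hδ : 0 < δ) (H : ∀ U ∈ Alg, ¬ Sm (T₀ - U) δ) (M : ℕ)
    {η : ℝ} (hη : 0 < η) : ∃ J, ∀ j, J ≤ j → j % 2 = 0 → ∃ (c' : ℕ) (z : X) (g : ℕ →₀ ℚ),
      M < c' ∧ Lo M (val z) ∧ Hi c' (val z) ∧ ‖z‖ ≤ 2 ∧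
      (∀ i φ, W (i + 1) φ → i ≠ j → |φ (val z)| ≤ 2 / m (min i j)) ∧ W (j + 1) (ev g) ∧
      (∀ x, ev g (pr M c' x) = ev g x) ∧ δ / 2 - η ≤ ev g (val (T₀ z)) ∧
      (∀ a b : Wd, a.length ≤ M → b.length ≤ M → |ev g (Sw a (Tw b (val z)))| ≤ η) ∧
      ‖P 0 M (T₀ z)‖ + ‖Q c' (T₀ z)‖ ≤ η := by
  classical
  set F : Finset (Wd × Wd) := (List.finite_length_le (Fin 4) M).toFinset ×ˢ
    (List.finite_length_le (Fin 4) M).toFinset with hF
  have hmem : ∀ σ : Wd × Wd, σ ∈ F ↔ σ.1.length ≤ M ∧ σ.2.length ≤ M := fun σ => by simp [hF]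
  set R' : ℝ := (δ / 2 + ‖T₀‖) ^ 2 + F.card with hR'
  obtain ⟨J, hJ⟩ := exists_nat_ge (R' / (η / 2) ^ 2)
  refine ⟨J, fun j hj hj2 => ?_⟩
  have hm := mR_pos j
  have hm' := mR_pos (j + 1)
  have hmm : (m j : ℝ) ≤ m (j + 1) := mR_mono (by omega)
  have hL := nR_pos j
  have hRL : R' ≤ (η / 2) ^ 2 * n j := by
    rw [div_le_iff₀ (by positivity)] at hJ
    have h1 : (J : ℝ) ≤ n j := by exact_mod_cast (by have := lt_n j; omega : J ≤ n j)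
    nlinarith [sq_nonneg (η / 2)]
  set ε : ℝ := min (η / 2) 1 / m (j + 1) with hε
  have hε0 : 0 < ε := by positivity
  have hε1 : ε ≤ 1 / m (j + 1) := div_le_div_of_nonneg_right (min_le_right _ _) hm'.le
  have hε2 : m j * ε ≤ η / 2 := by
    rw [hε, mul_div_assoc', div_le_iff₀ hm']
    nlinarith [min_le_left (η / 2) 1, lt_min (half_pos hη) one_pos]
  obtain ⟨f, hf0, hf⟩ := exists_chain (fun p q : ℕ × X × Fn × ℝ × (Wd × Wd → ℝ) =>
    (p.1 < q.1 ∧ Lo p.1 (val q.2.1) ∧ Hi q.1 (val q.2.1) ∧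
      ‖q.2.1‖ ≤ 1 ∧ (∀ i < p.1, ∀ ψ, W (i + 1) ψ → |ψ (val q.2.1)| ≤ 1 / m i) ∧
      (∀ i, q.1 ≤ i → ∀ ψ, W (i + 1) ψ → |ψ (val q.2.1)| ≤ ε) ∧
      (∀ a b : Wd, a.length ≤ M → b.length ≤ M →
        Lo p.1 (Sw a (Tw b (val q.2.1))) ∧ Hi q.1 (Sw a (Tw b (val q.2.1)))) ∧
      ‖P 0 p.1 (T₀ q.2.1)‖ + ‖Q q.1 (T₀ q.2.1)‖ ≤ ε) ∧ K q.2.2.1 ∧
      q.2.2.2.1 = p.2.2.2.1 + δ / 2 - q.2.2.1 (pr p.1 q.1 (val (T₀ q.2.1))) ∧
      (∀ σ, q.2.2.2.2 σ = p.2.2.2.2 σ + q.2.2.1 (pr p.1 q.1 (Sw σ.1 (Tw σ.2 (val q.2.1))))) ∧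
      (max 0 q.2.2.2.1) ^ 2 + ∑ σ ∈ F, q.2.2.2.2 σ ^ 2 ≤
        (max 0 p.2.2.2.1) ^ 2 + ∑ σ ∈ F, p.2.2.2.2 σ ^ 2 + R') (fun ⟨c, _, _, A, S⟩ => by
    have key : ∀ (c' : ℕ) (y : X) (φ : Fn), ‖y‖ ≤ 1 → K φ →
        ((0 < A ∧ δ / 2 ≤ φ (pr c c' (val (T₀ y))) -
          ∑ σ ∈ F, S σ / A * φ (pr c c' (Sw σ.1 (Tw σ.2 (val y))))) ∨
        (A ≤ 0 ∧ ∑ σ ∈ F, S σ * φ (pr c c' (Sw σ.1 (Tw σ.2 (val y)))) ≤ 0)) →
        (max 0 (A + δ / 2 - φ (pr c c' (val (T₀ y))))) ^ 2 +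
          ∑ σ ∈ F, (S σ + φ (pr c c' (Sw σ.1 (Tw σ.2 (val y))))) ^ 2 ≤
        (max 0 A) ^ 2 + ∑ σ ∈ F, S σ ^ 2 + R' := by
      intro c' y φ hy hφ h
      refine blackwell F A (δ / 2) ‖T₀‖ _ S _ (by positivity) ?_ (fun σ _ => ?_) h
      · exact (le_norm (hφ.comp_pr c c') (T₀ y)).trans
          (by simpa using T₀.le_of_opNorm_le_of_le le_rfl hy)
      · exact (le_norm (((hφ.choose_spec.comp_pr c c').comp_Sw σ.1).comp_Tw σ.2).K y).trans hy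
    by_cases hA : 0 < A
    · obtain ⟨c', y, φ, h1, h2, h3⟩ := stepA T₀ hδ
        (H (∑ σ ∈ F, (S σ / A) • (SW σ.1 * TW σ.2)) (Submodule.sum_mem _ fun σ _ =>
          Submodule.smul_mem _ _ (Submodule.subset_span ⟨σ, rfl⟩))) M c hε0
      refine ⟨(c', y, φ, _, _), h1, h2, rfl, fun _ => rfl, key c' y φ h1.2.2.2.1 h2
        (Or.inl ⟨hA, ?_⟩)⟩
      simpa [_root_.sum_apply, val_SW, val_TW] using h3
    · obtain ⟨c', y, φ, h1, h2, -⟩ := stepA T₀ hδ (H 0 (Submodule.zero_mem _)) M c hε0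
      rcases le_total (∑ σ ∈ F, S σ * φ (pr c c' (Sw σ.1 (Tw σ.2 (val y))))) 0 with h3 | h3
      · exact ⟨(c', y, φ, _, _), h1, h2, rfl, fun _ => rfl, key c' y φ h1.2.2.2.1 h2
          (Or.inr ⟨not_lt.1 hA, h3⟩)⟩
      · exact ⟨(c', y, -φ, _, _), h1, h2.neg, rfl, fun _ => rfl, key c' y (-φ) h1.2.2.2.1 h2.neg
          (Or.inr ⟨not_lt.1 hA, by simpa using h3⟩)⟩) (M, 0, 0, 0, 0)
  set c : ℕ → ℕ := fun l => (f l).1 with hc'
  set y : ℕ → X := fun l => (f (l + 1)).2.1 with hy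
  set φ : ℕ → Fn := fun l => (f (l + 1)).2.2.1 with hφ
  have hc : StrictMono c := strictMono_nat_of_lt_succ fun l => (hf l).1.1
  have hc0 : c 0 = M := by simp [hc', hf0]
  have hcM : ∀ l, M ≤ c l := fun l => hc0 ▸ hc.monotone (Nat.zero_le l)
  have hyb : Blk c y := fun l => ⟨(hf l).1.2.1, (hf l).1.2.2.1⟩
  have hA : ∀ L : ℕ, (f L).2.2.2.1 =
      L * (δ / 2) - ∑ l ∈ range L, φ l (pr (c l) (c (l + 1)) (val (T₀ (y l)))) := by
    intro L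
    induction L with
    | zero => simp [hf0]
    | succ L ih => rw [(hf L).2.2.1, ih, sum_range_succ]; push_cast; ring
  have hS : ∀ (L : ℕ) σ, (f L).2.2.2.2 σ =
      ∑ l ∈ range L, φ l (pr (c l) (c (l + 1)) (Sw σ.1 (Tw σ.2 (val (y l))))) := by
    intro L σ
    induction L with
    | zero => simp [hf0]
    | succ L ih => rw [(hf L).2.2.2.1, ih, sum_range_succ]
  have hD : ∀ L : ℕ, (max 0 (f L).2.2.2.1) ^ 2 + ∑ σ ∈ F, (f L).2.2.2.2 σ ^ 2 ≤ L * R' := by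
    intro L
    induction L with
    | zero => simp [hf0]
    | succ L ih => have := (hf L).2.2.2.2; push_cast; linarith
  have hD' : (max 0 (f (n j)).2.2.2.1) ^ 2 + ∑ σ ∈ F, (f (n j)).2.2.2.2 σ ^ 2 ≤
      (η / 2 * n j) ^ 2 := (hD _).trans (by nlinarith)
  have hs0 : 0 ≤ ∑ σ ∈ F, (f (n j)).2.2.2.2 σ ^ 2 := sum_nonneg fun _ _ => sq_nonneg _
  have hAle : (f (n j)).2.2.2.1 ≤ η / 2 * n j := (le_max_right 0 _).trans ((le_abs_self _).trans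
    (abs_le_of_sq_le_sq (by linarith) (by positivity)))
  have hSle : ∀ σ ∈ F, |(f (n j)).2.2.2.2 σ| ≤ η / 2 * n j := fun σ hσ =>
    abs_le_of_sq_le_sq ((single_le_sum (f := fun σ => (f (n j)).2.2.2.2 σ ^ 2)
      (fun _ _ => sq_nonneg _) hσ).trans (by nlinarith [sq_nonneg (max 0 (f (n j)).2.2.2.1)]))
      (by positivity)
  have hG := low hj2 (B := range (n j)) (by simp) c (fun l => c (l + 1))
    (fun r _ s _ h => hc.monotone h) φ fun l _ => (hf l).2.1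
  obtain ⟨g, hg⟩ := hG.rat
  have hSel : Sel (range (n j)) (fun l => val (y l)) j 1 := by
    intro i _
    obtain ⟨q₀, hq₀⟩ := exists_blk hc i
    refine ⟨q₀, fun k _ hk ψ hψ => ?_⟩
    rcases hq₀ k hk with h | h
    · exact ((hf k).1.2.2.2.2.1 i h ψ hψ).trans
        (div_le_div_of_nonneg_left zero_le_one (mR_pos _) (mR_mono (min_le_left _ _)))
    · exact (((hf k).1.2.2.2.2.2.1 i h ψ hψ).trans hε1).trans
        (div_le_div_of_nonneg_left zero_le_one (mR_pos _) (mR_mono (min_le_right _ _)))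
  obtain ⟨hz1, hz2⟩ := exact_est (hyb.succ hc (range (n j))) zero_le_one
    (fun l _ => (hf l).1.2.2.2.1) (card_range _).le (Nn_le j) hSel
  have hpos : (0 : ℝ) ≤ m j / n j := by positivity
  have hn0 : 0 < n j := by have := lt_n j; omega
  refine ⟨c (n j), ((m j : ℝ) / n j) • ∑ l ∈ range (n j), y l, g, hc0 ▸ hc hn0, fun a ha => ?_,
    fun a ha => ?_, by simpa using hz1, by simpa using hz2, hg ▸ hG, fun x => ?_, ?_,
    fun a b ha hb => ?_, ?_⟩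
  · obtain ⟨l, -, hl⟩ := exists_of_val_smul_sum ha
    exact (hcM l).trans ((hyb l).1 a hl)
  · obtain ⟨l, hl, hla⟩ := exists_of_val_smul_sum ha
    exact ((hyb l).2 a hla).trans_le (hc.monotone (mem_range.1 hl))
  · rw [hg, node_apply, node_apply]
    congr 1
    refine sum_congr rfl fun l hl => ?_
    rw [pr_pr, max_eq_left (hcM l), min_eq_left (hc.monotone (mem_range.1 hl))]
  · have h1 := sum_le_sum fun l (hl : l ∈ range (n j)) =>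
      node_low hc hl hG.K (hf l).1.2.2.2.2.2.2.2
    rw [← hg, sum_sub_distrib, ← sum_div, sum_const, card_range, nsmul_eq_mul] at h1
    simp only [map_smul, map_sum, smul_eq_mul]
    refine le_trans ?_ (mul_le_mul_of_nonneg_left h1 hpos)
    rw [hA] at hAle
    have h2 : (m j : ℝ) / n j * ((∑ l ∈ range (n j), φ l (pr (c l) (c (l + 1)) (val (T₀ (y l))))) /
        m j - n j * ε) = (∑ l ∈ range (n j), φ l (pr (c l) (c (l + 1)) (val (T₀ (y l))))) / n j -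
          m j * ε := by field_simp
    refine le_trans ?_ h2.ge
    rw [le_sub_iff_add_le, le_div_iff₀ hL]
    nlinarith
  · have h1 : ∀ l ∈ range (n j), ev g (Sw a (Tw b (val (y l)))) =
        φ l (pr (c l) (c (l + 1)) (Sw a (Tw b (val (y l))))) / m j := fun l hl => by
      have h2 := (hf l).1.2.2.2.2.2.2.1 a b ha hb
      rw [← node_pr j hc φ hl, pr_eq_self h2.1 h2.2, hg]
    have h2 := hSle (a, b) ((hmem _).2 ⟨ha, hb⟩)
    rw [hS] at h2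
    simp only [map_smul, map_sum, smul_eq_mul]
    rw [sum_congr rfl h1, ← sum_div, div_mul_div_comm, mul_comm (n j : ℝ), mul_div_mul_left _ _ hm.ne',
      abs_div, abs_of_pos hL, div_le_iff₀ hL]
    exact h2.trans (by nlinarith)
  · simp only [map_smul, map_sum, norm_smul, Real.norm_of_nonneg hpos]
    rw [← mul_add]
    have h1 := add_le_add (norm_sum_le (range (n j)) fun l => P 0 M (T₀ (y l)))
      (norm_sum_le (range (n j)) fun l => Q (c (n j)) (T₀ (y l)))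
    rw [← sum_add_distrib] at h1
    have h2 := sum_le_sum fun l (hl : l ∈ range (n j)) => (add_le_add (head_mono (hcM l) (T₀ (y l)))
      (Q_mono (hc.monotone (mem_range.1 hl)) (T₀ (y l)))).trans (hf l).1.2.2.2.2.2.2.2
    rw [sum_const, card_range, nsmul_eq_mul] at h2
    refine (mul_le_mul_of_nonneg_left (h1.trans h2) hpos).trans ?_
    rw [div_mul_eq_mul_div, mul_left_comm, mul_div_cancel_left₀ _ hL.ne']
    linarith

theorem approx (T₀ : X →L[ℝ] X) {δ : ℝ} (hδ : 0 < δ) : ∃ U ∈ Alg, Sm (T₀ - U) δ := by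
  by_contra H
  push Not at H
  obtain ⟨h, hh, hm⟩ := exists_m_gt (48 * ‖T₀‖ / δ) 1 (by norm_num)
  have hmp := mR_pos h
  have hnp := nR_pos h
  set η : ℝ := min (δ / 8 / m h) (2 / (n h * n h)) with hη
  have hη0 : 0 < η := by positivity
  have hη1 : η ≤ δ / 8 / m h := min_le_left _ _
  choose J hJ using fun M => inner hδ H M hη0
  obtain ⟨f, hf0, hf⟩ := exists_chain (fun p q : ℕ × ℕ × X × (ℕ →₀ ℚ) =>
    q.2.1 = enc (p.2.1, q.2.2.2) + 1 ∧ p.1 < q.1 ∧ Lo p.1 (val q.2.2.1) ∧ Hi q.1 (val q.2.2.1) ∧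
      ‖q.2.2.1‖ ≤ 2 ∧ (∀ i φ, W (i + 1) φ → i ≠ 2 * (n h + Nat.pair (J p.1) p.2.1) →
        |φ (val q.2.2.1)| ≤ 2 / m (min i (2 * (n h + Nat.pair (J p.1) p.2.1)))) ∧
      W (2 * (n h + Nat.pair (J p.1) p.2.1) + 1) (ev q.2.2.2) ∧
      (∀ x, ev q.2.2.2 (pr p.1 q.1 x) = ev q.2.2.2 x) ∧
      δ / 2 - η ≤ ev q.2.2.2 (val (T₀ q.2.2.1)) ∧
      (∀ a b : Wd, a.length ≤ p.1 → b.length ≤ p.1 →
        |ev q.2.2.2 (Sw a (Tw b (val q.2.2.1)))| ≤ η) ∧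
      ‖P 0 p.1 (T₀ q.2.2.1)‖ + ‖Q q.1 (T₀ q.2.2.1)‖ ≤ η) (fun p => by
    obtain ⟨c', z, g, H⟩ := hJ p.1 (2 * (n h + Nat.pair (J p.1) p.2.1))
      (by have := Nat.left_le_pair (J p.1) p.2.1; omega) (by omega)
    exact ⟨(c', enc (p.2.1, g) + 1, z, g), rfl, H⟩) (0, 0, 0, 0)
  set c : ℕ → ℕ := fun l => (f l).1 with hc'
  set z : ℕ → X := fun l => (f (l + 1)).2.2.1 with hz
  set g : ℕ → ℕ →₀ ℚ := fun l => (f (l + 1)).2.2.2 with hg
  set u : ℕ → ℕ := fun l => J (c l) with hu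
  have hc : StrictMono c := strictMono_nat_of_lt_succ fun l => (hf l).2.1
  have hhist : ∀ r, (f r).2.1 = hist g r := by
    intro r
    induction r with
    | zero => simp [hf0, hist]
    | succ r ih => rw [(hf r).1, hist, ih]
  have hcode : ∀ r, 2 * (n h + Nat.pair (J (f r).1) (f r).2.1) = code h g u r := fun r => by
    rw [hhist]; rfl
  have hΓ := W.node h (range (n h)) c (fun r => c (r + 1)) (fun r => code h g u r + 1)
    (fun r => ev (g r)) (by simp) (fun r _ s _ h => hc.monotone h)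
    (fun r _ => hcode r ▸ (hf r).2.2.2.2.2.2.1) fun _ =>
      ⟨g, u, [], [], 0, c (n h), 1, by simp, fun r hr => ⟨rfl, fun x => by
        rw [one_mul, Sw_nil, Tw_nil, LinearMap.comp_apply,
          ← (hf r).2.2.2.2.2.2.2.1 (pr 0 (c (n h)) x), pr_pr, Nat.max_zero,
          min_eq_left (hc.monotone (mem_range.1 hr))]⟩⟩
  have hup : ‖∑ r ∈ range (n h), z r‖ ≤ 6 * 2 * (n h / m (h + 1)) := by
    have hsp := special hh (fun r => val (z r)) g u hc (B := range (n h)) (by simp)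
      (fun r => ⟨(hf r).2.2.1, (hf r).2.2.2.1⟩) (fun r x hx => by
        rw [← (hf r).2.2.2.2.2.2.2.1 x, pr_eq_zero fun a ha => Or.inr (hx a ha), map_zero])
      (C := 2) (by norm_num) (fun r φ hφ => (le_norm hφ _).trans (hf r).2.2.2.2.1)
      (fun r i φ hφ hi => by
        rw [← hcode] at hi ⊢
        exact (hf r).2.2.2.2.2.1 i φ hφ hi)
      fun r a b ha hb => ((hf r).2.2.2.2.2.2.2.2.2.1 a b ha hb).trans (min_le_right _ _)
    refine norm_le fun φ hφ => le_trans ?_ (hsp φ hφ)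
    rw [map_sum, map_sum]
    exact abs_sum_le_sum_abs _ _
  have h1 : ∀ r ∈ range (n h), δ / 4 / m h ≤ ((m h : ℝ)⁻¹ • ∑ r ∈ range (n h),
      ev (g r) ∘ₗ pr (c r) (c (r + 1))) (val (T₀ (z r))) := fun r hr => by
    refine le_trans ?_ (node_low hc hr hΓ.K (hf r).2.2.2.2.2.2.2.2.2.2)
    rw [(hf r).2.2.2.2.2.2.2.1]
    have h2 := div_le_div_of_nonneg_right (hf r).2.2.2.2.2.2.2.2.1 hmp.le
    have h3 : η ≤ δ / 8 := hη1.trans (div_le_self (by positivity) (by linarith [two_le_mR h]))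
    have h4 : (δ / 2 - δ / 8) / m h ≤ (δ / 2 - η) / m h :=
      div_le_div_of_nonneg_right (by linarith) hmp.le
    have h5 : (δ / 2 - δ / 8) / m h = δ / 4 / m h + δ / 8 / m h := by ring
    linarith
  have h2 := sum_le_sum h1
  rw [sum_const, card_range, nsmul_eq_mul, ← map_sum, ← map_sum, ← map_sum] at h2
  have h3 := (h2.trans ((le_abs_self _).trans (le_norm hΓ.K _))).trans
    (T₀.le_of_opNorm_le_of_le le_rfl hup)
  rw [mR_succ] at h3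
  have h4 : ‖T₀‖ * (6 * 2 * (n h / (m h * m h))) = n h * (12 * ‖T₀‖ / m h / m h) := by
    field_simp; ring
  rw [h4] at h3
  have h5 := (div_le_div_iff_of_pos_right hmp).1 (le_of_mul_le_mul_left h3 hnp)
  rw [div_lt_iff₀ hδ] at hm
  rw [le_div_iff₀ hmp] at h5
  linarith

end Pool.Agent.H145Z.PF
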