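import Pool.Agent.H145Z.PF.E

set_option autoImplicit false
set_option linter.unusedSectionVars false

open Finset Filter Topology Module

noncomputable section

namespace Pool.Agent.H145Z.PF

section path

variable {E Y : Type*} [NormedAddCommGroup E] [NormedSpace ℝ E] [CompleteSpace E]
  [NormedAddCommGroup Y] [NormedSpace ℝ Y] [CompleteSpace Y]

lemma coprod_inj {A : E →L[ℝ] Y} (hA : Function.Injective A) {F : Submodule ℝ Y}
    (hF : Disjoint F A.range) : (A.coprod F.subtypeL).ker = ⊥ := by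
  rw [LinearMap.ker_eq_bot']
  rintro ⟨x, f⟩ h
  have h1 : A x + f = 0 := h
  have h2 : (f : Y) = 0 := (Submodule.disjoint_def.1 hF) _ f.2
    ⟨-x, by simpa using (eq_neg_of_add_eq_zero_left h1).symm ▸ neg_neg _⟩
  rw [h2, add_zero] at h1
  exact Prod.ext (hA (by simpa using h1)) (Subtype.ext h2)

lemma range_cop (A : E →L[ℝ] Y) (F : Submodule ℝ Y) :
    (A.coprod F.subtypeL).range = A.range ⊔ F := by
  rw [ContinuousLinearMap.range_coprod]
  congr 1
  exact F.range_subtype

lemma small_compl {Z : Submodule ℝ Y} {k : ℕ}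
    (h : ¬ ∃ F : Submodule ℝ Y, FiniteDimensional ℝ F ∧ k < finrank ℝ F ∧ Disjoint F Z) :
    ∃ G : Submodule ℝ Y, FiniteDimensional ℝ G ∧ finrank ℝ G ≤ k ∧ IsCompl Z G := by
  obtain ⟨G, hG⟩ := Z.exists_isCompl
  have h1 : Module.rank ℝ G ≤ k := rank_le fun s hs => by
    by_contra h2
    refine h ⟨(Submodule.span ℝ (s : Set G)).map G.subtype, inferInstance, ?_,
      hG.disjoint.symm.mono_left (Submodule.map_subtype_le _ _)⟩
    rw [Submodule.finrank_map_subtype_eq, finrank_span_finset_eq_card hs]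
    omega
  exact ⟨G, Module.rank_lt_aleph0_iff.1 (h1.trans_lt (Cardinal.natCast_lt_aleph0)),
    finrank_le_of_rank_le h1, hG⟩

lemma finrank_le_of_sup {Z F G : Submodule ℝ Y} [FiniteDimensional ℝ G] (h : Z ⊔ G = ⊤)
    (hF : Disjoint F Z) : finrank ℝ F ≤ finrank ℝ G := by
  have h1 : Function.Surjective (Z.mkQ ∘ₗ G.subtype) := by
    rw [← LinearMap.range_eq_top, LinearMap.range_comp, Submodule.range_subtype,
      Submodule.map_mkQ_eq_top, h]
  have h2 : Function.Injective (Z.mkQ ∘ₗ F.subtype) := by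
    rw [← LinearMap.ker_eq_bot, LinearMap.ker_comp, Submodule.ker_mkQ,
      ← Submodule.disjoint_iff_comap_eq_bot]
    exact hF
  have := Module.Finite.of_surjective _ h1
  exact (LinearMap.finrank_le_finrank_of_injective h2).trans
    (LinearMap.finrank_le_finrank_of_surjective h1)

theorem path_inv (A D : E →L[ℝ] Y) {γ : ℝ} (hγ : 0 < γ)
    (hb : ∀ s ∈ Set.Icc (0 : ℝ) 1, ∀ x, γ * ‖x‖ ≤ ‖(A + s • D) x‖)
    (F₀ : Submodule ℝ Y) [FiniteDimensional ℝ F₀] (h0 : A.range ⊔ F₀ = ⊤) :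
    ∃ L : Y →L[ℝ] E, ∀ x, L ((A + D) x) = x := by
  have hanti : ∀ s ∈ Set.Icc (0 : ℝ) 1, AntilipschitzWith ⟨γ⁻¹, by positivity⟩ (A + s • D) :=
    fun s hs => ContinuousLinearMap.antilipschitz_of_bound _ fun x => by
      show _ ≤ γ⁻¹ * _
      rw [← div_eq_inv_mul, le_div_iff₀' hγ]
      exact hb s hs x
  set p : ℝ → Prop := fun s => ∃ F : Submodule ℝ Y, FiniteDimensional ℝ F ∧
    finrank ℝ F₀ < finrank ℝ F ∧ Disjoint F (A + s • D).range with hp
  have key : p 0 ↔ p 1 := by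
    refine isPreconnected_Icc.induction₂ (fun s t => p s ↔ p t) (fun s hs => ?_)
      (fun _ _ _ _ _ _ => Iff.trans) (fun _ _ _ _ => Iff.symm) ⟨le_rfl, zero_le_one⟩
      ⟨zero_le_one, le_rfl⟩
    refine Eventually.filter_mono nhdsWithin_le_nhds ?_
    by_cases h : p s
    · obtain ⟨F, h1, h2, h3⟩ := h
      obtain ⟨C, hC⟩ := ((A + s • D).coprod F.subtypeL).antilipschitz_of_injective_of_isClosed_range
        (LinearMap.ker_eq_bot.1 (coprod_inj (hanti s hs).injective h3)) (by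
          have := Submodule.isClosed_sup_finiteDimensional (A + s • D).range F
            ((hanti s hs).isClosed_range (A + s • D).uniformContinuous)
          rwa [← range_cop] at this)
      have h4 : Tendsto (fun t => C * (|s - t| * ‖D‖)) (𝓝 s) (𝓝 (C * (|s - s| * ‖D‖))) :=
        Continuous.tendsto (by fun_prop) s
      filter_upwards [h4.eventually (eventually_lt_nhds (show _ < 1 by simp))] with t ht
      refine iff_of_true ⟨F, h1, h2, h3⟩ ⟨F, h1, h2, Submodule.disjoint_def.2 ?_⟩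
      rintro _ hf ⟨x, rfl⟩
      have h5 := hC.le_mul_dist (x, -⟨_, hf⟩) 0
      rw [map_zero, dist_zero_right, dist_zero_right] at h5
      have h6 : ((A + s • D).coprod F.subtypeL) (x, -⟨_, hf⟩) = (s - t) • D x := by
        simp [sub_smul]
        abel
      rw [h6, norm_smul, Real.norm_eq_abs] at h5
      have h7 := (norm_fst_le _).trans h5
      have h8 : (C : ℝ) * (|s - t| * ‖D x‖) ≤ C * (|s - t| * ‖D‖) * ‖x‖ := by
        rw [mul_assoc, mul_assoc]
        gcongr
        exact D.le_opNorm x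
      have h9 : ‖x‖ = 0 := by nlinarith [norm_nonneg x]
      rw [norm_eq_zero.1 h9, map_zero]
    · obtain ⟨G, h1, h2, h3⟩ := small_compl h
      have h4 : Continuous fun t : ℝ => A.coprod G.subtypeL + t • D.comp (.fst ℝ E G) := by
        fun_prop
      have h5 : ∀ t : ℝ, A.coprod G.subtypeL + t • D.comp (.fst ℝ E G) =
          (A + t • D).coprod G.subtypeL := fun t => by ext <;> simp
      have h6 := (ContinuousLinearEquiv.isOpen.preimage h4).mem_nhds (x := s)
        ⟨ContinuousLinearEquiv.ofBijective _ (coprod_inj (hanti s hs).injective h3.disjoint.symm)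
          (by rw [range_cop, h3.sup_eq_top]),
          (h5 s).symm⟩
      filter_upwards [h6] with t ht
      refine iff_of_false h ?_
      rintro ⟨F, -, h7, h8⟩
      obtain ⟨B, hB⟩ := ht
      have h9 : (A + t • D).range ⊔ G = ⊤ := by
        rw [← range_cop, ← (hB.trans (h5 t))]
        exact LinearMap.range_eq_top.2 B.surjective
      have := finrank_le_of_sup h9 h8
      omega
  have h1 : ¬ p 1 := by
    rw [← key]
    rintro ⟨F, -, h1, h2⟩
    have := finrank_le_of_sup (by simpa using h0) h2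
    omega
  obtain ⟨G, h2, -, h3⟩ := small_compl h1
  set B := ContinuousLinearEquiv.ofBijective _
    (coprod_inj (hanti 1 ⟨zero_le_one, le_rfl⟩).injective h3.disjoint.symm)
    (by rw [range_cop, h3.sup_eq_top]) with hB
  refine ⟨(ContinuousLinearMap.fst ℝ E G).comp (B.symm : Y →L[ℝ] E × G), fun x => ?_⟩
  have h4 : B (x, 0) = (A + D) x := by simp [hB]
  rw [← h4]
  simp

end path

lemma LB_unif {R : X →L[ℝ] X} (hR : Sm R (1 / 8)) : ∃ N, ∃ γ : ℝ, 0 < γ ∧
    ∀ s ∈ Set.Icc (0 : ℝ) 1, ∀ x, Lo N (val x) → γ * ‖x‖ ≤ ‖x + s • R x‖ := by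
  refine isCompact_Icc.induction_on (p := fun A => ∃ N, ∃ γ : ℝ, 0 < γ ∧
    ∀ s ∈ A, ∀ x, Lo N (val x) → γ * ‖x‖ ≤ ‖x + s • R x‖) ⟨0, 1, one_pos, by simp⟩
    (fun A B hAB ⟨N, γ, h1, h2⟩ => ⟨N, γ, h1, fun s hs => h2 s (hAB hs)⟩) ?_ fun s hs => ?_
  · rintro A B ⟨N, γ, h1, h2⟩ ⟨N', γ', h1', h2'⟩
    refine ⟨max N N', min γ γ', lt_min h1 h1', fun s hs x hx => ?_⟩
    rcases hs with hs | hs
    · exact (mul_le_mul_of_nonneg_right (min_le_left _ _) (norm_nonneg _)).trans
        (h2 s hs x (hx.mono (le_max_left _ _)))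
    · exact (mul_le_mul_of_nonneg_right (min_le_right _ _) (norm_nonneg _)).trans
        (h2' s hs x (hx.mono (le_max_right _ _)))
  · obtain ⟨N, γ, h1, h2⟩ := LB ((hR.smul s).mono (by
      rw [abs_of_nonneg hs.1]; linarith [hs.2]))
    have h4 : Tendsto (fun t => |s - t| * ‖R‖) (𝓝 s) (𝓝 (|s - s| * ‖R‖)) :=
      Continuous.tendsto (by fun_prop) s
    refine ⟨_, mem_nhdsWithin_of_mem_nhds (h4.eventually (eventually_le_nhds
      (show _ < γ / 2 by simpa using h1))), N, γ / 2, half_pos h1, fun t ht x hx => ?_⟩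
    have h5 := h2 x hx
    have h6 : x + (s • R) x = x + t • R x + (s - t) • R x := by simp [sub_smul]
    have h7 := norm_add_le (x + t • R x) ((s - t) • R x)
    rw [← h6, norm_smul, Real.norm_eq_abs] at h7
    have h8 : |s - t| * ‖R x‖ ≤ γ / 2 * ‖x‖ :=
      (mul_le_mul_of_nonneg_left (R.le_opNorm x) (abs_nonneg _)).trans
        (by rw [← mul_assoc]; exact mul_le_mul_of_nonneg_right ht (norm_nonneg _))
    linarith

lemma Lo_of_P {N : ℕ} {x : X} (h : P 0 N x = 0) : Lo N (val x) := fun a ha => by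
  by_contra hlt
  have := congrArg (fun z => val z a) h
  simp only [val_P, pr_apply, map_zero, Pi.zero_apply] at this
  rw [if_pos (by omega)] at this
  exact ha this

lemma P_of_Lo {N : ℕ} {x : X} (h : Lo N (val x)) : P 0 N x = 0 :=
  X.ext' (by rw [val_P, pr_eq_zero fun a ha => Or.inr (h a ha), map_zero])

lemma T_pow_S_pow (i : Fin 4) (N : ℕ) : T i ^ N * S i ^ N = 1 := by
  induction N with
  | zero => simp
  | succ N ih => rw [pow_succ, pow_succ', mul_assoc, ← mul_assoc (T i), T_mul_S]; simpa using ih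

lemma Lo_S_pow (N : ℕ) (x : X) : Lo N (val ((S 0 ^ N) x)) := by
  induction N with
  | zero => exact fun _ _ => Nat.zero_le _
  | succ N ih => rw [pow_succ']; exact ih.Sr 0

theorem factor {R : X →L[ℝ] X} (hR : Sm R (1 / 8)) : ∃ A B : X →L[ℝ] X, A * (1 + R) * B = 1 := by
  obtain ⟨N, γ, hγ, h⟩ := LB_unif hR
  have : CompleteSpace (P 0 N).ker := (P 0 N).isClosed_ker.completeSpace_coe
  have : FiniteDimensional ℝ (Submodule.span ℝ (e '' (range N : Set ℕ))) :=
    FiniteDimensional.span_of_finite ℝ (Finset.finite_toSet _ |>.image _)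
  obtain ⟨L, hL⟩ := path_inv (P 0 N).ker.subtypeL (R.comp (P 0 N).ker.subtypeL) hγ
    (fun s hs x => h s hs x (Lo_of_P x.2)) (Submodule.span ℝ (e '' (range N : Set ℕ))) (by
      rw [eq_top_iff]
      intro x _
      rw [← P_add_Q N x, add_comm]
      refine Submodule.add_mem_sup ⟨⟨Q N x, P_of_Lo fun a ha => ?_⟩, rfl⟩ ?_
      · rw [val_Q, tl_apply] at ha
        by_contra h1
        exact ha (if_neg h1)
      · rw [eq_sum_e (x := P 0 N x) (range N) fun a ha => mem_range.2 (Hi_pr _ _ _ a ha)]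
        exact Submodule.sum_mem _ fun a ha => Submodule.smul_mem _ _
          (Submodule.subset_span ⟨a, by simpa using ha, rfl⟩))
  refine ⟨(T 0 ^ N) * ((P 0 N).ker.subtypeL.comp L), S 0 ^ N, ?_⟩
  refine Eq.trans ?_ (T_pow_S_pow 0 N)
  ext1 x
  have := congrArg Subtype.val (hL ⟨(S 0 ^ N) x, P_of_Lo (Lo_S_pow N x)⟩)
  simp only [mul_apply_eq_comp]
  congr 1

lemma TW_S_pow (b : Wd) : (∀ M, TW b * S 0 ^ (b.length + M) = S 0 ^ M) ∨
    ∀ M, TW b * S 0 ^ (b.length + M) = 0 := by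
  induction b with
  | nil => left; intro M; simp [TW]
  | cons i b ih =>
    have h : ∀ M, TW (i :: b) * S 0 ^ ((i :: b).length + M) =
        TW b * (T i * S 0) * S 0 ^ (b.length + M) := fun M => by
      rw [TW, List.length_cons, add_right_comm, pow_succ']
      simp only [mul_assoc]
    by_cases hi : i = 0
    · simpa only [h, T_mul_S, if_pos hi, mul_one] using ih
    · right; intro M; rw [h, T_mul_S, if_neg hi]; simp

lemma T_pow_SW (a : Wd) : (∀ M, T 0 ^ (a.length + M) * SW a = T 0 ^ M) ∨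
    ∀ M, T 0 ^ (a.length + M) * SW a = 0 := by
  induction a with
  | nil => left; intro M; simp [SW]
  | cons i a ih =>
    have h : ∀ M, T 0 ^ ((i :: a).length + M) * SW (i :: a) =
        T 0 ^ (a.length + M) * (T 0 * S i) * SW a := fun M => by
      rw [SW, List.length_cons, add_right_comm, pow_succ]
      simp only [mul_assoc]
    by_cases hi : 0 = i
    · simpa only [h, T_mul_S, if_pos hi, mul_one] using ih
    · right; intro M; rw [h, T_mul_S, if_neg hi]; simp

lemma mid (p q : ℕ) : T 1 * (T 0 ^ p * S 0 ^ q) * S 1 = if p = q then 1 else 0 := by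
  rcases lt_trichotomy p q with h | rfl | h
  · obtain ⟨d, rfl⟩ := Nat.exists_eq_add_of_lt h
    rw [if_neg h.ne, add_assoc, pow_add, ← mul_assoc (T 0 ^ p), T_pow_S_pow, one_mul, pow_succ',
      ← mul_assoc, T_mul_S]
    simp
  · rw [T_pow_S_pow, mul_one, T_mul_S]; simp
  · obtain ⟨d, rfl⟩ := Nat.exists_eq_add_of_lt h
    rw [if_neg h.ne', add_assoc, add_comm q, pow_add, mul_assoc (T 0 ^ (d + 1)), T_pow_S_pow,
      mul_one, pow_succ, mul_assoc, mul_assoc, T_mul_S]
    simp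

lemma compress {U : X →L[ℝ] X} (hU : U ∈ Alg) : ∃ c : ℝ, ∀ᶠ M in atTop,
    T 1 * T 0 ^ M * U * (S 0 ^ M * S 1) = c • 1 := by
  induction hU using Submodule.span_induction with
  | mem U hU =>
    obtain ⟨⟨a, b⟩, rfl⟩ := hU
    have h : ∀ M, T 1 * T 0 ^ M * (SW a * TW b) * (S 0 ^ M * S 1) =
        T 1 * ((T 0 ^ M * SW a) * (TW b * S 0 ^ M)) * S 1 := fun M => by simp only [mul_assoc]
    have h1 : ∀ᶠ M in atTop, a.length ≤ M ∧ b.length ≤ M :=
      (eventually_ge_atTop _).and (eventually_ge_atTop _)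
    rcases T_pow_SW a with ha | ha
    · rcases TW_S_pow b with hb | hb
      · refine ⟨if a.length = b.length then 1 else 0, h1.mono fun M hM => ?_⟩
        have h2 := ha (M - a.length)
        have h3 := hb (M - b.length)
        rw [Nat.add_sub_cancel' hM.1] at h2
        rw [Nat.add_sub_cancel' hM.2] at h3
        rw [h, h2, h3, mid]
        split_ifs <;> first | omega | simp
      · refine ⟨0, h1.mono fun M hM => ?_⟩
        have h3 := hb (M - b.length)
        rw [Nat.add_sub_cancel' hM.2] at h3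
        rw [h, h3]; simp
    · refine ⟨0, h1.mono fun M hM => ?_⟩
      have h2 := ha (M - a.length)
      rw [Nat.add_sub_cancel' hM.1] at h2
      rw [h, h2]; simp
  | zero => exact ⟨0, by simp⟩
  | add U U' _ _ h1 h2 =>
    obtain ⟨c, hc⟩ := h1
    obtain ⟨c', hc'⟩ := h2
    refine ⟨c + c', ?_⟩
    filter_upwards [hc, hc'] with M h3 h4
    rw [mul_add, add_mul, h3, h4, add_smul]
  | smul t U _ h1 =>
    obtain ⟨c, hc⟩ := h1
    refine ⟨t * c, hc.mono fun M h3 => ?_⟩
    rw [mul_smul_comm, smul_mul_assoc, h3, smul_smul]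

lemma Sm.S_pow {A : X →L[ℝ] X} {δ : ℝ} (h : Sm A δ) (M : ℕ) : Sm (A * PF.S 0 ^ M) δ := by
  induction M with
  | zero => simpa using h
  | succ M ih => rw [pow_succ, ← mul_assoc]; exact ih.S 0

lemma factor' {A R U U' : X →L[ℝ] X} {c : ℝ} (hc : 1 / 2 ≤ |c|) (hR : Sm R (1 / 16))
    (h : U * A * U' = c • 1 + R) : ∃ A' B : X →L[ℝ] X, A' * A * B = 1 := by
  have hc0 : c ≠ 0 := by rintro rfl; norm_num at hc
  obtain ⟨A', B, hAB⟩ := factor ((hR.smul c⁻¹).mono (by
    rw [abs_inv, ← div_eq_inv_mul, div_le_iff₀ (by linarith)]; linarith))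
  refine ⟨A' * (c⁻¹ • U), U' * B, ?_⟩
  rw [← hAB]
  have : (1 : X →L[ℝ] X) + c⁻¹ • R = c⁻¹ • (U * A * U') := by
    rw [h, smul_add, smul_smul, inv_mul_cancel₀ hc0, one_smul]
  rw [this]
  simp only [mul_assoc, smul_mul_assoc, mul_smul_comm]

theorem pfp (A : X →L[ℝ] X) :
    (∃ A' B : X →L[ℝ] X, A' * A * B = 1) ∨ ∃ A' B : X →L[ℝ] X, A' * (1 - A) * B = 1 := by
  obtain ⟨U, hU, hs⟩ := approx A (δ := 1 / 16) (by norm_num)
  obtain ⟨c, hc⟩ := compress hU
  obtain ⟨M, hM⟩ := hc.exists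
  have hn : ‖T 1 * T 0 ^ M‖ ≤ 1 := by
    refine (norm_mul_le _ _).trans (mul_le_one₀ (opNorm_T 1) (norm_nonneg _) ?_)
    induction M with
    | zero => exact ContinuousLinearMap.norm_id_le
    | succ M _ => exact (norm_pow_le' _ (by omega)).trans (pow_le_one₀ (norm_nonneg _) (opNorm_T 0))
  have hR : Sm (T 1 * T 0 ^ M * ((A - U) * S 0 ^ M * S 1)) (1 / 16) := by
    simpa using ((hs.S_pow M).S 1).left _ hn
  have h1 : T 1 * T 0 ^ M * A * (S 0 ^ M * S 1) =
      c • 1 + T 1 * T 0 ^ M * ((A - U) * S 0 ^ M * S 1) := by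
    rw [← hM]; noncomm_ring
  by_cases h : 1 / 2 ≤ |c|
  · exact Or.inl (factor' h hR h1)
  · refine Or.inr (factor' (c := 1 - c) (U := T 1 * T 0 ^ M) (U' := S 0 ^ M * S 1) ?_ hR.neg ?_)
    · have := (abs_lt.1 (not_le.1 h)).2
      rw [abs_of_nonneg] <;> linarith
    · have h2 := mid M M
      rw [if_pos rfl] at h2
      have h3 : T 1 * T 0 ^ M * 1 * (S 0 ^ M * S 1) = 1 := by
        rw [mul_one, ← mul_assoc, mul_assoc (T 1), h2]
      rw [mul_sub, sub_mul, h1, h3, sub_smul, one_smul]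
      abel

end Pool.Agent.H145Z.PF
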