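import Mathlib

set_option autoImplicit false

open Module

noncomputable section

namespace Pool.Agent.H145Z.PF

variable {M N L : Type*} [AddCommGroup M] [Module ℝ M] [AddCommGroup N] [Module ℝ N]
  [AddCommGroup L] [Module ℝ L]

/-- algebraic Fredholm maps -/
def Fr (f : M →ₗ[ℝ] N) : Prop := FiniteDimensional ℝ f.ker ∧ FiniteDimensional ℝ (N ⧸ f.range)

lemma Fr.comp {f : M →ₗ[ℝ] N} {g : N →ₗ[ℝ] L} (hg : Fr g) (hf : Fr f) :
    Fr (g ∘ₗ f) ∧ (g ∘ₗ f).index = g.index + f.index := by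
  obtain ⟨h1, h2⟩ := hf
  obtain ⟨h3, h4⟩ := hg
  refine ⟨⟨?_, ?_⟩, LinearMap.index_comp g⟩
  · rw [LinearMap.ker_comp]; infer_instance
  · rw [LinearMap.range_comp]; infer_instance

lemma index_congr {f g : M →ₗ[ℝ] N} (hf : Fr f) (hg : Fr g) (h : (f - g).HasFiniteRange) :
    f.index = g.index := by
  have h1 : Fr (f - g).ker.subtype := ⟨by rw [Submodule.ker_subtype]; infer_instance,
    by rw [Submodule.range_subtype]; exact h.cofg_ker⟩
  have h2 : f ∘ₗ (f - g).ker.subtype = g ∘ₗ (f - g).ker.subtype := by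
    ext x
    exact sub_eq_zero.1 x.2
  have h3 := (hf.comp h1).2
  have h4 := (hg.comp h1).2
  rw [h2] at h3
  omega

lemma Fr.of_quasi {f : M →ₗ[ℝ] N} {W₁ W₂ : N →ₗ[ℝ] M} (h1 : (W₁ ∘ₗ f - .id).HasFiniteRange)
    (h2 : (f ∘ₗ W₂ - .id).HasFiniteRange) : Fr f := by
  constructor
  · have : FiniteDimensional ℝ (W₁ ∘ₗ f - .id).range := Module.Finite.of_fg h1
    refine Submodule.finiteDimensional_of_le (S₂ := (W₁ ∘ₗ f - .id).range) fun x hx => ⟨-x, ?_⟩
    simp [LinearMap.mem_ker.1 hx]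
  · have : FiniteDimensional ℝ (f ∘ₗ W₂ - .id).range := Module.Finite.of_fg h2
    refine Module.Finite.of_surjective (f.range.mkQ ∘ₗ (f ∘ₗ W₂ - .id).range.subtype) fun y => ?_
    obtain ⟨y, rfl⟩ := f.range.mkQ_surjective y
    refine ⟨⟨_, -y, rfl⟩, ?_⟩
    simp

lemma Fr.equiv (e : M ≃ₗ[ℝ] N) : Fr e.toLinearMap :=
  Fr.of_quasi (W₁ := e.symm.toLinearMap) (W₂ := e.symm.toLinearMap) (by simp) (by simp)

lemma Fr.pi {f : M →ₗ[ℝ] N} (hf : Fr f) (k : ℕ) :
    Fr (f.compLeft (Fin k)) ∧ (f.compLeft (Fin k)).index = k * f.index := by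
  obtain ⟨h1, h2⟩ := hf
  let e₁ : (f.compLeft (Fin k)).ker ≃ₗ[ℝ] Fin k → f.ker :=
    { toFun := fun x i => ⟨x.1 i, congrFun x.2 i⟩
      map_add' := fun _ _ => rfl
      map_smul' := fun _ _ => rfl
      invFun := fun y => ⟨fun i => y i, funext fun i => (y i).2⟩
      left_inv := fun _ => rfl
      right_inv := fun _ => rfl }
  have h3 : (f.compLeft (Fin k)).range = Submodule.pi Set.univ fun _ => f.range := by
    ext y
    constructor
    · rintro ⟨x, rfl⟩ i _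
      exact ⟨x i, rfl⟩
    · intro hy
      choose x hx using fun i => hy i (Set.mem_univ i)
      exact ⟨x, funext hx⟩
  let e₂ := (Submodule.quotEquivOfEq _ _ h3).trans (Submodule.quotientPi fun _ => f.range)
  refine ⟨⟨e₁.symm.finiteDimensional, e₂.symm.finiteDimensional⟩, ?_⟩
  rw [LinearMap.index_eq_finrank_sub, LinearMap.index_eq_finrank_sub, e₁.finrank_eq, e₂.finrank_eq,
    finrank_pi_fintype, finrank_pi_fintype]
  simp [mul_sub]

theorem no_fredholm (f : M →ₗ[ℝ] Fin 2 → M) (hf : Fr f) (Λ : Fin 4 → M →ₗ[ℝ] M)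
    (R : Fin 4 → M →ₗ[ℝ] M) (hR : ∀ k l x, R k (Λ l x) = if k = l then x else 0)
    (π : M →ₗ[ℝ] ℝ) (hπ : Function.Surjective π) (h0 : ∀ k x, π (Λ k x) = 0)
    (h1 : ∀ x, π x = 0 → ∑ k, Λ k (R k x) = x)
    (hc : ∀ i k, (LinearMap.proj i ∘ₗ f ∘ₗ Λ k - Λ k ∘ₗ LinearMap.proj i ∘ₗ f).HasFiniteRange) :
    False := by
  set Γ : (Fin 4 → M) →ₗ[ℝ] M := ∑ k, Λ k ∘ₗ LinearMap.proj k with hΓ
  have hΓa : ∀ y, Γ y = ∑ k, Λ k (y k) := fun y => by simp [hΓ]
  have hinj : Function.Injective Γ := by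
    rw [← LinearMap.ker_eq_bot, LinearMap.ker_eq_bot']
    intro y hy
    funext k
    have := congrArg (R k) hy
    simpa [hΓa, hR] using this
  have hr : Γ.range = π.ker := by
    ext x
    constructor
    · rintro ⟨y, rfl⟩
      simp [hΓa, h0]
    · intro hx
      exact ⟨fun k => R k x, by rw [hΓa, h1 x hx]⟩
  let e := (Submodule.quotEquivOfEq _ _ hr).trans (π.quotKerEquivOfSurjective hπ)
  have hΓF : Fr Γ := ⟨by rw [LinearMap.ker_eq_bot.2 hinj]; infer_instance, e.symm.finiteDimensional⟩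
  have hΓi : Γ.index = -1 := by
    rw [LinearMap.index_of_injective hinj, e.finrank_eq]; simp
  let sw : (Fin 4 → Fin 2 → M) ≃ₗ[ℝ] Fin 2 → Fin 4 → M :=
    { toFun := fun y i k => y k i
      map_add' := fun _ _ => rfl
      map_smul' := fun _ _ => rfl
      invFun := fun y k i => y i k
      left_inv := fun _ => rfl
      right_inv := fun _ => rfl }
  have a1 := hf.comp hΓF
  have a2 := (Fr.equiv sw).comp (hf.pi 4).1
  have a3 := (hΓF.pi 2).1.comp a2.1
  have a4 := index_congr a1.1 a3.1 (by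
    have : f ∘ₗ Γ - Γ.compLeft (Fin 2) ∘ₗ sw.toLinearMap ∘ₗ f.compLeft (Fin 4) =
        ∑ i, ∑ k, LinearMap.single ℝ (fun _ => M) i ∘ₗ
          (LinearMap.proj i ∘ₗ f ∘ₗ Λ k - Λ k ∘ₗ LinearMap.proj i ∘ₗ f) ∘ₗ LinearMap.proj k := by
      refine LinearMap.ext fun y => funext fun i => ?_
      have h2 : (Γ.compLeft (Fin 2) ∘ₗ sw.toLinearMap ∘ₗ f.compLeft (Fin 4)) y i =
          ∑ k, Λ k (f (y k) i) := hΓa _
      rw [LinearMap.sub_apply, Pi.sub_apply, h2]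
      fin_cases i <;> simp [hΓa, Finset.sum_apply]
    rw [this, ← LinearMap.mem_finiteRange_iff_hasFiniteRange]
    refine Submodule.sum_mem _ fun i _ => Submodule.sum_mem _ fun k _ => ?_
    rw [LinearMap.mem_finiteRange_iff_hasFiniteRange]
    exact ((hc i k).comp_right _).comp_left _)
  rw [a1.2, a3.2, a2.2, (hΓF.pi 2).2, (hf.pi 4).2, hΓi, LinearEquiv.index_eq_zero] at a4
  omega

end Pool.Agent.H145Z.PF
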