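import Pool.Agent.H145Z.PF.F
import Pool.Agent.H145Z.PF.G

set_option autoImplicit false

open Finset Filter Topology

noncomputable section

namespace Pool.Agent.H145Z.PF

open Pool.Agent.H145Z.FP (m n mR_pos)

abbrev Y := lp (fun _ : ℕ => ℝ) 1

def dl (a : ℕ) : Y := lp.single 1 a 1

lemma dl_apply (a b : ℕ) : dl a b = if b = a then 1 else 0 := by
  simp [dl, lp.single_apply, Pi.single_apply]

lemma norm_dl (a : ℕ) : ‖dl a‖ = 1 := by simp [dl, lp.norm_single]

lemma hasSum_abs (x : Y) : HasSum (fun a => |x a|) ‖x‖ := by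
  simpa using lp.hasSum_norm (p := 1) (by simp) x

lemma hasSum_dl (x : Y) : HasSum (fun a => x a • dl a) x := by
  convert lp.hasSum_single (p := 1) (by simp) x using 2 with a
  rw [dl, ← lp.single_smul, smul_eq_mul, mul_one]

lemma ext_dl {Z : Type*} [NormedAddCommGroup Z] [NormedSpace ℝ Z] {A B : Y →L[ℝ] Z}
    (h : ∀ a, A (dl a) = B (dl a)) : A = B := by
  ext1 x
  refine ((hasSum_dl x).mapL A).unique ?_
  simpa [h] using (hasSum_dl x).mapL B

lemma summable_op (v : ℕ → Y) {C : ℝ} (hv : ∀ a, ‖v a‖ ≤ C) (x : Y) :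
    Summable fun a => ‖x a • v a‖ :=
  Summable.of_nonneg_of_le (fun _ => norm_nonneg _) (fun a => by
    rw [norm_smul, Real.norm_eq_abs]
    exact mul_le_mul_of_nonneg_left (hv a) (abs_nonneg _)) ((hasSum_abs x).summable.mul_right C)

def op (v : ℕ → Y) (C : ℝ) (hv : ∀ a, ‖v a‖ ≤ C) : Y →L[ℝ] Y :=
  LinearMap.mkContinuous
    { toFun := fun x => ∑' a, x a • v a
      map_add' := fun x y => by
        rw [← (summable_op v hv x).of_norm.tsum_add (summable_op v hv y).of_norm]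
        simp [add_smul]
      map_smul' := fun c x => by
        rw [← (summable_op v hv x).of_norm.tsum_const_smul]
        simp [mul_smul] } C
    fun x => tsum_of_norm_bounded ((hasSum_abs x).mul_left C) fun a => by
      rw [norm_smul, Real.norm_eq_abs, mul_comm]
      exact mul_le_mul_of_nonneg_right (hv a) (abs_nonneg _)

lemma op_dl (v : ℕ → Y) (C : ℝ) (hv : ∀ a, ‖v a‖ ≤ C) (a : ℕ) : op v C hv (dl a) = v a := by
  show ∑' b, dl a b • v b = v a
  rw [tsum_eq_single a fun b hb => by simp [dl_apply, hb]]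
  simp [dl_apply]

lemma norm_le_cols {A : Y →L[ℝ] Y} {C : ℝ} (h : ∀ a, ‖A (dl a)‖ ≤ C) : ‖A‖ ≤ C := by
  rw [show A = op _ C h from ext_dl fun a => (op_dl _ C h a).symm]
  exact LinearMap.mkContinuous_norm_le _ ((norm_nonneg _).trans (h 0)) _

/-- operators given by a map of a subset of the basis into the basis -/
def mp (p : ℕ → Prop) [DecidablePred p] (g : ℕ → ℕ) : Y →L[ℝ] Y :=
  op (fun a => if p a then dl (g a) else 0) 1 fun a => by split_ifs <;> simp [norm_dl]

lemma mp_dl (p : ℕ → Prop) [DecidablePred p] (g : ℕ → ℕ) (a : ℕ) :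
    mp p g (dl a) = if p a then dl (g a) else 0 := op_dl _ _ _ a

lemma fin_range {A : Y →L[ℝ] Y} {N : ℕ} (h : ∀ a, N ≤ a → A (dl a) = 0) :
    (A : Y →ₗ[ℝ] Y).HasFiniteRange := by
  set F := Submodule.span ℝ ((fun a => A (dl a)) '' (range N : Set ℕ)) with hF
  have : FiniteDimensional ℝ F := FiniteDimensional.span_of_finite ℝ ((finite_toSet _).image _)
  have h1 : (A : Y →ₗ[ℝ] Y).range ≤ F := by
    rintro _ ⟨x, rfl⟩
    refine F.closed_of_finiteDimensional.mem_of_tendsto ((hasSum_dl x).mapL A)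
      (Eventually.of_forall fun s => Submodule.sum_mem _ fun a _ => ?_)
    rw [map_smul]
    refine Submodule.smul_mem _ _ ?_
    by_cases ha : N ≤ a
    · rw [h a ha]; exact F.zero_mem
    · exact Submodule.subset_span ⟨a, by simpa using ha, rfl⟩
  exact (Submodule.fg_iff_finiteDimensional _).2 (Submodule.finiteDimensional_of_le h1)

/-- adding a letter at the other end of a word -/
def lam (k : Fin 4) : ℕ → ℕ
  | 0 => k + 1
  | a + 1 => 4 * lam k (a / 4) + a % 4 + 1
decreasing_by omega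

lemma lam_zero (k : Fin 4) : lam k 0 = k + 1 := by rw [lam]

lemma lam_succ (k : Fin 4) (a : ℕ) : lam k (a + 1) = 4 * lam k (a / 4) + a % 4 + 1 := by rw [lam]

lemma lam_pos (k : Fin 4) (a : ℕ) : 0 < lam k a := by
  cases a
  · rw [lam_zero]; omega
  · rw [lam_succ]; omega

lemma lam_inj {k l : Fin 4} (a : ℕ) : ∀ b, lam k a = lam l b → k = l ∧ a = b := by
  induction a using Nat.strong_induction_on with
  | _ a ih =>
    intro b h
    have hk := k.isLt
    have hl := l.isLt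
    cases a with
    | zero =>
      cases b with
      | zero => rw [lam_zero, lam_zero] at h; exact ⟨Fin.ext (by omega), rfl⟩
      | succ b => rw [lam_zero, lam_succ] at h; have := lam_pos l (b / 4); omega
    | succ a =>
      cases b with
      | zero => rw [lam_zero, lam_succ] at h; have := lam_pos k (a / 4); omega
      | succ b =>
        rw [lam_succ, lam_succ] at h
        obtain ⟨h1, h2⟩ := ih (a / 4) (by omega) (b / 4) (by omega)
        exact ⟨h1, by omega⟩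

lemma lam_surj (b : ℕ) : 0 < b → ∃ k a, lam k a = b := by
  induction b using Nat.strong_induction_on with
  | _ b ih =>
    intro hb
    by_cases h : b ≤ 4
    · exact ⟨⟨b - 1, by omega⟩, 0, by rw [lam_zero]; simp only; omega⟩
    · obtain ⟨k, a, ha⟩ := ih ((b - 1) / 4) (by omega) (by omega)
      refine ⟨k, 4 * a + (b - 1) % 4 + 1, ?_⟩
      rw [lam_succ, show (4 * a + (b - 1) % 4) / 4 = a by omega, ha]
      omega

def S' (i : Fin 4) : Y →L[ℝ] Y := mp (fun _ => True) fun a => 4 * a + i + 1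
def T' (i : Fin 4) : Y →L[ℝ] Y := mp (fun a => 0 < a ∧ (a - 1) % 4 = i) fun a => (a - 1) / 4
def L' (k : Fin 4) : Y →L[ℝ] Y := mp (fun _ => True) (lam k)
open Classical in
def R' (k : Fin 4) : Y →L[ℝ] Y := mp (fun b => ∃ a, lam k a = b) (Function.invFun (lam k))
def Q' (N : ℕ) : Y →L[ℝ] Y := mp (fun a => N ≤ a) id

lemma S'_dl (i : Fin 4) (a : ℕ) : S' i (dl a) = dl (4 * a + i + 1) := by simp [S', mp_dl]

lemma L'_dl (k : Fin 4) (a : ℕ) : L' k (dl a) = dl (lam k a) := by simp [L', mp_dl]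

lemma T'_dl (i : Fin 4) (a : ℕ) :
    T' i (dl a) = if 0 < a ∧ (a - 1) % 4 = i then dl ((a - 1) / 4) else 0 := mp_dl _ _ _

lemma R'_lam (k l : Fin 4) (a : ℕ) : R' k (dl (lam l a)) = if k = l then dl a else 0 := by
  rw [R', mp_dl]
  by_cases h : k = l
  · subst h
    rw [if_pos ⟨a, rfl⟩, if_pos rfl,
      Function.leftInverse_invFun (fun a b h => (lam_inj a b h).2) a]
  · rw [if_neg h, if_neg]
    rintro ⟨b, hb⟩
    exact h (lam_inj _ _ hb).1

lemma T'_mul_S' (i k : Fin 4) : T' i * S' k = if i = k then 1 else 0 := ext_dl fun a => by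
  have hi := i.isLt
  have hk := k.isLt
  rw [mul_apply_eq_comp, S'_dl, T'_dl]
  by_cases h : i = k
  · subst h
    rw [if_pos (by omega), if_pos rfl, show (4 * a + i + 1 - 1) / 4 = a by omega]
    rfl
  · have h1 : (i : ℕ) ≠ k := fun h2 => h (Fin.ext h2)
    rw [if_neg (by omega), if_neg h]
    rfl

lemma eq_sum_dl {y : Y} (F : Finset ℕ) (h : ∀ a, y a ≠ 0 → a ∈ F) : y = ∑ a ∈ F, y a • dl a :=
  (hasSum_dl y).unique (hasSum_sum_of_ne_finset_zero fun a ha => by
    rw [not_not.1 (mt (h a) ha), zero_smul])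

lemma fr_congr {M N : Type*} [AddCommGroup M] [Module ℝ M] [AddCommGroup N] [Module ℝ N]
    {f g : M →ₗ[ℝ] N} (h : f.HasFiniteRange) (hfg : ∀ x, g x = f x) : g.HasFiniteRange := by
  rwa [show g = f from LinearMap.ext hfg]

/-- an operator on the space together with its twin on the summable sequences -/
structure Pair (A : X →L[ℝ] X) (B : Y →L[ℝ] Y) : Prop where
  agree : ∀ t a, val (A (e t)) a = B (dl t) a
  fin : ∃ κ, ∀ t, ∃ F : Finset ℕ, F.card ≤ κ ∧ ∀ a, val (A (e t)) a ≠ 0 → a ∈ F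
  esc : ∀ c, ∀ᶠ t in atTop, Lo c (val (A (e t)))
  comm : ∀ k, ((B * L' k - L' k * B : Y →L[ℝ] Y) : Y →ₗ[ℝ] Y).HasFiniteRange
  rm : ∃ C : ℝ, 0 ≤ C ∧ ∀ U δ, Sm U δ → Sm (U * A) (C * δ)

lemma Pair.add {A A' : X →L[ℝ] X} {B B' : Y →L[ℝ] Y} (h : Pair A B) (h' : Pair A' B') :
    Pair (A + A') (B + B') := by
  have key : ∀ t a, val ((A + A') (e t)) a ≠ 0 → val (A (e t)) a ≠ 0 ∨ val (A' (e t)) a ≠ 0 := by
    intro t a ha
    by_contra hcon
    push Not at hcon
    simp [hcon.1, hcon.2] at ha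
  refine ⟨fun t a => by simp [h.agree, h'.agree], ?_, fun c => ?_, fun k => ?_, ?_⟩
  · obtain ⟨κ, hκ⟩ := h.fin
    obtain ⟨κ', hκ'⟩ := h'.fin
    refine ⟨κ + κ', fun t => ?_⟩
    obtain ⟨F, h1, h2⟩ := hκ t
    obtain ⟨F', h1', h2'⟩ := hκ' t
    exact ⟨F ∪ F', (card_union_le _ _).trans (by omega), fun a ha =>
      mem_union.2 ((key t a ha).imp (h2 a) (h2' a))⟩
  · filter_upwards [h.esc c, h'.esc c] with t h1 h2 a ha
    exact (key t a ha).elim (h1 a) (h2 a)
  · refine fr_congr ((h.comm k).add (h'.comm k)) fun x => ?_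
    simp only [ContinuousLinearMap.coe_coe, LinearMap.add_apply, sub_apply, mul_apply_eq_comp,
      add_apply, map_add]
    abel
  · obtain ⟨C, h1, h2⟩ := h.rm
    obtain ⟨C', h1', h2'⟩ := h'.rm
    exact ⟨C + C', by linarith, fun U δ hU => by
      rw [mul_add, add_mul]; exact (h2 U δ hU).add (h2' U δ hU)⟩

lemma Pair.smul {A : X →L[ℝ] X} {B : Y →L[ℝ] Y} (h : Pair A B) (c : ℝ) : Pair (c • A) (c • B) := by
  have key : ∀ t a, val ((c • A) (e t)) a ≠ 0 → val (A (e t)) a ≠ 0 := fun t a ha h0 => by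
    simp [h0] at ha
  refine ⟨fun t a => by simp [h.agree], ?_, fun d => ?_, fun k => ?_, ?_⟩
  · obtain ⟨κ, hκ⟩ := h.fin
    refine ⟨κ, fun t => ?_⟩
    obtain ⟨F, h1, h2⟩ := hκ t
    exact ⟨F, h1, fun a ha => h2 a (key t a ha)⟩
  · filter_upwards [h.esc d] with t h1 a ha
    exact h1 a (key t a ha)
  · exact fr_congr ((h.comm k).smul c) fun x => by simp [smul_sub]
  · obtain ⟨C, h1, h2⟩ := h.rm
    exact ⟨|c| * C, by positivity, fun U δ hU => by
      rw [mul_smul_comm, mul_assoc]; exact (h2 U δ hU).smul c⟩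

lemma Pair.sub {A A' : X →L[ℝ] X} {B B' : Y →L[ℝ] Y} (h : Pair A B) (h' : Pair A' B') :
    Pair (A - A') (B - B') := by
  simpa [sub_eq_add_neg] using h.add (h'.smul (-1))

lemma exists_of_apply {A : X →L[ℝ] X} {x : X} {F : Finset ℕ} (h : ∀ a, val x a ≠ 0 → a ∈ F)
    {a : ℕ} (ha : val (A x) a ≠ 0) : ∃ b ∈ F, val x b ≠ 0 ∧ val (A (e b)) a ≠ 0 := by
  rw [eq_sum_e F h, map_sum] at ha
  obtain ⟨b, hb, h1⟩ := exists_of_val_sum ha
  rw [map_smul, map_smul, Pi.smul_apply, smul_eq_mul] at h1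
  exact ⟨b, hb, left_ne_zero_of_mul h1, right_ne_zero_of_mul h1⟩

lemma Pair.mul {A A' : X →L[ℝ] X} {B B' : Y →L[ℝ] Y} (h : Pair A B) (h' : Pair A' B') :
    Pair (A * A') (B * B') := by
  obtain ⟨κ', hκ'⟩ := h'.fin
  refine ⟨fun t a => ?_, ?_, fun c => ?_, fun k => ?_, ?_⟩
  · obtain ⟨F, -, h2⟩ := hκ' t
    rw [mul_apply_eq_comp, mul_apply_eq_comp, eq_sum_e F h2,
      eq_sum_dl (y := B' (dl t)) F fun b hb => h2 b (by rwa [h'.agree])]
    rw [map_sum, map_sum, map_sum, lp.coeFn_sum, Finset.sum_apply, Finset.sum_apply]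
    simp [h.agree, h'.agree]
  · obtain ⟨κ, hκ⟩ := h.fin
    choose G hG1 hG2 using hκ
    refine ⟨κ' * κ, fun t => ?_⟩
    obtain ⟨F, h1, h2⟩ := hκ' t
    refine ⟨F.biUnion G, (card_biUnion_le_card_mul _ _ _ fun b _ => hG1 b).trans
      (Nat.mul_le_mul_right _ h1), fun a ha => ?_⟩
    obtain ⟨b, hb, -, h3⟩ := exists_of_apply h2 ha
    exact mem_biUnion.2 ⟨b, hb, hG2 b a h3⟩
  · obtain ⟨t₀, ht₀⟩ := eventually_atTop.1 (h.esc c)
    filter_upwards [h'.esc t₀] with t ht a ha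
    obtain ⟨F, -, h2⟩ := hκ' t
    obtain ⟨b, -, h3, h4⟩ := exists_of_apply h2 ha
    exact ht₀ b (ht b h3) a h4
  · exact fr_congr (((h'.comm k).comp_left (B : Y →ₗ[ℝ] Y)).add
      ((h.comm k).comp_right (B' : Y →ₗ[ℝ] Y))) fun x => by simp
  · obtain ⟨C, h1, h2⟩ := h.rm
    obtain ⟨C', h1', h2'⟩ := h'.rm
    exact ⟨C' * C, by positivity, fun U δ hU => by
      rw [← mul_assoc, mul_assoc C']; exact h2' _ _ (h2 U δ hU)⟩

lemma pair_basis {A : X →L[ℝ] X} {B : Y →L[ℝ] Y} (g : ℕ → ℕ)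
    (h : ∀ t, (A (e t) = e (g t) ∧ B (dl t) = dl (g t)) ∨ (A (e t) = 0 ∧ B (dl t) = 0))
    (hg : ∀ c, ∀ᶠ t in atTop, c ≤ g t)
    (hc : ∀ k a, 1 ≤ a → B (dl (lam k a)) = L' k (B (dl a))) (hm : ∀ U δ, Sm U δ → Sm (U * A) δ) :
    Pair A B := by
  have key : ∀ t a, val (A (e t)) a ≠ 0 → a = g t := by
    intro t a ha
    rcases h t with h | h
    · rw [h.1, val_e] at ha
      by_contra h1
      exact ha (if_neg h1)
    · simp [h.1] at ha
  refine ⟨fun t a => ?_, ⟨1, fun t => ⟨{g t}, by simp, fun a ha => by simp [key t a ha]⟩⟩,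
    fun c => (hg c).mono fun t ht a ha => key t a ha ▸ ht, fun k => fin_range (N := 1) fun a ha => ?_,
    1, zero_le_one, fun U δ hU => by simpa using hm U δ hU⟩
  · rcases h t with h | h
    · rw [h.1, h.2, val_e, dl_apply]
    · simp [h.1, h.2]
  · simp [L'_dl, hc k a ha]

lemma pair_one : Pair 1 1 := pair_basis id (fun _ => Or.inl ⟨rfl, rfl⟩) eventually_ge_atTop
  (fun k a _ => by simp [L'_dl]) fun U δ h => by simpa using h

lemma pair_S (i : Fin 4) : Pair (S i) (S' i) := by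
  have hi := i.isLt
  refine pair_basis (fun a => 4 * a + i + 1) (fun t => Or.inl ⟨X.ext fun a => ?_, S'_dl i t⟩)
    (fun c => (eventually_ge_atTop c).mono fun t ht => by omega) (fun k a _ => ?_) fun U δ h => h.S i
  · simp only [val_S, Sr_apply, val_e]
    split_ifs <;> first | rfl | omega
  · rw [S'_dl, S'_dl, L'_dl, lam_succ, show (4 * a + i) / 4 = a by omega,
      show (4 * a + i) % 4 = i by omega]

lemma pair_T (i : Fin 4) : Pair (T i) (T' i) := by
  have hi := i.isLt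
  refine pair_basis (fun a => (a - 1) / 4) (fun t => ?_)
    (fun c => (eventually_ge_atTop (4 * c + 1)).mono fun t ht => by omega) (fun k a ha => ?_)
    fun U δ h => h.T i
  · by_cases ht : 0 < t ∧ (t - 1) % 4 = i
    · refine Or.inl ⟨X.ext fun a => ?_, by rw [T'_dl, if_pos ht]⟩
      simp only [val_T, Tr_apply, val_e]
      split_ifs <;> first | rfl | omega
    · refine Or.inr ⟨X.ext fun a => ?_, by rw [T'_dl, if_neg ht]⟩
      simp only [val_T, Tr_apply, val_e, map_zero, Pi.zero_apply]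
      rw [if_neg (by omega)]
  · obtain ⟨a, rfl⟩ := Nat.exists_eq_add_of_le' ha
    rw [T'_dl, T'_dl, lam_succ]
    by_cases h : a % 4 = i
    · rw [if_pos (by omega), if_pos (by omega), L'_dl, Nat.add_sub_cancel, Nat.add_sub_cancel]
      congr 1
      omega
    · rw [if_neg (by omega), if_neg (by omega), map_zero]

lemma exists_pair {U : X →L[ℝ] X} (hU : U ∈ Alg) : ∃ B, Pair U B := by
  induction hU using Submodule.span_induction with
  | mem U hU =>
    obtain ⟨⟨a, b⟩, rfl⟩ := hU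
    have h1 : ∃ B, Pair (SW a) B := by
      induction a with
      | nil => exact ⟨_, pair_one⟩
      | cons i a ih => exact ⟨_, (pair_S i).mul ih.choose_spec⟩
    have h2 : ∃ B, Pair (TW b) B := by
      induction b with
      | nil => exact ⟨_, pair_one⟩
      | cons i b ih => exact ⟨_, ih.choose_spec.mul (pair_T i)⟩
    exact ⟨_, h1.choose_spec.mul h2.choose_spec⟩
  | zero => exact ⟨_, by simpa using pair_one.smul 0⟩
  | add U U' _ _ h1 h2 => exact ⟨_, h1.choose_spec.add h2.choose_spec⟩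
  | smul c U _ h1 => exact ⟨_, h1.choose_spec.smul c⟩

lemma l1_le {j : ℕ} (hj : j % 2 = 0) {R : Finset ℕ} (hR : R.card ≤ n j) (u : X) :
    (∑ a ∈ R, |val u a|) / m j ≤ ‖u‖ := by
  have h1 := low hj hR id (fun r => r + 1) (fun r _ s _ h => h)
    (fun r => (if 0 ≤ val u r then (1 : ℚ) else -1) • (LinearMap.proj r : Fn))
    fun r _ => (W.leaf r _ (by split_ifs <;> simp)).K
  refine le_trans (le_of_eq ?_) ((le_abs_self _).trans (le_norm h1.K u))
  rw [node_apply]
  congr 1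
  refine sum_congr rfl fun r _ => ?_
  rw [leaf_apply, pr_apply, if_pos (show id r ≤ r ∧ r < r + 1 from ⟨le_rfl, by omega⟩)]
  split_ifs with h
  · simp [abs_of_nonneg h]
  · simp [abs_of_neg (not_le.1 h)]

theorem Pair.low {A : X →L[ℝ] X} {B : Y →L[ℝ] Y} (h : Pair A B) {ε : ℝ} (hA : Sm A ε) :
    ∀ᶠ t in atTop, ‖B (dl t)‖ ≤ 2 * ε := by
  by_contra hcon
  rw [not_eventually] at hcon
  obtain ⟨κ, hκ⟩ := h.fin
  have hF : ∀ t, ∃ F : Finset ℕ, F.card ≤ κ ∧ ∀ a, val (A (e t)) a ≠ 0 ↔ a ∈ F := fun t => by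
    obtain ⟨F, h1, h2⟩ := hκ t
    exact ⟨F.filter fun a => val (A (e t)) a ≠ 0, (card_filter_le _ _).trans h1, fun a =>
      ⟨fun ha => mem_filter.2 ⟨h2 a ha, ha⟩, fun ha => (mem_filter.1 ha).2⟩⟩
  choose F hF1 hF2 using hF
  have hn : ∀ t, ‖B (dl t)‖ ≤ ∑ a ∈ F t, |val (A (e t)) a| := fun t => by
    rw [eq_sum_dl (y := B (dl t)) (F t) fun a ha => (hF2 t a).1 (by rwa [h.agree])]
    refine (norm_sum_le _ _).trans (le_of_eq (sum_congr rfl fun a _ => ?_))
    rw [norm_smul, norm_dl, mul_one, h.agree, Real.norm_eq_abs]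
  obtain ⟨f, -, hf⟩ := exists_chain (fun p q : ℕ × ℕ => p.1 ≤ q.2 ∧ q.2 < q.1 ∧
      Lo p.1 (val (A (e q.2))) ∧ Hi q.1 (val (A (e q.2))) ∧ 2 * ε < ‖B (dl q.2)‖) (fun p => by
    obtain ⟨t, h1, h2, h3⟩ := (hcon.and_eventually ((eventually_ge_atTop p.1).and (h.esc p.1))).exists
    refine ⟨(t + (F t).sup id + 1, t), h2, by simp only; omega, h3, fun a ha => ?_, not_le.1 h1⟩
    have := le_sup (f := id) ((hF2 t a).1 ha)
    simp only [id] at this ⊢
    omega) (0, 0)
  set c : ℕ → ℕ := fun k => (f k).1 with hc'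
  set t : ℕ → ℕ := fun k => (f (k + 1)).2 with ht
  have hc : StrictMono c := strictMono_nat_of_lt_succ fun k => (hf k).1.trans_lt (hf k).2.1
  have he : ∀ k a, val (e (t k)) a ≠ 0 → a = t k := fun k a ha => by
    by_contra h1
    exact ha (if_neg h1)
  have hy : Blk c fun k => e (t k) := fun k =>
    ⟨fun a ha => he k a ha ▸ (hf k).1, fun a ha => he k a ha ▸ (hf k).2.1⟩
  have hv : Blk c fun k => A (e (t k)) := fun k => ⟨(hf k).2.2.1, (hf k).2.2.2.1⟩
  have hR : Ris (fun k => e (t k)) 1 := by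
    refine ⟨one_pos, fun k => (norm_e _).le, fun a => tendsto_const_nhds.congr' ?_,
      fun i => Eventually.of_forall fun k φ hφ => ?_⟩
    · filter_upwards [eventually_gt_atTop a] with k hk
      by_contra hne
      have h1 := (hy k).1 a (Ne.symm hne)
      have h2 := hc.id_le k
      simp only [id] at h2
      omega
    · simpa [val_e] using hφ.le_l1 (val (e (t k))) {t k} fun a ha => if_neg (by simpa using ha)
  choose G hG1 hG2 hG3 using fun l => exists_sel hy hR (2 * l) l (Nn (2 * l))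
  have hE := fun l => exact_est (hy.succ hc (G l)) zero_le_one (fun k _ => hR.bdd k) (hG1 l).le
    le_rfl (hG3 l)
  have hx : Ris (fun l => ((m (2 * l) : ℝ) / Nn (2 * l)) • ∑ k ∈ G l, e (t k)) (2 * 1) := by
    refine ⟨by norm_num, fun l => (hE l).1, fun a => tendsto_const_nhds.congr' ?_, fun i => ?_⟩
    · filter_upwards [eventually_gt_atTop a] with l hl
      by_contra hne
      obtain ⟨k, hk, hka⟩ := exists_of_val_smul_sum (Ne.symm hne)
      have h1 := (hy k).1 a hka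
      have h2 := hc.id_le k
      have h3 := hG2 l k hk
      simp only [id] at h2
      omega
    · filter_upwards [eventually_gt_atTop i] with l hl φ hφ
      have := (hE l).2 i φ hφ (by omega)
      rwa [min_eq_left (by omega)] at this
  obtain ⟨l, h1, h2⟩ := ((hA.gen hx).and (eventually_ge_atTop κ)).exists
  have hm := mR_pos (2 * l)
  have hN : (0 : ℝ) < Nn (2 * l) := by exact_mod_cast Nn_pos _
  have hne : ∀ k k' a, k ≠ k' → a ∈ F (t k) → val (A (e (t k'))) a = 0 := by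
    intro k k' a hkk ha
    by_contra h3
    have h4 := (hF2 _ a).2 ha
    rcases lt_or_gt_of_ne hkk with h5 | h5
    · exact lt_irrefl _ (hv.succ hc {k, k'} k (by simp) k' (by simp) h5 a a h4 h3)
    · exact lt_irrefl _ (hv.succ hc {k, k'} k' (by simp) k (by simp) h5 a a h3 h4)
  have h3 := l1_le (j := 2 * l) (by omega) (R := (G l).biUnion fun k => F (t k))
    ((card_biUnion_le_card_mul _ _ κ fun k _ => hF1 _).trans (by
      rw [hG1, mul_comm]; exact Nn_mul_le _ _ (by omega))) (∑ k ∈ G l, A (e (t k)))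
  rw [sum_biUnion fun k _ k' _ hkk => disjoint_left.2 fun a ha ha' =>
    (hF2 _ a).2 ha' (hne k k' a hkk ha)] at h3
  have h4 : ∑ _k ∈ G l, 2 * ε <
      ∑ k ∈ G l, ∑ a ∈ F (t k), |val (∑ k ∈ G l, A (e (t k))) a| := by
    refine sum_lt_sum_of_nonempty (card_pos.1 (hG1 l ▸ Nn_pos _)) fun k hk => ?_
    refine ((hf k).2.2.2.2.trans_le (hn _)).trans_le (le_of_eq (sum_congr rfl fun a ha => ?_))
    rw [map_sum, Finset.sum_apply, sum_eq_single k (fun k' _ hkk => hne k k' a hkk.symm ha)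
      fun h => absurd hk h]
  rw [sum_const, hG1, nsmul_eq_mul] at h4
  rw [map_smul, map_sum, norm_smul, Real.norm_of_nonneg (by positivity), div_mul_eq_mul_div,
    div_le_iff₀ hN] at h1
  rw [div_le_iff₀ hm] at h3
  nlinarith

end Pool.Agent.H145Z.PF
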