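import Pool.Agent.H145Z.PF.H

set_option autoImplicit false

open Finset Filter Topology

noncomputable section

namespace Pool.Agent.H145Z.PF

def Tl (B : Y →L[ℝ] Y) (θ : ℝ) : Prop := ∀ᶠ t in atTop, ‖B (dl t)‖ ≤ θ

lemma Q'_dl (N a : ℕ) : Q' N (dl a) = if N ≤ a then dl a else 0 := mp_dl _ _ _

lemma Tl.norm {B : Y →L[ℝ] Y} {θ : ℝ} (h : Tl B θ) : ∃ N, ‖B * Q' N‖ ≤ θ := by
  obtain ⟨N, hN⟩ := eventually_atTop.1 h
  refine ⟨N, norm_le_cols fun a => ?_⟩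
  rw [mul_apply_eq_comp, Q'_dl]
  split_ifs with ha
  · exact hN a ha
  · simpa using (norm_nonneg _).trans (hN N le_rfl)

lemma Tl.mul {A' : X →L[ℝ] X} {B B' : Y →L[ℝ] Y} {θ θ' : ℝ} (h : Tl B θ) (h' : Tl B' θ')
    (hp : Pair A' B') : Tl (B * B') (θ * θ') := by
  obtain ⟨N, hN⟩ := h.norm
  obtain ⟨κ, hκ⟩ := hp.fin
  filter_upwards [h', hp.esc N] with t h1 h2
  obtain ⟨F, -, hF⟩ := hκ t
  have h3 : Q' N (B' (dl t)) = B' (dl t) := by
    rw [eq_sum_dl (y := B' (dl t)) F fun a ha => hF a (by rwa [hp.agree]), map_sum]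
    refine sum_congr rfl fun a _ => ?_
    by_cases ha : B' (dl t) a = 0
    · simp [ha]
    · rw [map_smul, Q'_dl, if_pos (h2 a (by rwa [hp.agree]))]
  rw [mul_apply_eq_comp, ← h3]
  exact (B * Q' N).le_of_opNorm_le_of_le hN h1

lemma Tl.inv {B : Y →L[ℝ] Y} (h : Tl B (1 / 2)) : ∃ G : Y →L[ℝ] Y,
    ((G * (1 + B) - 1 : Y →L[ℝ] Y) : Y →ₗ[ℝ] Y).HasFiniteRange ∧
    (((1 + B) * G - 1 : Y →L[ℝ] Y) : Y →ₗ[ℝ] Y).HasFiniteRange := by
  obtain ⟨N, hN⟩ := h.norm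
  set u := Units.oneSub (-(B * Q' N)) (by rw [norm_neg]; linarith) with hu
  have h1 : (u : Y →L[ℝ] Y) = 1 + B * Q' N := by simp [hu]
  have h2 : ((B - B * Q' N : Y →L[ℝ] Y) : Y →ₗ[ℝ] Y).HasFiniteRange :=
    fin_range (N := N) fun a ha => by simp [Q'_dl, ha]
  have h3 : 1 + B = u + (B - B * Q' N) := by rw [h1]; abel
  refine ⟨(u⁻¹ : (Y →L[ℝ] Y)ˣ), fr_congr (h2.comp_left ((u⁻¹ : (Y →L[ℝ] Y)ˣ) : Y →L[ℝ] Y))
    fun x => ?_, fr_congr (h2.comp_right ((u⁻¹ : (Y →L[ℝ] Y)ˣ) : Y →L[ℝ] Y)) fun x => ?_⟩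
  · rw [h3, mul_add, Units.inv_mul, add_sub_cancel_left]; rfl
  · rw [h3, add_mul, Units.mul_inv, add_sub_cancel_left]; rfl

lemma no_twin (ι : Fin 2 → Fin 4) (hι : Function.Injective ι) {V₀ W W' : Y →L[ℝ] Y}
    (hc : ∀ i k, ((T' i * V₀ * L' k - L' k * (T' i * V₀) : Y →L[ℝ] Y) : Y →ₗ[ℝ] Y).HasFiniteRange)
    (h1 : Tl (W * ((∑ s, S' (ι s) * T' (ι s)) * V₀) - 1) (1 / 2))
    (h2 : Tl ((∑ s, S' (ι s) * T' (ι s)) * V₀ * W' - ∑ s, S' (ι s) * T' (ι s)) (1 / 2)) : False := by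
  obtain ⟨G, hG, -⟩ := h1.inv
  obtain ⟨G', -, hG'⟩ := h2.inv
  have hTS : ∀ s s' y, T' (ι s) (S' (ι s') y) = if s = s' then y else 0 := fun s s' y => by
    rw [← mul_apply_eq_comp, T'_mul_S']
    by_cases h : s = s'
    · simp [h]
    · simp [h, hι.ne h]
  have hev : ∀ y : Y, lp.evalCLM ℝ (fun _ => ℝ) 1 0 y = y 0 := fun _ => rfl
  set f : Y →ₗ[ℝ] Fin 2 → Y := LinearMap.pi fun s => (T' (ι s) * V₀ : Y →L[ℝ] Y) with hf
  set g : (Fin 2 → Y) →ₗ[ℝ] Y := ∑ s, (S' (ι s) : Y →ₗ[ℝ] Y) ∘ₗ LinearMap.proj s with hg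
  set t : Y →ₗ[ℝ] Fin 2 → Y := LinearMap.pi fun s => (T' (ι s) : Y →ₗ[ℝ] Y) with ht
  refine no_fredholm f (Fr.of_quasi (W₁ := (G * W : Y →L[ℝ] Y) ∘ₗ g)
    (W₂ := (W' * G' : Y →L[ℝ] Y) ∘ₗ g) (fr_congr hG fun x => ?_)
    (fr_congr ((hG'.comp_right g).comp_left t) fun y => funext fun s => ?_))
    (fun k => L' k) (fun k => R' k) (fun k l x => ?_) (lp.evalCLM ℝ (fun _ => ℝ) 1 0 : Y →L[ℝ] ℝ)
    (fun c => ⟨c • dl 0, by simp [hev, dl_apply]⟩) (fun k x => ?_) (fun x hx => ?_)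
    fun i k => fr_congr (hc (ι i) k) fun x => by simp [hf]
  · simp [hf, hg]
  · fin_cases s <;> simp [hf, hg, ht, hTS]
  · have : R' k * L' l = if k = l then 1 else 0 := ext_dl fun a => by
      rw [mul_apply_eq_comp, L'_dl, R'_lam]
      split_ifs <;> rfl
    have h3 := congrArg (fun A : Y →L[ℝ] Y => A x) this
    simp only [mul_apply_eq_comp] at h3
    refine h3.trans ?_
    split_ifs <;> rfl
  · have : (lp.evalCLM ℝ (fun _ => ℝ) 1 0).comp (L' k) = 0 := ext_dl fun a => by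
      have := lam_pos k a
      simp [hev, L'_dl, dl_apply]
      omega
    exact congrArg (fun A : Y →L[ℝ] ℝ => A x) this
  · have : ∑ k, L' k * R' k + (lp.evalCLM ℝ (fun _ => ℝ) 1 0).smulRight (dl 0) = 1 :=
      ext_dl fun b => by
        rcases Nat.eq_zero_or_pos b with rfl | hb
        · have : ∀ k, R' k (dl 0) = 0 := fun k => by
            rw [R', mp_dl, if_neg]
            rintro ⟨a, ha⟩
            exact (lam_pos k a).ne' ha
          simp [hev, this, dl_apply]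
        · obtain ⟨l, a, rfl⟩ := lam_surj b hb
          simp [hev, R'_lam, dl_apply, hb.ne, apply_ite, L'_dl]
    have h3 := congrArg (fun A : Y →L[ℝ] Y => A x) this
    have h4 : x 0 = 0 := hx
    simpa [hev, h4] using h3

theorem no_square (ι : Fin 2 → Fin 4) (hι : Function.Injective ι) {U L : X →L[ℝ] X}
    (h1 : L * U = 1) (h2 : ∀ ε > 0, Sm (U * L - ∑ s, S (ι s) * T (ι s)) ε)
    (h3 : ∀ ε > 0, Sm (U - (∑ s, S (ι s) * T (ι s)) * U) ε) : False := by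
  have hP : Pair (∑ s, S (ι s) * T (ι s)) (∑ s, S' (ι s) * T' (ι s)) := by
    simp only [Fin.sum_univ_two]
    exact ((pair_S _).mul (pair_T _)).add ((pair_S _).mul (pair_T _))
  set p := ∑ s, S (ι s) * T (ι s) with hp
  have hpn : ‖p‖ ≤ 2 := by
    have : ∀ i, ‖S i * T i‖ ≤ 1 := fun i =>
      (norm_mul_le _ _).trans (mul_le_one₀ (opNorm_S i) (norm_nonneg _) (opNorm_T i))
    rw [hp, Fin.sum_univ_two]
    linarith [norm_add_le (S (ι 0) * T (ι 0)) (S (ι 1) * T (ι 1)), this (ι 0), this (ι 1)]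
  have hL := norm_nonneg L
  have hU := norm_nonneg U
  have small : ∀ C : ℝ, 0 ≤ C → ∃ ε > 0, (C + 1) * ε = 1 / 64 := fun C hC =>
    ⟨1 / 64 / (C + 1), by positivity, by field_simp⟩
  obtain ⟨ε₁, e1, e1'⟩ := small _ hL
  obtain ⟨V₀, hV₀, s1⟩ := approx U e1
  obtain ⟨V₁, pV⟩ := exists_pair hV₀
  have s2 : Sm (U - p * V₀) (ε₁ + 2 * ε₁) := by
    convert (h3 ε₁ e1).add (s1.left p hpn) using 1
    noncomm_ring
  obtain ⟨C, hC, hC'⟩ := (hP.mul pV).rm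
  obtain ⟨ε₂, e2, e2'⟩ := small _ hC
  obtain ⟨W₀, hW₀, s3⟩ := approx L e2
  obtain ⟨W₁, pW⟩ := exists_pair hW₀
  have s4 : Sm (W₀ * (p * V₀) - 1) (C * ε₂ + ‖L‖ * (ε₁ + 2 * ε₁)) := by
    convert (hC' _ _ s3.neg).add (s2.neg.left L le_rfl) using 1
    rw [← h1]
    noncomm_ring
  obtain ⟨ε₄, e4, e4'⟩ := small _ hU
  obtain ⟨W₀', hW₀', s5⟩ := approx L e4
  obtain ⟨W₁', pW'⟩ := exists_pair hW₀'
  obtain ⟨C', hD, hD'⟩ := pW'.rm
  obtain ⟨ε₃, e3, e3'⟩ := small _ hD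
  obtain ⟨V₀', hV₀', s6⟩ := approx U (lt_min e1 e3)
  obtain ⟨V₁', pV'⟩ := exists_pair hV₀'
  have s7 : Sm (V₀' * W₀' - p) (C' * ε₃ + ‖U‖ * ε₄ + 1 / 64) := by
    convert ((hD' _ _ (s6.mono (min_le_right _ _)).neg).add (s5.neg.left U le_rfl)).add
      (h2 (1 / 64) (by norm_num)) using 1
    noncomm_ring
  have s8 : Sm (p * V₀ - V₀') (ε₁ + 2 * ε₁ + ε₁) := by
    convert s2.neg.add (s6.mono (min_le_left _ _)) using 1
    abel
  have s9 : Sm W₀' (‖L‖ + ε₄) := by simpa using (sm_norm L).add s5.neg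
  have t1 := Tl.mul (((hP.mul pV).sub pV').low s8) (pW'.low s9) pW'
  have t2 := ((pV'.mul pW').sub hP).low s7
  refine no_twin ι hι (V₀ := V₁) (W := W₁) (W' := W₁') (fun i k => ((pair_T i).mul pV).comm k)
    ((((pW.mul (hP.mul pV)).sub pair_one).low s4).mono fun t ht => ht.trans (by nlinarith)) ?_
  filter_upwards [t1, t2] with t a1 a2
  have a3 := norm_add_le ((((∑ s, S' (ι s) * T' (ι s)) * V₁ - V₁') * W₁') (dl t))
    ((V₁' * W₁' - ∑ s, S' (ι s) * T' (ι s)) (dl t))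
  rw [← add_apply, sub_mul, sub_add_sub_cancel] at a3
  rw [sub_mul] at a1
  have : ε₄ ≤ 1 := by nlinarith
  nlinarith

lemma sum_ST : S 0 * T 0 + S 1 * T 1 + (S 2 * T 2 + S 3 * T 3 + P 0 1) = 1 := by
  ext1 x
  refine X.ext fun a => ?_
  simp only [add_apply, mul_apply_eq_comp, map_add, Pi.add_apply, val_S, val_T, val_P, Sr_apply,
    Tr_apply, pr_apply, one_apply_eq_self]
  rcases Nat.eq_zero_or_pos a with rfl | ha
  · simp
  · obtain ⟨t, i, hi, rfl⟩ : ∃ t i, i < 4 ∧ a = 4 * t + i + 1 :=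
      ⟨(a - 1) / 4, (a - 1) % 4, by omega, by omega⟩
    have h1 : (4 * t + i + 1 - 1) / 4 = t := by omega
    have h2 : (4 * t + i + 1 - 1) % 4 = i := by omega
    rw [h1, h2]
    interval_cases i <;> simp

lemma exists_UL {p : X →L[ℝ] X} (hp : p * p = p)
    (θ : X ≃L[ℝ] LinearMap.range (p : X →ₗ[ℝ] X)) : ∃ U L : X →L[ℝ] X, L * U = 1 ∧ U * L = p := by
  refine ⟨(LinearMap.range (p : X →ₗ[ℝ] X)).subtypeL.comp (θ : X →L[ℝ] _),
    θ.symm.toContinuousLinearMap.comp (p.codRestrict _ fun x => LinearMap.mem_range_self _ x),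
    ?_, ?_⟩
  · ext1 x
    obtain ⟨y, hy⟩ := (θ x).2
    refine θ.symm_apply_eq.2 (Subtype.ext ?_)
    show p (θ x) = θ x
    rw [← hy]
    exact congrArg (fun A : X →L[ℝ] X => A y) hp
  · ext1 x
    exact congrArg Subtype.val (θ.apply_symm_apply _)

lemma p_idem : (S 0 * T 0 + S 1 * T 1) * (S 0 * T 0 + S 1 * T 1) = S 0 * T 0 + S 1 * T 1 := by
  have h : ∀ i k, S i * T i * (S k * T k) = S i * (T i * S k) * T k := fun i k => by
    simp only [mul_assoc]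
  simp [add_mul, mul_add, h, T_mul_S]

theorem not_primary :
    ¬ (Nonempty (X ≃L[ℝ] LinearMap.range ((S 0 * T 0 + S 1 * T 1 : X →L[ℝ] X) : X →ₗ[ℝ] X)) ∨
      Nonempty (X ≃L[ℝ] LinearMap.range
        ((1 - (S 0 * T 0 + S 1 * T 1) : X →L[ℝ] X) : X →ₗ[ℝ] X))) := by
  have hz : ∀ ε > 0, Sm 0 ε := fun ε hε => (sm_norm 0).mono (by simpa using hε.le)
  rintro (⟨⟨θ⟩⟩ | ⟨⟨θ⟩⟩)
  · obtain ⟨U, L, h1, h2⟩ := exists_UL p_idem θ
    refine no_square ![0, 1] (by decide) h1 (by simpa [h2] using hz) ?_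
    have : U - (S 0 * T 0 + S 1 * T 1) * U = 0 := by rw [← h2, mul_assoc, h1]; simp
    simpa [this] using hz
  · obtain ⟨U, L, h1, h2⟩ := exists_UL (p := 1 - (S 0 * T 0 + S 1 * T 1))
      (by rw [mul_sub, sub_mul, sub_mul, p_idem]; simp) θ
    have h3 : U * L - (S 2 * T 2 + S 3 * T 3) = P 0 1 * 1 := by
      rw [h2, mul_one]
      nth_rewrite 1 [← sum_ST]
      abel
    refine no_square ![2, 3] (by decide) h1 (fun ε hε => by simpa [h3] using sm_head 1 1 hε)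
      fun ε hε => ?_
    have : U - (S 2 * T 2 + S 3 * T 3) * U = P 0 1 * U := by
      rw [← mul_one (P 0 1), ← h3, sub_mul, mul_assoc, h1, mul_one]
    simpa [this] using sm_head U 1 hε

end Pool.Agent.H145Z.PF
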